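import Pool.Agent.X91.BW.Num

/-! The concrete total variation bound -/

set_option autoImplicit false

open MeasureTheory Set Filter Topology Polynomial

namespace Pool.Agent.X91.BW

lemma ww_comm (n m : ℕ) : ww n m = ww m n := by
  funext s
  unfold ww AA
  rw [rp_comm, add_comm (n : ℝ) (m : ℝ)]

lemma tv_zero (n : ℕ) : ww n 0 = fun _ => 0 := by
  funext s
  unfold ww
  rw [rp_eq]
  simp

lemma tv_one (n : ℕ) (hn : 2 ≤ n) : 1 + ∫ s in Ioi (0 : ℝ), |ww n 1 s| ≤ 5 := by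
  have hn' : (2 : ℝ) ≤ n := by exact_mod_cast hn
  have hint := ww_int n 1 (by omega)
  have e1 : ∀ s : ℝ, 0 < s → |ww n 1 s| = n * (1 + s) ^ (-(((n : ℝ) + 1) / 2)) := by
    intro s hs
    unfold ww AA
    rw [rp_eq, Finset.sum_range_one, rc_zero, abs_mul, abs_of_pos hs]
    have h1 : (0 : ℝ) < (1 + s) ^ (-(((n : ℝ) + (1 : ℕ)) / 2)) := Real.rpow_pos_of_pos (by linarith) _
    rw [abs_of_pos h1]
    push_cast
    rw [mul_one, pow_zero, mul_one, abs_neg, abs_of_pos (by linarith)]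
    ring
  have h2 : ∫ s in Ioi (0 : ℝ), |ww n 1 s| = ∫ s in Ioi (0 : ℝ), n * (1 + s) ^ (-(((n : ℝ) + 1) / 2)) :=
    setIntegral_congr_fun measurableSet_Ioi (fun s hs => e1 s hs)
  have hi : IntegrableOn (fun s : ℝ => n * (1 + s) ^ (-(((n : ℝ) + 1) / 2))) (Ioi 0) :=
    (hint.abs.integrableOn (s := Ioi (0 : ℝ))).congr_fun (fun s hs => e1 s hs) measurableSet_Ioi
  have hd : ∀ s ∈ Ioi (0 : ℝ), HasDerivAt (fun s : ℝ => -(2 * n / ((n : ℝ) - 1)) * (1 + s) ^ (-(((n : ℝ) - 1) / 2)))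
      (n * (1 + s) ^ (-(((n : ℝ) + 1) / 2))) s := by
    intro s hs
    have hs' : (0 : ℝ) < s := hs
    have h3 : (0 : ℝ) < 1 + s := by linarith
    have h4 := (((hasDerivAt_id s).const_add 1).rpow_const (p := -(((n : ℝ) - 1) / 2)) (Or.inl h3.ne')).const_mul
      (-(2 * n / ((n : ℝ) - 1)))
    refine h4.congr_deriv ?_
    have e : -(((n : ℝ) - 1) / 2) - 1 = -(((n : ℝ) + 1) / 2) := by ring
    simp only [id]
    rw [e]
    have : (n : ℝ) - 1 ≠ 0 := by linarith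
    field_simp
  have hc : ContinuousWithinAt (fun s : ℝ => -(2 * n / ((n : ℝ) - 1)) * (1 + s) ^ (-(((n : ℝ) - 1) / 2)))
      (Ici 0) 0 := by
    apply ContinuousAt.continuousWithinAt
    refine continuousAt_const.mul (ContinuousAt.rpow_const (by fun_prop) (Or.inl (by norm_num)))
  have ht : Tendsto (fun s : ℝ => -(2 * n / ((n : ℝ) - 1)) * (1 + s) ^ (-(((n : ℝ) - 1) / 2))) atTop
      (𝓝 (-(2 * n / ((n : ℝ) - 1)) * 0)) := by
    refine Tendsto.const_mul _ ?_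
    exact (tendsto_rpow_neg_atTop (by linarith)).comp (tendsto_atTop_add_const_left _ 1 tendsto_id)
  have h5 := integral_Ioi_of_hasDerivAt_of_tendsto hc hd hi ht
  rw [h2, h5]
  simp only [add_zero, Real.one_rpow, mul_zero, mul_one, zero_sub, neg_neg]
  have : 0 < (n : ℝ) - 1 := by linarith
  have h6 : 2 * n / ((n : ℝ) - 1) ≤ 4 := by
    rw [div_le_iff₀ this]
    linarith
  linarith

lemma tv_two (n m : ℕ) (hm : 2 ≤ m) (h : m < n) :
    1 + ∫ s in Ioi (0 : ℝ), |ww n m s| ≤ 2 + 318 / 100 * (152 / 100 * ((m : ℝ) + 1 / 2)) := by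
  have hm' : (2 : ℝ) ≤ m := by exact_mod_cast hm
  have hn' : (m : ℝ) + 1 ≤ n := by exact_mod_cast h
  obtain ⟨C, hC0, hC⟩ := Hf_decay n m h
  have h1 := tv (P := (n : ℝ) * m) (b := (((n : ℝ) - m) / 2) ^ 2) (H := Hf n m) (K := Kf n m)
    (sys n m) (by nlinarith) (by nlinarith) (by nlinarith [mul_nonneg (show (0 : ℝ) ≤ n by linarith) (show (0 : ℝ) ≤ m by linarith), mul_le_mul_of_nonneg_left hm' (show (0 : ℝ) ≤ n by linarith)])
    (E_lim n m) (V_lim n m) (ww n m) (ww_cont n m) (Hf_eq n m)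
    (by rw [ww_zero, abs_neg, abs_of_nonneg (by positivity)]) (Hf_cont n m).continuousOn hC0 hC
    (152 / 100 * ((m : ℝ) + 1 / 2)) (by positivity) (by
      obtain ⟨d, hd⟩ : ∃ d : ℝ, d = (n : ℝ) - m := ⟨_, rfl⟩
      have hd1 : 1 ≤ d := by linarith
      have e : (n : ℝ) = m + d := by linarith
      rw [← hd, e]
      have k1 : (m : ℝ) + d ≤ (m + 1) * d := by nlinarith
      have k2 : ((m : ℝ) + d) ^ 2 ≤ ((m + 1) * d) ^ 2 := pow_le_pow_left₀ (by linarith) k1 2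
      have k3 : (((m : ℝ) + d) * m) ^ 2 ≤ (m * (m + 1)) ^ 2 * d ^ 2 := by
        calc (((m : ℝ) + d) * m) ^ 2 = ((m : ℝ) + d) ^ 2 * (m : ℝ) ^ 2 := by ring
          _ ≤ ((m + 1) * d) ^ 2 * (m : ℝ) ^ 2 := by gcongr
          _ = _ := by ring
      have k4 : ((m : ℝ) * (m + 1)) ^ 2 ≤ (((m : ℝ) + 1 / 2) ^ 2) ^ 2 := by
        apply pow_le_pow_left₀ (by positivity)
        nlinarith
      have k5 : d ^ 2 ≤ 16 / 3 * ((d / 2) ^ 2 - 1 / 16) := by nlinarith
      have k6 : 0 ≤ (d / 2) ^ 2 - 1 / 16 := by nlinarith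
      calc (((m : ℝ) + d) * m) ^ 2 ≤ (m * (m + 1)) ^ 2 * d ^ 2 := k3
        _ ≤ (((m : ℝ) + 1 / 2) ^ 2) ^ 2 * (16 / 3 * ((d / 2) ^ 2 - 1 / 16)) := by
            apply mul_le_mul k4 k5 (by positivity) (by positivity)
        _ ≤ ((d / 2) ^ 2 - 1 / 16) * (152 / 100 * ((m : ℝ) + 1 / 2)) ^ 4 := by
            have : (152 / 100 * ((m : ℝ) + 1 / 2)) ^ 4 = (152 / 100) ^ 4 * (((m : ℝ) + 1 / 2) ^ 2) ^ 2 := by
              ring
            rw [this]
            have k7 : 0 ≤ ((d / 2) ^ 2 - 1 / 16) * (((m : ℝ) + 1 / 2) ^ 2) ^ 2 := by positivity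
            nlinarith)
    (ww_int n m h).integrableOn
  linarith

theorem tv_lt (n m : ℕ) (h : m < n) :
    1 + ∫ s in Ioi (0 : ℝ), |ww n m s| ≤ Real.exp (2 * hs m) := by
  rcases m with _ | _ | m
  · rw [tv_zero]
    simp [hs]
  · have h1 := tv_one n (by omega)
    have h2 := hs_low 0
    have h3 := Real.exp_one_gt_d9
    have h4 : Real.exp (2 * 1) = Real.exp 1 * Real.exp 1 := by rw [← Real.exp_add]; norm_num
    have h5 : hs (0 + 1) = 1 := by simp [hs]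
    rw [h5, h4]
    nlinarith
  · have h1 := tv_two n (m + 1 + 1) (by omega) h
    have h2 := hs_low (m + 1)
    push_cast at h1 h2 ⊢
    have : (0 : ℝ) ≤ m := Nat.cast_nonneg m
    refine h1.trans (le_trans ?_ h2)
    nlinarith

/-- **the total variation of the kernel** -/
theorem tv_main (n m : ℕ) (h : n ≠ m) :
    Integrable (ww n m) ∧ 1 + ∫ s in Ioi (0 : ℝ), |ww n m s| ≤ Real.exp (2 * hs (min n m)) := by
  rcases lt_or_gt_of_ne h with h1 | h1
  · rw [ww_comm, min_eq_left h1.le]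
    exact ⟨ww_int m n h1, tv_lt m n h1⟩
  · rw [min_eq_right h1.le]
    exact ⟨ww_int n m h1, tv_lt n m h1⟩

end Pool.Agent.X91.BW
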