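import Pool.Agent.X91.BW.Rt

/-! Riesz-Thorin interpolation: conclusion -/

set_option autoImplicit false

open MeasureTheory Set Filter Topology Complex
open scoped ContDiff

namespace Pool.Agent.X91.BW

lemma rt_alg {U V N p : ℝ} (hU : 0 ≤ U) (hV : 0 ≤ V) (hN : 0 ≤ N) (hp : 2 < p)
    (h : U ≤ (√V * √U) ^ (2 / p) * (N * U) ^ (1 - 2 / p)) : U ≤ N ^ (p - 2) * V := by
  have hp0 : 0 < p := by linarith
  rcases hU.eq_or_lt with h0 | h0
  · rw [← h0]
    positivity
  have h1 : U ^ p ≤ ((√V * √U) ^ (2 / p) * (N * U) ^ (1 - 2 / p)) ^ p :=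
    Real.rpow_le_rpow hU h hp0.le
  rw [Real.mul_rpow (by positivity) (by positivity), ← Real.rpow_mul (by positivity),
    ← Real.rpow_mul (by positivity)] at h1
  have e1 : 2 / p * p = 2 := by field_simp
  have e2 : (1 - 2 / p) * p = p - 2 := by field_simp
  rw [e1, e2, Real.rpow_two, mul_pow, Real.sq_sqrt hV, Real.sq_sqrt hU,
    Real.mul_rpow hN hU] at h1
  have h2 : U ^ p = U * (U * U ^ (p - 2)) := by
    rw [← mul_assoc, ← sq, ← Real.rpow_natCast U 2, ← Real.rpow_add h0]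
    congr 1
    push_cast; ring
  rw [h2] at h1
  have h3 : 0 < U * U ^ (p - 2) := by positivity
  have h4 : U * (U * U ^ (p - 2)) ≤ (N ^ (p - 2) * V) * (U * U ^ (p - 2)) := by
    calc U * (U * U ^ (p - 2)) ≤ V * U * (N ^ (p - 2) * U ^ (p - 2)) := h1
      _ = _ := by ring
  exact le_of_mul_le_mul_right h4 h3

theorem rt {w τ : ℝ → ℝ} (hw : IntegrableOn w (Ioi 0)) (hwm : Measurable w) (hτ : Measurable τ)
    (h2 : ∀ F, Good F → IntegrableOn (fun x => ‖Sop w τ F x‖ ^ 2) (Ioi 0) ∧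
      ∫ x in Ioi (0 : ℝ), ‖Sop w τ F x‖ ^ 2 ≤ ∫ x in Ioi (0 : ℝ), ‖F x‖ ^ 2)
    {p : ℝ} (hp : 2 ≤ p) {F : ℝ → ℂ} (hF : Good F) (T : ℝ) :
    ∫ x in Ioo 0 T, ‖Sop w τ F x‖ ^ p ≤
      (1 + ∫ s in Ioi (0 : ℝ), |w s|) ^ (p - 2) * ∫ x in Ioi (0 : ℝ), ‖F x‖ ^ p := by
  have hN0 : 0 ≤ 1 + ∫ s in Ioi (0 : ℝ), |w s| := by
    have : 0 ≤ ∫ s in Ioi (0 : ℝ), |w s| := integral_nonneg fun s => abs_nonneg _
    linarith
  have hV0 : 0 ≤ ∫ x in Ioi (0 : ℝ), ‖F x‖ ^ p := integral_nonneg fun x => by positivity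
  rcases hp.eq_or_lt with rfl | hp
  · simp only [Real.rpow_two, sub_self, Real.rpow_zero, one_mul]
    obtain ⟨h3, h4⟩ := h2 F hF
    exact (setIntegral_mono_set h3 (Eventually.of_forall fun x => by positivity)
      Ioo_subset_Ioi_self.eventuallyLE).trans h4
  rcases le_or_gt T 0 with hT | hT
  · rw [Ioo_eq_empty (not_lt.2 hT)]
    simp only [Measure.restrict_empty, integral_zero_measure]
    positivity
  have hp0 : 0 < p := by linarith
  have hpq := Real.HolderConjugate.conjExponent (show 1 < p by linarith)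
  set q := p.conjExponent with hq
  have hq0 : 0 < q := hpq.symm.pos
  obtain ⟨M, hM0, hM⟩ := hF.bdd
  obtain ⟨R, hR0, hR⟩ : ∃ R : ℝ, 0 < R ∧ ∀ x, R ≤ x → F x = 0 := by
    obtain ⟨_, r, R, hr, h3, h4⟩ := hF
    exact ⟨max R 1, lt_of_lt_of_le one_pos (le_max_right _ _), fun x hx => h4 x ((le_max_left _ _).trans hx)⟩
  have hFc : Continuous F := hF.1.continuous
  set u := Sop w τ F with hu
  have hum : Measurable u := (Sop_meas hwm hτ hFc).measurable
  have hub := Sop_le (τ := τ) hw hM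
  rw [← hu] at hub
  set G : ℝ → ℂ := fun x => (starRingEnd ℂ) (u x) * ((‖u x‖ ^ (p - 2) : ℝ) : ℂ) with hG
  have hGm : Measurable G := by
    refine (Complex.continuous_conj.measurable.comp hum).mul ?_
    exact Complex.measurable_ofReal.comp (hum.norm.pow_const _)
  have hGn : ∀ x, ‖G x‖ = ‖u x‖ ^ (p - 1) := by
    intro x
    simp only [hG, norm_mul, RCLike.norm_conj]
    rw [Complex.norm_real, Real.norm_of_nonneg (by positivity)]
    rcases (norm_nonneg (u x)).eq_or_lt with h0 | h0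
    · rw [← h0, zero_mul, Real.zero_rpow (by linarith)]
    · nth_rewrite 1 [← Real.rpow_one ‖u x‖]
      rw [← Real.rpow_add h0]
      congr 1; ring
  have hGb : ∀ x, ‖G x‖ ≤ ((1 + ∫ s in Ioi (0 : ℝ), |w s|) * M) ^ (p - 1) := by
    intro x
    rw [hGn]
    exact Real.rpow_le_rpow (norm_nonneg _) (hub x) (by linarith)
  have hGq : ∀ x, ‖G x‖ ^ q = ‖u x‖ ^ p := by
    intro x
    rw [hGn, ← Real.rpow_mul (norm_nonneg _)]
    congr 1
    exact hpq.sub_one_mul_conj
  have huG : ∀ x, u x * G x = ((‖u x‖ ^ p : ℝ) : ℂ) := by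
    intro x
    simp only [hG]
    rw [← mul_assoc, Complex.mul_conj, Complex.normSq_eq_norm_sq, ← Complex.ofReal_mul]
    congr 1
    rcases (norm_nonneg (u x)).eq_or_lt with h0 | h0
    · rw [← h0, Real.zero_rpow hp0.ne']
      ring
    · rw [← Real.rpow_natCast, ← Real.rpow_add h0]
      congr 1
      push_cast; ring
  set U := ∫ x in Ioo 0 T, ‖u x‖ ^ p with hU
  have hU0 : 0 ≤ U := integral_nonneg fun x => by positivity
  set φ : ℝ → ℝ := fun ε => (√(∫ x in (0 : ℝ)..R, (‖F x‖ ^ 2 + ε ^ 2) ^ (p / 2)) * √U) ^ (2 / p) *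
      ((1 + ∫ s in Ioi (0 : ℝ), |w s|) * (U + |ε| ^ q * T)) ^ (1 - 2 / p) with hφ
  have hle : ∀ ε, 0 < ε → U ≤ φ ε := by
    intro ε hε
    have h3 := pairing hw hwm hτ h2 hp hpq hF hGm hGb hT hR0 hR hε
    rw [← hu] at h3
    simp only [huG, hGq] at h3
    rw [integral_complex_ofReal, Complex.norm_real, Real.norm_of_nonneg hU0] at h3
    simp only [hφ]
    rw [abs_of_pos hε]
    exact h3
  have hcont : Continuous φ := by
    have c1 : Continuous fun ε : ℝ => ∫ x in (0 : ℝ)..R, (‖F x‖ ^ 2 + ε ^ 2) ^ (p / 2) := by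
      refine intervalIntegral.continuous_parametric_intervalIntegral_of_continuous' ?_ _ _
      refine Continuous.rpow_const ?_ (fun a => Or.inr (by positivity))
      exact ((hFc.comp continuous_snd).norm.pow 2).add (continuous_fst.pow 2)
    have c2 : Continuous fun ε : ℝ => |ε| ^ q :=
      continuous_abs.rpow_const (fun a => Or.inr hq0.le)
    have h4 : 2 / p < 1 := by rw [div_lt_one hp0]; exact hp
    refine Continuous.mul ?_ ?_
    · exact ((Real.continuous_sqrt.comp c1).mul continuous_const).rpow_const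
        (fun a => Or.inr (by positivity))
    · exact (continuous_const.mul (continuous_const.add (c2.mul continuous_const))).rpow_const
        (fun a => Or.inr (by linarith))
  have hlim : U ≤ φ 0 := by
    refine ge_of_tendsto ((hcont.tendsto 0).mono_left (nhdsWithin_le_nhds (s := Ioi (0 : ℝ)))) ?_
    filter_upwards [self_mem_nhdsWithin] with ε hε
    exact hle ε hε
  have hφ0 : φ 0 = (√(∫ x in Ioi (0 : ℝ), ‖F x‖ ^ p) * √U) ^ (2 / p) *
      ((1 + ∫ s in Ioi (0 : ℝ), |w s|) * U) ^ (1 - 2 / p) := by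
    simp only [hφ]
    rw [abs_zero, Real.zero_rpow hq0.ne', zero_mul, add_zero]
    congr 4
    rw [intervalIntegral.integral_of_le hR0.le]
    have e1 : ∀ x, (‖F x‖ ^ 2 + (0 : ℝ) ^ 2) ^ (p / 2) = ‖F x‖ ^ p := by
      intro x
      rw [← Real.rpow_natCast ‖F x‖ 2]
      norm_num
      rw [← Real.rpow_natCast, ← Real.rpow_mul (norm_nonneg _)]
      congr 1
      push_cast; ring
    simp only [e1]
    symm
    refine setIntegral_eq_of_subset_of_forall_sdiff_eq_zero measurableSet_Ioi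
      Ioc_subset_Ioi_self (fun x hx => ?_)
    have : R ≤ x := by
      by_contra hcon
      push Not at hcon
      exact hx.2 ⟨hx.1, hcon.le⟩
    rw [hR x this, norm_zero, Real.zero_rpow hp0.ne']
  rw [hφ0] at hlim
  exact rt_alg hU0 hV0 hN0 hp hlim

end Pool.Agent.X91.BW
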