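import Pool.Agent.X91.BW.Mode
import Pool.Agent.X91.BW.Rt2
import Pool.Agent.X91.BW.Num2
import Pool.Agent.Y338.BP.E

/-! The `L^p` bound for the smooth functions of one angular mode, upper half -/

set_option autoImplicit false

open MeasureTheory Set Filter Topology
open scoped FourierTransform SchwartzMap ContDiff ENNReal

namespace Pool.Agent.X91.BW

open Pool.Agent.Y282.RB (Tn)

/-- the integral over the plane -/
lemma int_plane {f : ℂ → ℂ} {φ : ℝ → ℂ} (h : ∀ z, z ≠ 0 → ‖f z‖ = ‖φ (Complex.normSq z)‖) (p : ℝ) :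
    ∫ z : ℂ, ‖f z‖ ^ p = Real.pi * ∫ x in Ioi (0 : ℝ), ‖φ x‖ ^ p := by
  rw [← Pool.Agent.Y282.RB.A3.int_normSq (fun x => ‖φ x‖ ^ p)]
  refine integral_congr_ae ?_
  have h0 : ∀ᵐ z : ℂ, z ≠ 0 := by
    rw [ae_iff]
    simp
  filter_upwards [h0] with z hz
  rw [h z hz]

lemma norm_mode {k : ℕ} {F : ℝ → ℂ} {f : ℂ → ℂ}
    (hf : ∀ z, f z = (z / (‖z‖ : ℂ)) ^ k * F (Complex.normSq z)) (z : ℂ) (hz : z ≠ 0) :
    ‖f z‖ = ‖F (Complex.normSq z)‖ := by
  rw [hf, norm_mul, norm_pow, norm_div, Complex.norm_real, norm_norm,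
    div_self (norm_ne_zero_iff.2 hz), one_pow, one_mul]

lemma Sop_zero {w : ℝ → ℝ} {F : ℝ → ℂ} {R : ℝ} (hR : ∀ x, R ≤ x → F x = 0) (x : ℝ) (hx0 : 0 < x)
    (hx : R ≤ x) : Sop w (fun s => 1 + s) F x = 0 := by
  unfold Sop
  rw [hR x hx, zero_add]
  have : ∀ s ∈ Ioi (0 : ℝ), (w s : ℂ) * F (x * (1 + s)) = 0 := by
    intro s hs
    have hs0 : 0 < s := hs
    rw [hR _ (by nlinarith), mul_zero]
  rw [setIntegral_congr_fun measurableSet_Ioi this]
  simp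

lemma Good.pos {F : ℝ → ℂ} (h : Good F) : ∃ R : ℝ, 0 < R ∧ ∀ x, R ≤ x → F x = 0 := by
  obtain ⟨_, r, R, hr, h3, h4⟩ := h
  exact ⟨max R 1, lt_of_lt_of_le one_pos (le_max_right _ _), fun x hx => h4 x ((le_max_left _ _).trans hx)⟩

/-- the isometry on the half line -/
lemma half_two (n m : ℕ) (h : n ≠ m) (F : ℝ → ℂ) (hF : Good F) :
    IntegrableOn (fun x => ‖Sop (ww n m) (fun s => 1 + s) F x‖ ^ 2) (Ioi 0) ∧
      ∫ x in Ioi (0 : ℝ), ‖Sop (ww n m) (fun s => 1 + s) F x‖ ^ 2 ≤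
        ∫ x in Ioi (0 : ℝ), ‖F x‖ ^ 2 := by
  obtain ⟨hw, -⟩ := tv_main n m h
  obtain ⟨R, hR0, hR⟩ := hF.pos
  obtain ⟨M, hM0, hM⟩ := hF.bdd
  obtain ⟨f, hf1, ⟨v, hv⟩, hf2⟩ := plane_mode n m hF
  constructor
  · have h1 : IntegrableOn (fun x => ‖Sop (ww n m) (fun s => 1 + s) F x‖ ^ 2) (Ioc 0 R) := by
      refine (integrable_const (((1 + ∫ s in Ioi (0 : ℝ), |ww n m s|) * M) ^ 2)).mono' ?_
        (Eventually.of_forall fun x => ?_)
      · exact ((Sop_meas (ww_cont n m).measurable (by fun_prop) hF.1.continuous).norm.pow 2).aestronglyMeasurable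
      · rw [Real.norm_of_nonneg (by positivity)]
        exact pow_le_pow_left₀ (norm_nonneg _) (Sop_le hw.integrableOn hM x) 2
    refine h1.of_forall_sdiff_eq_zero measurableSet_Ioi ?_
    intro x hx
    have hx0 : 0 < x := hx.1
    have h3 : R ≤ x := by
      by_contra hcon
      push Not at hcon
      exact hx.2 ⟨hx.1, hcon.le⟩
    rw [Sop_zero hR x hx0 h3]
    simp
  · have e1 := int_plane hf2 2
    have e2 := int_plane (norm_mode hf1) 2
    simp only [Real.rpow_two] at e1 e2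
    have e3 : ∫ z : ℂ, ‖Tn n f z‖ ^ 2 = ∫ z : ℂ, ‖f z‖ ^ 2 := by
      have h1 : ∀ g : 𝓢(ℂ, ℂ), ∫ z : ℂ, ‖g z‖ ^ 2 = (∫⁻ z : ℂ, ‖g z‖ₑ ^ 2).toReal := by
        intro g
        have h0 : Continuous fun z : ℂ => ‖g z‖ ^ 2 := g.continuous.norm.pow 2
        rw [integral_eq_lintegral_of_nonneg_ae (f := fun z : ℂ => ‖g z‖ ^ 2)
          (Eventually.of_forall fun z => by positivity) h0.aestronglyMeasurable]
        congr 1
        refine lintegral_congr fun z => ?_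
        rw [ENNReal.ofReal_pow (norm_nonneg _), ofReal_norm]
      have h2 := Pool.Agent.Y338.BP.T_two f n
      have h3 : ∀ z, Pool.Agent.TH55.PowA.T (fun ξ => Pool.Agent.TH55.PowA.bs ξ ^ n) f z = v z := hv
      simp only [h3] at h2
      simp only [hv]
      rw [h1, h1, h2]
    rw [e1, e2] at e3
    have := mul_left_cancel₀ Real.pi_pos.ne' e3
    exact this.le

/-- the `L^p` bound on the half line -/
lemma half_p (n m : ℕ) (h : n ≠ m) {p : ℝ} (hp : 2 ≤ p) {F : ℝ → ℂ} (hF : Good F) :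
    ∫ x in Ioi (0 : ℝ), ‖Sop (ww n m) (fun s => 1 + s) F x‖ ^ p ≤
      Real.exp (2 * hs n) ^ (p - 2) * ∫ x in Ioi (0 : ℝ), ‖F x‖ ^ p := by
  obtain ⟨hw, hN⟩ := tv_main n m h
  obtain ⟨R, hR0, hR⟩ := hF.pos
  have h1 := rt hw.integrableOn (ww_cont n m).measurable (by fun_prop) (half_two n m h) hp hF R
  have h2 : ∫ x in Ioi (0 : ℝ), ‖Sop (ww n m) (fun s => 1 + s) F x‖ ^ p =
      ∫ x in Ioo 0 R, ‖Sop (ww n m) (fun s => 1 + s) F x‖ ^ p := by
    refine setIntegral_eq_of_subset_of_forall_sdiff_eq_zero measurableSet_Ioi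
      Ioo_subset_Ioi_self (fun x hx => ?_)
    have hx0 : 0 < x := hx.1
    have h3 : R ≤ x := by
      by_contra hcon
      push Not at hcon
      exact hx.2 ⟨hx.1, hcon⟩
    rw [Sop_zero hR x hx0 h3, norm_zero, Real.zero_rpow (by linarith)]
  rw [h2]
  refine h1.trans (mul_le_mul_of_nonneg_right ?_ (integral_nonneg fun x => by positivity))
  have h4 : 0 ≤ ∫ s in Ioi (0 : ℝ), |ww n m s| := integral_nonneg fun s => abs_nonneg _
  refine Real.rpow_le_rpow (by linarith) (hN.trans ?_) (by linarith)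
  exact Real.exp_le_exp.2 (mul_le_mul_of_nonneg_left (hs_mono (min_le_left _ _)) (by norm_num))

/-- the constant `(1/q)_n / (1/p)_n` -/
noncomputable def KK (n : ℕ) (p : ℝ) : ℝ :=
  (ascPochhammer ℝ n).eval (1 - 1 / p) / (ascPochhammer ℝ n).eval (1 / p)

lemma asc_prod (n : ℕ) (x : ℝ) : (ascPochhammer ℝ n).eval x = ∏ j ∈ Finset.range n, (x + j) := by
  induction n with
  | zero => simp
  | succ n ih =>
    rw [ascPochhammer_succ_eval, ih, Finset.prod_range_succ]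

lemma KK_ge (n : ℕ) {p : ℝ} (hp : 2 ≤ p) : Real.exp (2 * hs n) ^ (1 - 2 / p) ≤ KK n p := by
  have hp0 : 0 < p := by linarith
  have h1 : 2 / p ≤ 1 := by rw [div_le_one hp0]; exact hp
  have h2 : 0 < 2 / p := by positivity
  unfold KK
  rw [asc_prod, asc_prod, ← Finset.prod_div_distrib, ← Real.exp_mul]
  unfold hs
  rw [Finset.mul_sum, Finset.sum_mul, Real.exp_sum]
  refine Finset.prod_le_prod (fun j _ => (Real.exp_pos _).le) (fun j _ => ?_)
  have hj : (0 : ℝ) ≤ j := Nat.cast_nonneg j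
  obtain ⟨z, hz⟩ : ∃ z : ℝ, z = (1 - 2 / p) / (2 * (j : ℝ) + 1) := ⟨_, rfl⟩
  have hz0 : 0 ≤ z := by rw [hz]; exact div_nonneg (by linarith) (by linarith)
  have hz1 : z < 1 := by
    rw [hz, div_lt_one (by linarith)]
    linarith
  have h3 := exp_le_ratio z hz0 hz1
  have e1 : 2 * (1 / (2 * (j : ℝ) + 1)) * (1 - 2 / p) = 2 * z := by
    rw [hz]; ring
  have e2 : (1 - 1 / p + (j : ℝ)) / (1 / p + j) = (1 + z) / (1 - z) := by
    rw [div_eq_div_iff (by positivity) (by linarith), hz]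
    field_simp
    ring
  rw [e1, e2]
  exact h3

/-- the bound in the plane for smooth functions -/
lemma plane_p (n m : ℕ) (h : n ≠ m) {p : ℝ} (hp : 2 ≤ p) {F : ℝ → ℂ} (hF : Good F) (g : 𝓢(ℂ, ℂ))
    (hg : ∀ z, g z = (z / (‖z‖ : ℂ)) ^ (n + m) * F (Complex.normSq z)) :
    eLpNorm (Tn n g) (ENNReal.ofReal p) volume ≤
      ENNReal.ofReal (Real.exp (2 * hs n) ^ (1 - 2 / p)) * eLpNorm g (ENNReal.ofReal p) volume := by
  have hp0 : 0 < p := by linarith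
  obtain ⟨f, hf1, ⟨v, hv⟩, hf2⟩ := plane_mode n m hF
  have hfg : g = f := by
    ext z
    rw [hg, hf1]
  subst hfg
  have hTv : Tn n g = v := funext hv
  have hP0 : ENNReal.ofReal p ≠ 0 := by
    rw [ne_eq, ENNReal.ofReal_eq_zero, not_le]
    exact hp0
  have e0 : ∀ u : 𝓢(ℂ, ℂ), eLpNorm u (ENNReal.ofReal p) volume =
      ENNReal.ofReal ((∫ z, ‖u z‖ ^ p) ^ (p⁻¹)) := by
    intro u
    rw [(u.memLp (ENNReal.ofReal p) volume).eLpNorm_eq_integral_rpow_norm hP0 ENNReal.ofReal_ne_top,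
      ENNReal.toReal_ofReal hp0.le]
  rw [hTv, e0, e0, ← ENNReal.ofReal_mul (by positivity)]
  refine ENNReal.ofReal_le_ofReal ?_
  have e1 : ∫ z : ℂ, ‖v z‖ ^ p = Real.pi * ∫ x in Ioi (0 : ℝ), ‖Sop (ww n m) (fun s => 1 + s) F x‖ ^ p := by
    rw [← int_plane hf2 p, hTv]
  have e2 : ∫ z : ℂ, ‖g z‖ ^ p = Real.pi * ∫ x in Ioi (0 : ℝ), ‖F x‖ ^ p :=
    int_plane (norm_mode hf1) p
  rw [e1, e2]
  have h3 := half_p n m h hp hF
  set E := Real.exp (2 * hs n) with hE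
  have hE0 : 0 < E := Real.exp_pos _
  have hI : 0 ≤ ∫ x in Ioi (0 : ℝ), ‖F x‖ ^ p := integral_nonneg fun x => by positivity
  have hI2 : 0 ≤ ∫ x in Ioi (0 : ℝ), ‖Sop (ww n m) (fun s => 1 + s) F x‖ ^ p :=
    integral_nonneg fun x => by positivity
  calc (Real.pi * ∫ x in Ioi (0 : ℝ), ‖Sop (ww n m) (fun s => 1 + s) F x‖ ^ p) ^ (p⁻¹)
      ≤ (E ^ (p - 2) * (Real.pi * ∫ x in Ioi (0 : ℝ), ‖F x‖ ^ p)) ^ (p⁻¹) := by
        refine Real.rpow_le_rpow (by positivity) ?_ (by positivity)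
        calc Real.pi * ∫ x in Ioi (0 : ℝ), ‖Sop (ww n m) (fun s => 1 + s) F x‖ ^ p
            ≤ Real.pi * (E ^ (p - 2) * ∫ x in Ioi (0 : ℝ), ‖F x‖ ^ p) :=
              mul_le_mul_of_nonneg_left h3 Real.pi_pos.le
          _ = _ := by ring
    _ = E ^ (1 - 2 / p) * (Real.pi * ∫ x in Ioi (0 : ℝ), ‖F x‖ ^ p) ^ (p⁻¹) := by
        rw [Real.mul_rpow (by positivity) (by positivity), ← Real.rpow_mul hE0.le]
        congr 2
        field_simp

end Pool.Agent.X91.BW
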