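import Pool.Agent.X91.BW.Plane

/-! The kernel representation -/

set_option autoImplicit false

open MeasureTheory Set Filter Topology
open scoped ContDiff

namespace Pool.Agent.X91.BW

lemma id_has {h : ℝ → ℂ} (hh : ContDiff ℝ (⊤ : ℕ∞) h) (k : ℕ) (y : ℝ) :
    HasDerivAt (iteratedDeriv k h) (iteratedDeriv (k + 1) h y) y := by
  rw [iteratedDeriv_succ]
  exact (hh.differentiable_iteratedDeriv k (by exact_mod_cast ENat.natCast_lt_top k) y).hasDerivAt

lemma id_cont {h : ℝ → ℂ} (hh : ContDiff ℝ (⊤ : ℕ∞) h) (k : ℕ) : Continuous (iteratedDeriv k h) :=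
  hh.continuous_iteratedDeriv k (by exact_mod_cast le_top)

lemma taylor {h : ℝ → ℂ} (hh : ContDiff ℝ (⊤ : ℕ∞) h) {R : ℝ}
    (hv : ∀ j x, R ≤ x → iteratedDeriv j h x = 0) (i : ℕ) : ∀ (k : ℕ) (x Y : ℝ), R ≤ Y →
    iteratedDeriv k h x = (-1) ^ (i + 1) / (i.factorial : ℂ) *
      ∫ y in x..Y, (((y - x : ℝ)) : ℂ) ^ i * iteratedDeriv (k + i + 1) h y := by
  induction i with
  | zero =>
    intro k x Y hY
    have h1 : ∫ y in x..Y, iteratedDeriv (k + 1) h y = iteratedDeriv k h Y - iteratedDeriv k h x :=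
      intervalIntegral.integral_eq_sub_of_hasDerivAt (fun y _ => id_has hh k y)
        ((id_cont hh (k + 1)).intervalIntegrable _ _)
    rw [hv k Y hY] at h1
    simp only [pow_zero, one_mul, zero_add, pow_one, Nat.factorial_zero, Nat.cast_one, add_zero]
    rw [h1]
    ring
  | succ i ih =>
    intro k x Y hY
    rw [ih k x Y hY]
    have h1 := intervalIntegral.integral_mul_deriv_eq_deriv_mul (a := x) (b := Y)
      (u := fun y : ℝ => (((y - x : ℝ)) : ℂ) ^ (i + 1))
      (u' := fun y : ℝ => ((i + 1 : ℕ) : ℂ) * (((y - x : ℝ)) : ℂ) ^ i)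
      (v := iteratedDeriv (k + i + 1) h) (v' := iteratedDeriv (k + i + 1 + 1) h)
      (fun y _ => by
        have h2 : HasDerivAt (fun y : ℝ => (((y - x : ℝ)) : ℂ)) 1 y := by
          simpa using ((hasDerivAt_id y).sub_const x).ofReal_comp
        have h3 := h2.pow (i + 1)
        refine h3.congr_deriv ?_
        simp)
      (fun y _ => id_has hh _ y)
      (Continuous.intervalIntegrable (by fun_prop) _ _)
      ((id_cont hh _).intervalIntegrable _ _)
    rw [hv _ Y hY] at h1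
    have e1 : k + (i + 1) + 1 = k + i + 1 + 1 := by ring
    rw [e1, h1]
    simp only [mul_zero, sub_self, Complex.ofReal_zero, mul_assoc]
    rw [intervalIntegral.integral_const_mul, zero_pow (by omega), zero_mul]
    rw [Nat.factorial_succ]
    have h4 : (i.factorial : ℂ) ≠ 0 := by exact_mod_cast i.factorial_ne_zero
    have h5 : ((i : ℂ) + 1) ≠ 0 := by exact_mod_cast i.succ_ne_zero
    push_cast
    field_simp
    ring

lemma dil {ψ : ℝ → ℂ} {R : ℝ} (hR : 0 < R) (hψ : ∀ x, R ≤ x → ψ x = 0) (i : ℕ) (x : ℝ) (hx : 0 < x) :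
    ∫ y in x..(x + R), (((y - x : ℝ)) : ℂ) ^ i * ψ y =
      (x : ℂ) ^ (i + 1) * ∫ s in Ioi (0 : ℝ), ((s : ℝ) : ℂ) ^ i * ψ (x * (1 + s)) := by
  have h1 := intervalIntegral.smul_integral_comp_add_mul (a := 0) (b := R / x)
    (fun y => (((y - x : ℝ)) : ℂ) ^ i * ψ y) x x
  have e1 : x + x * 0 = x := by ring
  have e2 : x + x * (R / x) = x + R := by field_simp
  rw [e1, e2] at h1
  rw [← h1]
  have hRx : 0 ≤ R / x := by positivity
  have h2 : ∫ s in Ioi (0 : ℝ), ((s : ℝ) : ℂ) ^ i * ψ (x * (1 + s)) =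
      ∫ s in Ioc 0 (R / x), ((s : ℝ) : ℂ) ^ i * ψ (x * (1 + s)) := by
    refine setIntegral_eq_of_subset_of_forall_sdiff_eq_zero measurableSet_Ioi
      Ioc_subset_Ioi_self (fun s hs => ?_)
    have hs0 : 0 < s := hs.1
    have h3 : R / x < s := by
      by_contra hcon
      push Not at hcon
      exact hs.2 ⟨hs.1, hcon⟩
    rw [div_lt_iff₀ hx] at h3
    rw [hψ _ (by nlinarith), mul_zero]
  rw [h2, intervalIntegral.integral_of_le hRx, ← integral_const_mul, ← integral_smul]
  refine integral_congr_ae (Eventually.of_forall fun s => ?_)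
  simp only [Complex.real_smul]
  have e3 : x + x * s - x = x * s := by ring
  have e4 : x + x * s = x * (1 + s) := by ring
  rw [e3, e4, pow_succ]
  push_cast
  rw [mul_pow]
  ring

lemma id_pow (m i : ℕ) : iteratedDeriv i (fun t : ℝ => (t : ℂ) ^ m) =
    fun x : ℝ => (m.descFactorial i : ℂ) * (x : ℂ) ^ (m - i) := by
  induction i with
  | zero => simp
  | succ i ih =>
    rw [iteratedDeriv_succ, ih]
    funext x
    have h3 : HasDerivAt (fun t : ℝ => (t : ℂ) ^ (m - i)) ((m - i : ℕ) * (x : ℂ) ^ (m - i - 1)) x :=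
      (hasDerivAt_pow (m - i) (x : ℂ)).comp_ofReal
    have h4 := (h3.const_mul (m.descFactorial i : ℂ)).deriv
    rw [h4, Nat.descFactorial_succ, Nat.sub_sub]
    push_cast
    ring

/-- **the kernel formula** -/
theorem ker_formula {h : ℝ → ℂ} (hh : ContDiff ℝ (⊤ : ℕ∞) h) {R : ℝ} (hR : 0 < R)
    (hv : ∀ j x, R ≤ x → iteratedDeriv j h x = 0) (n m : ℕ) (x : ℝ) (hx : 0 < x) :
    iteratedDeriv n (fun t : ℝ => (t : ℂ) ^ m * h t) x =
      (x : ℂ) ^ m * (iteratedDeriv n h x +
        ∫ s in Ioi (0 : ℝ), (((rp n m).eval s : ℝ) : ℂ) * iteratedDeriv n h (x * (1 + s))) := by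
  have h1 : iteratedDeriv n (fun t : ℝ => (t : ℂ) ^ m * h t) x =
      iteratedDeriv n ((fun t : ℝ => (t : ℂ) ^ m) * h) x := rfl
  have hpow : ContDiff ℝ n (fun t : ℝ => (t : ℂ) ^ m) := (Complex.ofRealCLM.contDiff).pow m
  rw [h1, iteratedDeriv_mul hpow.contDiffAt (hh.of_le (by exact_mod_cast le_top)).contDiffAt,
    Finset.sum_range_succ']
  have hg : ∀ y, R ≤ y → iteratedDeriv n h y = 0 := fun y hy => hv n y hy
  have hint : ∀ i : ℕ, IntegrableOn (fun s : ℝ => ((s : ℝ) : ℂ) ^ i * iteratedDeriv n h (x * (1 + s)))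
      (Ioi 0) := by
    intro i
    have hc : Continuous fun s : ℝ => ((s : ℝ) : ℂ) ^ i * iteratedDeriv n h (x * (1 + s)) := by
      have := id_cont hh n
      fun_prop
    have h2 : IntegrableOn (fun s : ℝ => ((s : ℝ) : ℂ) ^ i * iteratedDeriv n h (x * (1 + s)))
        (Icc 0 (R / x)) := hc.integrableOn_Icc
    refine (h2.mono_set Ioc_subset_Icc_self).of_forall_sdiff_eq_zero measurableSet_Ioi ?_
    intro s hs
    have h3 : R / x < s := by
      by_contra hcon
      push Not at hcon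
      exact hs.2 ⟨hs.1, hcon⟩
    have hs0 : 0 < s := hs.1
    rw [div_lt_iff₀ hx] at h3
    rw [hg _ (by nlinarith), mul_zero]
  have hsum : ∀ i ∈ Finset.range n, (n.choose (i + 1) : ℂ) *
      iteratedDeriv (i + 1) (fun t : ℝ => (t : ℂ) ^ m) x * iteratedDeriv (n - (i + 1)) h x =
      (x : ℂ) ^ m * ((rc n m i : ℂ) *
        ∫ s in Ioi (0 : ℝ), ((s : ℝ) : ℂ) ^ i * iteratedDeriv n h (x * (1 + s))) := by
    intro i hi
    have hi' : i < n := Finset.mem_range.1 hi
    have h2 := taylor hh hv i (n - (i + 1)) x (x + R) (by linarith)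
    have e1 : n - (i + 1) + i + 1 = n := by omega
    rw [e1, dil hR hg i x hx] at h2
    rw [h2, id_pow]
    simp only
    have h3 : (n.choose (i + 1) : ℂ) = (n.descFactorial (i + 1) : ℂ) / ((i + 1).factorial : ℂ) := by
      rw [Nat.descFactorial_eq_factorial_mul_choose]
      have : ((i + 1).factorial : ℂ) ≠ 0 := by exact_mod_cast (i + 1).factorial_ne_zero
      push_cast
      field_simp
    rw [h3]
    have h4 : (rc n m i : ℂ) = (-1) ^ (i + 1) * (n.descFactorial (i + 1) : ℂ) *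
        (m.descFactorial (i + 1) : ℂ) / (((i + 1).factorial : ℂ) * (i.factorial : ℂ)) := by
      unfold rc
      push_cast
      rfl
    rw [h4]
    rcases le_or_gt (i + 1) m with h5 | h5
    · have h6 : (x : ℂ) ^ m = (x : ℂ) ^ (m - (i + 1)) * (x : ℂ) ^ (i + 1) := by
        rw [← pow_add]
        congr 1
        omega
      rw [h6]
      ring
    · rw [Nat.descFactorial_eq_zero_iff_lt.2 h5]
      simp
  rw [Finset.sum_congr rfl hsum, ← Finset.mul_sum]
  simp only [Nat.choose_zero_right, Nat.cast_one, one_mul, iteratedDeriv_zero, Nat.sub_zero]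
  rw [mul_add, add_comm]
  congr 2
  have h7 : ∀ s : ℝ, (((rp n m).eval s : ℝ) : ℂ) * iteratedDeriv n h (x * (1 + s)) =
      ∑ i ∈ Finset.range n, (rc n m i : ℂ) * (((s : ℝ) : ℂ) ^ i * iteratedDeriv n h (x * (1 + s))) := by
    intro s
    rw [rp_comm, rp_eq]
    push_cast
    rw [Finset.sum_mul]
    refine Finset.sum_congr rfl fun i _ => ?_
    rw [rc_comm]
    ring
  simp only [h7]
  rw [integral_finsetSum _ (fun i _ => (hint i).const_mul _)]
  refine Finset.sum_congr rfl fun i _ => ?_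
  rw [integral_const_mul]

end Pool.Agent.X91.BW
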