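import Pool.Agent.X91.BW.Up

/-! Rotations and the pairing -/

set_option autoImplicit false

open MeasureTheory Set Filter Topology
open scoped FourierTransform SchwartzMap ContDiff ENNReal

namespace Pool.Agent.X91.BW

open Pool.Agent.Y282.RB (Tn)
open Pool.Agent.Y282.RB.K (Tn_eq adm_sy norm_ex' Ft_integrand)
open Pool.Agent.TH55.PowA (T Ft sm bs Ft_int T_cont T_integrand_int norm_ex)

lemma rot_int (a : ℂ) (ha : ‖a‖ = 1) (g : ℂ → ℂ) : ∫ ξ : ℂ, g (a * ξ) = ∫ ξ : ℂ, g ξ := by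
  have hmem : a ∈ Submonoid.unitSphere ℂ := mem_sphere_zero_iff_norm.2 ha
  let e : ℂ ≃ₗᵢ[ℝ] ℂ := rotation ⟨a, hmem⟩
  have he : ∀ z, e z = a * z := fun z => rfl
  have h1 : MeasurePreserving e (volume : Measure ℂ) volume := e.measurePreserving
  have h2 := h1.integral_comp e.toHomeomorph.measurableEmbedding g
  simpa only [he] using h2

lemma sm_rot (a : ℂ) (ha : ‖a‖ = 1) (z ξ : ℂ) : sm (a * z) (a * ξ) = sm z ξ := by
  have h1 : a.re ^ 2 + a.im ^ 2 = 1 := by
    have := Complex.normSq_eq_norm_sq a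
    rw [ha, Complex.normSq_apply] at this
    nlinarith
  unfold sm
  simp only [Complex.mul_re, Complex.mul_im]
  linear_combination (z.re * ξ.re + z.im * ξ.im) * h1

lemma Ft_rot (k : ℤ) (f : 𝓢(ℂ, ℂ)) (hf : ∀ a z : ℂ, ‖a‖ = 1 → f (a * z) = a ^ k * f z)
    (a : ℂ) (ha : ‖a‖ = 1) (ξ : ℂ) : Ft f (a * ξ) = a ^ k * Ft f ξ := by
  unfold Ft
  rw [← rot_int a ha, ← integral_const_mul]
  refine integral_congr_ae (Eventually.of_forall fun x => ?_)
  simp only
  rw [sm_rot a ha, hf a x ha]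
  ring

/-- rotation covariance -/
lemma T_rot (n : ℕ) (k : ℤ) (f : 𝓢(ℂ, ℂ)) (hf : ∀ a z : ℂ, ‖a‖ = 1 → f (a * z) = a ^ k * f z)
    (a : ℂ) (ha : ‖a‖ = 1) (z : ℂ) : a ^ (2 * n) * Tn n f (a * z) = a ^ k * Tn n f z := by
  rw [Tn_eq]
  unfold T
  rw [← rot_int a ha, ← integral_const_mul, ← integral_const_mul]
  refine integral_congr_ae (Eventually.of_forall fun ξ => ?_)
  simp only
  rw [sm_rot a ha, Ft_rot k f hf a ha]
  have ha0 : a ≠ 0 := by
    intro h
    rw [h, norm_zero] at ha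
    norm_num at ha
  have h1 : a ^ (2 * n) * bs (a * ξ) ^ n = bs ξ ^ n := by
    rw [pow_mul, ← mul_pow]
    congr 1
    unfold bs
    rcases eq_or_ne ξ 0 with rfl | hξ
    · simp
    · rw [map_mul]
      have h2 : a * (starRingEnd ℂ) a = 1 := by
        rw [Complex.mul_conj, Complex.normSq_eq_norm_sq, ha]
        norm_num
      field_simp
      linear_combination ((starRingEnd ℂ) ξ) * h2
  calc a ^ (2 * n) * (Complex.exp (2 * (Real.pi : ℂ) * Complex.I * ((sm z ξ : ℝ) : ℂ)) *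
        (bs (a * ξ) ^ n * (a ^ k * Ft f ξ)))
      = Complex.exp (2 * (Real.pi : ℂ) * Complex.I * ((sm z ξ : ℝ) : ℂ)) *
        ((a ^ (2 * n) * bs (a * ξ) ^ n) * (a ^ k * Ft f ξ)) := by ring
    _ = _ := by rw [h1]; ring

lemma Ft_neg (g : 𝓢(ℂ, ℂ)) (ξ : ℂ) :
    ∫ z : ℂ, Complex.exp (2 * (Real.pi : ℂ) * Complex.I * ((sm z ξ : ℝ) : ℂ)) * g z = Ft g (-ξ) := by
  unfold Ft
  refine integral_congr_ae (Eventually.of_forall fun z => ?_)
  simp only
  congr 2
  have : sm z (-ξ) = - sm z ξ := by unfold sm; simp; ring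
  rw [this]
  push_cast
  ring

lemma pair_aux (n : ℕ) (f g : 𝓢(ℂ, ℂ)) :
    ∫ z : ℂ, Tn n f z * g z = ∫ ξ : ℂ, bs ξ ^ n * Ft f ξ * Ft g (-ξ) := by
  have hbm : Measurable fun ξ : ℂ => bs ξ ^ n := (adm_sy n).meas
  have hi : Integrable (fun a : ℂ × ℂ => Complex.exp (2 * (Real.pi : ℂ) * Complex.I * ((sm a.1 a.2 : ℝ) : ℂ)) *
      (bs a.2 ^ n * Ft f a.2) * g a.1) (volume.prod volume) := by
    have h1 : Integrable (fun a : ℂ × ℂ => ‖g a.1‖ * ‖Ft f a.2‖) (volume.prod volume) :=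
      g.integrable.norm.mul_prod (Ft_int f).norm
    refine h1.mono' ?_ (Eventually.of_forall fun a => ?_)
    · refine (AEStronglyMeasurable.mul ?_ (AEStronglyMeasurable.mul ?_ ?_)).mul ?_
      · apply Measurable.aestronglyMeasurable
        unfold sm
        fun_prop
      · exact (hbm.comp measurable_snd).aestronglyMeasurable
      · exact (Ft_int f).aestronglyMeasurable.comp_snd
      · exact g.continuous.aestronglyMeasurable.comp_fst
    · rw [norm_mul, norm_mul, norm_mul, norm_ex, one_mul]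
      have h2 := (adm_sy n).le1 a.2
      calc ‖bs a.2 ^ n‖ * ‖Ft f a.2‖ * ‖g a.1‖ ≤ 1 * ‖Ft f a.2‖ * ‖g a.1‖ := by gcongr
        _ = _ := by ring
  have h1 : ∫ z : ℂ, Tn n f z * g z = ∫ z : ℂ, ∫ ξ : ℂ,
      Complex.exp (2 * (Real.pi : ℂ) * Complex.I * ((sm z ξ : ℝ) : ℂ)) * (bs ξ ^ n * Ft f ξ) * g z := by
    refine integral_congr_ae (Eventually.of_forall fun z => ?_)
    simp only
    rw [Tn_eq]
    unfold T
    rw [integral_mul_const]
  rw [h1, integral_integral_swap hi]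
  refine integral_congr_ae (Eventually.of_forall fun ξ => ?_)
  simp only
  rw [← Ft_neg g ξ, ← integral_const_mul]
  refine integral_congr_ae (Eventually.of_forall fun z => ?_)
  simp only
  ring

/-- **the pairing** -/
lemma pair_symm (n : ℕ) (f g : 𝓢(ℂ, ℂ)) :
    ∫ z : ℂ, Tn n f z * g z = ∫ z : ℂ, f z * Tn n g z := by
  have h1 : ∫ z : ℂ, f z * Tn n g z = ∫ z : ℂ, Tn n g z * f z := by
    refine integral_congr_ae (Eventually.of_forall fun z => ?_)
    simp only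
    ring
  rw [h1, pair_aux, pair_aux, ← integral_neg_eq_self]
  refine integral_congr_ae (Eventually.of_forall fun ξ => ?_)
  simp only [neg_neg]
  have : bs (-ξ) = bs ξ := by
    unfold bs
    rw [map_neg, neg_div_neg_eq]
  rw [this]
  ring

end Pool.Agent.X91.BW
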