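import Pool.Agent.X91.BW.Low1

/-! Exact form of the kernel formula and polar coordinates -/

set_option autoImplicit false

open MeasureTheory Set Filter Topology
open scoped FourierTransform SchwartzMap ContDiff ENNReal

namespace Pool.Agent.X91.BW

open Pool.Agent.Y282.RB (Tn)
open Pool.Agent.Y282.RB.A2 (db dd Tn_db db_iter dd_iter real_iter HH HH_smooth)

theorem plane_exact (n m : ℕ) {F : ℝ → ℂ} (hF : Good F) : ∃ f : 𝓢(ℂ, ℂ),
    (∀ z, f z = (z / (‖z‖ : ℂ)) ^ (n + m) * F (Complex.normSq z)) ∧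
    (∀ z, z ≠ 0 → (z / (‖z‖ : ℂ)) ^ n * Tn n f z =
      (z / (‖z‖ : ℂ)) ^ m * Sop (ww n m) (fun s => 1 + s) F (Complex.normSq z)) := by
  have hF' := hF
  obtain ⟨hs, r, R, hr, h1, h2⟩ := hF
  have hgs := gg_smooth (n + m) hF'
  obtain ⟨R', hR'0, hR'⟩ : ∃ R' : ℝ, 0 < R' ∧ ∀ x, R' ≤ x → F x = 0 :=
    ⟨max R 1, lt_of_lt_of_le one_pos (le_max_right _ _), fun x hx => h2 x ((le_max_left _ _).trans hx)⟩
  obtain ⟨h, hh1, hh2, hh3⟩ := Pool.Agent.Y282.RB.A1.key n R' (gg (n + m) F) hgs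
    (fun x hx => gg_zero _ hR' x hx)
  have hv : ∀ j x, R' + 1 ≤ x → iteratedDeriv j h x = 0 := fun j x hx =>
    Pool.Agent.Y282.RB.A.iter_zero hh2 j x hx
  have hus : ContDiff ℝ ∞ (fun z : ℂ => z ^ m * h (Complex.normSq z)) :=
    (contDiff_id.pow m).mul (hh1.comp normSq_smooth)
  have huc : HasCompactSupport (fun z : ℂ => z ^ m * h (Complex.normSq z)) := by
    refine HasCompactSupport.intro (isCompact_closedBall (0 : ℂ) (R' + 1)) fun w hw => ?_
    rw [Metric.mem_closedBall, dist_zero_right, not_le] at hw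
    have h1 : R' ≤ Complex.normSq w := by
      rw [Complex.normSq_eq_norm_sq]
      nlinarith
    rw [hh2 _ h1, mul_zero]
  set u : 𝓢(ℂ, ℂ) := huc.toSchwartzMap hus with hudef
  have hu : ∀ z, u z = z ^ m * h (Complex.normSq z) := fun z => rfl
  refine ⟨db^[n] u, fun z => ?_, fun z hz => ?_⟩
  · rw [db_iter hh1 hu n z, hh3, add_comm m n]
    unfold gg
    have e1 : √(Complex.normSq z) = ‖z‖ := rfl
    rw [e1, div_pow]
    ring
  · have hz0 : 0 < ‖z‖ := norm_pos_iff.2 hz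
    set x := Complex.normSq z with hx
    have hx0 : 0 < x := Complex.normSq_pos.2 hz
    have hxn : x = ‖z‖ ^ 2 := Complex.normSq_eq_norm_sq z
    have hsx : √x = ‖z‖ := rfl
    rw [Tn_db]
    obtain ⟨e, he⟩ : ∃ e : ℂ, e = z / (‖z‖ : ℂ) := ⟨_, rfl⟩
    have hr0 : ((‖z‖ : ℝ) : ℂ) ≠ 0 := Complex.ofReal_ne_zero.2 hz0.ne'
    have hze : z = (‖z‖ : ℂ) * e := by
      rw [he]
      field_simp
    have hen : e * (starRingEnd ℂ) e = 1 := by
      rw [Complex.mul_conj, Complex.normSq_eq_norm_sq, he, norm_div, Complex.norm_real, norm_norm,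
        div_self hz0.ne']
      norm_num
    have hek := ker_formula hh1 (by linarith : 0 < R' + 1) hv n m x hx0
    rw [Sop_formula n m F x hx0, hsx]
    rw [hh3] at hek
    rw [← he]
    generalize (gg (n + m) F x + ∫ s in Ioi (0 : ℝ), (((rp n m).eval s : ℝ) : ℂ) *
      gg (n + m) F (x * (1 + s))) = Q at hek ⊢
    have hxc : (x : ℂ) = ((‖z‖ : ℝ) : ℂ) ^ 2 := by rw [hxn]; push_cast; ring
    rcases le_or_gt n m with hnm | hnm
    · have h5 := dd_iter hh1 hu n hnm z
      rw [real_iter hh1 n hnm x] at hek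
      obtain ⟨j, rfl⟩ : ∃ j, m = n + j := ⟨m - n, by omega⟩
      have e1 : n + j - n = j := by omega
      rw [e1] at h5 hek
      have hQ : HH (n + j) h n x = ((‖z‖ : ℝ) : ℂ) ^ (2 * n) * Q := by
        rw [hxc] at hek
        have h6 : (((‖z‖ : ℝ) : ℂ) ^ 2) ^ j ≠ 0 := by positivity
        apply mul_left_cancel₀ h6
        rw [hek]
        ring
      rw [h5, ← hx, hQ]
      nth_rewrite 1 [hze]
      ring
    · obtain ⟨j, rfl⟩ : ∃ j, n = m + j := ⟨n - m, by omega⟩
      have hφs : ContDiff ℝ (⊤ : ℕ∞) (iteratedDeriv m (fun t : ℝ => (t : ℂ) ^ m * h t)) :=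
        id_smooth ((Complex.ofRealCLM.contDiff.pow m).mul hh1) m
      have hum : ∀ z, dd^[m] u z = iteratedDeriv m (fun t : ℝ => (t : ℂ) ^ m * h t) (Complex.normSq z) := by
        intro z
        rw [dd_iter hh1 hu m le_rfl z, real_iter hh1 m le_rfl, Nat.sub_self, pow_zero, pow_zero]
      have h5 := dd_conj_iter hφs hum j z
      rw [← Function.iterate_add_apply, add_comm j m] at h5
      have h6 : iteratedDeriv j (iteratedDeriv m (fun t : ℝ => (t : ℂ) ^ m * h t)) =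
          iteratedDeriv (m + j) (fun t : ℝ => (t : ℂ) ^ m * h t) := by
        rw [add_comm m j, iteratedDeriv_eq_iterate, iteratedDeriv_eq_iterate, iteratedDeriv_eq_iterate,
          Function.iterate_add_apply]
      rw [h6, ← hx, hek] at h5
      rw [h5, hxc]
      have h7 : (starRingEnd ℂ) z = ((‖z‖ : ℝ) : ℂ) * (starRingEnd ℂ) e := by
        nth_rewrite 1 [hze]
        rw [map_mul, Complex.conj_ofReal]
      rw [h7]
      have h8 : e ^ j * ((starRingEnd ℂ) e) ^ j = 1 := by rw [← mul_pow, hen, one_pow]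
      calc e ^ (m + j) * ((((‖z‖ : ℝ) : ℂ) * (starRingEnd ℂ) e) ^ j * ((((‖z‖ : ℝ) : ℂ) ^ 2) ^ m * Q))
          = (e ^ j * ((starRingEnd ℂ) e) ^ j) * (e ^ m * (((‖z‖ : ℝ) : ℂ) ^ (m + j + m) * Q)) := by ring
        _ = _ := by rw [h8, one_mul]

/-- polar coordinates for radial functions -/
theorem int_radial (φ : ℝ → ℂ) :
    ∫ z : ℂ, φ (Complex.normSq z) = (Real.pi : ℂ) * ∫ x in Ioi (0 : ℝ), φ x := by
  rw [← Complex.integral_comp_polarCoord_symm]
  have h1 : ∀ q : ℝ × ℝ, q.1 • φ (Complex.normSq (Complex.polarCoord.symm q)) =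
      ((q.1 : ℂ) * φ (q.1 ^ 2)) * 1 := by
    intro q
    have : Complex.normSq (Complex.polarCoord.symm q) = q.1 ^ 2 := by
      rw [Complex.normSq_eq_norm_sq, Complex.norm_polarCoord_symm, sq_abs]
    rw [this, Complex.real_smul, mul_one]
  simp_rw [h1]
  rw [polarCoord_target, Measure.volume_eq_prod,
    setIntegral_prod_mul (fun r : ℝ => (r : ℂ) * φ (r ^ 2)) (fun _ : ℝ => (1 : ℂ))]
  have h2 : ∫ _y in Ioo (-Real.pi) Real.pi, (1 : ℂ) = 2 * Real.pi := by
    rw [setIntegral_const, Measure.real, Real.volume_Ioo, ENNReal.toReal_ofReal (by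
      have := Real.pi_pos
      linarith), Complex.real_smul]
    push_cast
    ring
  rw [h2]
  have h3 := integral_comp_rpow_Ioi_of_pos (g := φ) (p := 2) (by norm_num)
  have h4 : ∫ x in Ioi (0 : ℝ), (2 * x ^ ((2 : ℝ) - 1)) • φ (x ^ (2 : ℝ))
      = 2 * ∫ x in Ioi (0 : ℝ), (x : ℂ) * φ (x ^ 2) := by
    rw [← integral_const_mul]
    refine setIntegral_congr_fun measurableSet_Ioi (fun x _ => ?_)
    have e : (2 : ℝ) - 1 = 1 := by norm_num
    simp only [e, Real.rpow_one, Real.rpow_two, Complex.real_smul]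
    push_cast
    ring
  rw [h4] at h3
  rw [← h3]
  ring

end Pool.Agent.X91.BW
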