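import Pool.Agent.X91.BW.Low2

/-! The transposed operator -/

set_option autoImplicit false

open MeasureTheory Set Filter Topology
open scoped FourierTransform SchwartzMap ContDiff ENNReal

namespace Pool.Agent.X91.BW

open Pool.Agent.Y282.RB (Tn)
open Pool.Agent.Y282.RB.K (Tn_eq adm_sy)

/-- the transposed kernel -/
noncomputable def wd (n m : ℕ) (s : ℝ) : ℝ := ww n m s * (1 + |s|)⁻¹

lemma wd_cont (n m : ℕ) : Continuous (wd n m) :=
  (ww_cont n m).mul ((continuous_const.add continuous_abs).inv₀ (fun s => by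
    have : (0 : ℝ) < 1 + |s| := by positivity
    exact this.ne'))

/-- the transposed operator -/
noncomputable def Sd (n m : ℕ) : (ℝ → ℂ) → ℝ → ℂ := Sop (wd n m) (fun s => (1 + |s|)⁻¹)

lemma Good.int {F : ℝ → ℂ} (h : Good F) : Integrable F := by
  obtain ⟨hF, r, R, hr, h1, h2⟩ := h
  have hc : HasCompactSupport F := by
    refine HasCompactSupport.intro (isCompact_Icc (a := r) (b := R)) fun x hx => ?_
    rw [mem_Icc, not_and_or, not_le, not_le] at hx
    rcases hx with h3 | h3
    · exact h1 x h3.le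
    · exact h2 x h3.le
  exact hF.continuous.integrable_of_hasCompactSupport hc

theorem transp (n m : ℕ) {F G : ℝ → ℂ} (hF : Good F) (hG : Good G) :
    ∫ x in Ioi (0 : ℝ), G x * Sop (ww n m) (fun s => 1 + s) F x =
      ∫ y in Ioi (0 : ℝ), Sd n m G y * F y := by
  obtain ⟨R, hR0, hR⟩ := hF.pos
  obtain ⟨M, hM0, hM⟩ := hF.bdd
  have hFi := hF.int
  have hGi := hG.int
  have hFc := hF.1.continuous
  have hGc := hG.1.continuous
  obtain ⟨hGs, r, R', hr, hGr, hGR⟩ := hG
  set L : ℝ := R / r with hL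
  have hL0 : 0 < L := by positivity
  set ν : Measure ℝ := volume.restrict (Ioc 0 L) with hν
  have hwi : Integrable (fun s => (ww n m s : ℂ)) ν := by
    have h1 : IntegrableOn (fun s => (ww n m s : ℂ)) (Icc 0 L) :=
      (Complex.continuous_ofReal.comp (ww_cont n m)).integrableOn_Icc
    exact h1.mono_set Ioc_subset_Icc_self
  have hA : ∀ x ∈ Ioi (0 : ℝ), G x * Sop (ww n m) (fun s => 1 + s) F x =
      G x * F x + ∫ s, (ww n m s : ℂ) * (F (x * (1 + s)) * G x) ∂ν := by
    intro x hx
    have hx0 : 0 < x := hx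
    unfold Sop
    rw [mul_add, ← integral_const_mul]
    congr 1
    have h2 : ∫ s in Ioi (0 : ℝ), G x * ((ww n m s : ℂ) * F (x * (1 + s))) =
        ∫ s in Ioc 0 L, G x * ((ww n m s : ℂ) * F (x * (1 + s))) := by
      refine setIntegral_eq_of_subset_of_forall_sdiff_eq_zero measurableSet_Ioi
        Ioc_subset_Ioi_self (fun s hs => ?_)
      have hs0 : 0 < s := hs.1
      have h3 : L < s := by
        by_contra hcon
        push Not at hcon
        exact hs.2 ⟨hs.1, hcon⟩
      rcases le_or_gt x r with h4 | h4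
      · rw [hGr x h4, zero_mul]
      · have h5 : R ≤ x * (1 + s) := by
          rw [hL, div_lt_iff₀ hr] at h3
          nlinarith
        rw [hR _ h5, mul_zero, mul_zero]
    rw [h2]
    refine integral_congr_ae (Eventually.of_forall fun s => ?_)
    simp only
    ring
  have hB : ∀ y ∈ Ioi (0 : ℝ), Sd n m G y * F y =
      G y * F y + ∫ s, (wd n m s : ℂ) * (F y * G (y * (1 + |s|)⁻¹)) ∂ν := by
    intro y hy
    have hy0 : 0 < y := hy
    unfold Sd Sop
    rw [add_mul, ← integral_mul_const]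
    congr 1
    have h2 : ∫ s in Ioi (0 : ℝ), (wd n m s : ℂ) * G (y * (1 + |s|)⁻¹) * F y =
        ∫ s in Ioc 0 L, (wd n m s : ℂ) * G (y * (1 + |s|)⁻¹) * F y := by
      refine setIntegral_eq_of_subset_of_forall_sdiff_eq_zero measurableSet_Ioi
        Ioc_subset_Ioi_self (fun s hs => ?_)
      have hs0 : 0 < s := hs.1
      have h3 : L < s := by
        by_contra hcon
        push Not at hcon
        exact hs.2 ⟨hs.1, hcon⟩
      rcases le_or_gt R y with h4 | h4
      · rw [hR y h4, mul_zero]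
      · have h5 : y * (1 + |s|)⁻¹ ≤ r := by
          rw [abs_of_pos hs0, ← div_eq_mul_inv, div_le_iff₀ (by linarith)]
          rw [hL, div_lt_iff₀ hr] at h3
          nlinarith
        rw [hGr _ h5, mul_zero, zero_mul]
    rw [h2]
    refine integral_congr_ae (Eventually.of_forall fun s => ?_)
    simp only
    ring
  have hGFi : Integrable (fun x => G x * F x) (volume.restrict (Ioi (0 : ℝ))) := by
    refine (hGi.norm.mul_const M).integrableOn.mono' (hGc.mul hFc).aestronglyMeasurable
      (Eventually.of_forall fun x => ?_)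
    rw [norm_mul]
    gcongr
    exact hM x
  -- integrability on the products
  have hi1 : Integrable (fun a : ℝ × ℝ => (ww n m a.2 : ℂ) * (F (a.1 * (1 + a.2)) * G a.1))
      ((volume.restrict (Ioi (0 : ℝ))).prod ν) := by
    have h1 : Integrable (fun a : ℝ × ℝ => (‖G a.1‖ * M) * ‖(ww n m a.2 : ℂ)‖)
        ((volume.restrict (Ioi (0 : ℝ))).prod ν) :=
      (hGi.norm.mul_const M).integrableOn.mul_prod hwi.norm
    refine h1.mono' ?_ (Eventually.of_forall fun a => ?_)
    · refine Continuous.aestronglyMeasurable ?_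
      have := ww_cont n m
      fun_prop
    · rw [norm_mul, norm_mul]
      calc ‖(ww n m a.2 : ℂ)‖ * (‖F (a.1 * (1 + a.2))‖ * ‖G a.1‖)
          ≤ ‖(ww n m a.2 : ℂ)‖ * (M * ‖G a.1‖) := by gcongr; exact hM _
        _ = _ := by ring
  obtain ⟨M', hM'0, hM'⟩ : ∃ M', 0 ≤ M' ∧ ∀ x, ‖G x‖ ≤ M' := Good.bdd ⟨hGs, r, R', hr, hGr, hGR⟩
  have hwdi : Integrable (fun s => (wd n m s : ℂ)) ν := by
    have h1 : IntegrableOn (fun s => (wd n m s : ℂ)) (Icc 0 L) :=
      (Complex.continuous_ofReal.comp (wd_cont n m)).integrableOn_Icc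
    exact h1.mono_set Ioc_subset_Icc_self
  have hi2 : Integrable (fun a : ℝ × ℝ => (wd n m a.2 : ℂ) * (F a.1 * G (a.1 * (1 + |a.2|)⁻¹)))
      ((volume.restrict (Ioi (0 : ℝ))).prod ν) := by
    have h1 : Integrable (fun a : ℝ × ℝ => (‖F a.1‖ * M') * ‖(wd n m a.2 : ℂ)‖)
        ((volume.restrict (Ioi (0 : ℝ))).prod ν) :=
      (hFi.norm.mul_const M').integrableOn.mul_prod hwdi.norm
    refine h1.mono' ?_ (Eventually.of_forall fun a => ?_)
    · refine Continuous.aestronglyMeasurable ?_
      have h2 := wd_cont n m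
      have h3 : Continuous fun a : ℝ × ℝ => (1 + |a.2|)⁻¹ :=
        (continuous_const.add (continuous_abs.comp continuous_snd)).inv₀ (fun s => by
          have : (0 : ℝ) < 1 + |s.2| := by positivity
          exact this.ne')
      fun_prop
    · rw [norm_mul, norm_mul]
      calc ‖(wd n m a.2 : ℂ)‖ * (‖F a.1‖ * ‖G (a.1 * (1 + |a.2|)⁻¹)‖)
          ≤ ‖(wd n m a.2 : ℂ)‖ * (‖F a.1‖ * M') := by gcongr; exact hM' _
        _ = _ := by ring
  rw [setIntegral_congr_fun measurableSet_Ioi hA, setIntegral_congr_fun measurableSet_Ioi hB,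
    integral_add hGFi hi1.integral_prod_left, integral_add hGFi hi2.integral_prod_left]
  congr 1
  refine (integral_integral_swap hi1).trans (Eq.trans ?_ (integral_integral_swap hi2).symm)
  refine setIntegral_congr_fun measurableSet_Ioc (fun s hs => ?_)
  simp only
  have hs0 : 0 < s := hs.1
  have h1s : 0 < 1 + s := by linarith
  rw [integral_const_mul, integral_const_mul]
  have h3 := integral_comp_mul_right_Ioi (fun y => F y * G (y * (1 + |s|)⁻¹)) 0 h1s
  rw [zero_mul] at h3
  have h4 : ∫ x in Ioi (0 : ℝ), F (x * (1 + s)) * G (x * (1 + s) * (1 + |s|)⁻¹) =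
      ∫ x in Ioi (0 : ℝ), F (x * (1 + s)) * G x := by
    refine integral_congr_ae (Eventually.of_forall fun x => ?_)
    simp only
    rw [abs_of_pos hs0, mul_assoc, mul_inv_cancel₀ h1s.ne', mul_one]
  rw [← h4, h3, Complex.real_smul]
  unfold wd
  rw [abs_of_pos hs0]
  push_cast
  ring

end Pool.Agent.X91.BW
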