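import Pool.Agent.X91.BW.Low3

/-! Identification of the powers of the Beurling transform on the lower modes -/

set_option autoImplicit false

open MeasureTheory Set Filter Topology
open scoped FourierTransform SchwartzMap ContDiff ENNReal

namespace Pool.Agent.X91.BW

open Pool.Agent.Y282.RB (Tn)
open Pool.Agent.Y282.RB.K (Tn_eq adm_sy)

/-- the functions of one mode -/
lemma exists_mode (k : ℤ) {G : ℝ → ℂ} (hG : Good G) : ∃ g : 𝓢(ℂ, ℂ),
    ∀ z, g z = (z / (‖z‖ : ℂ)) ^ k * G (Complex.normSq z) := by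
  have hgg : ∀ j : ℕ, HasCompactSupport (fun z : ℂ => gg j G (Complex.normSq z)) := by
    intro j
    obtain ⟨R, hR0, hR⟩ := hG.pos
    refine HasCompactSupport.intro (isCompact_closedBall (0 : ℂ) (R + 1)) fun w hw => ?_
    rw [Metric.mem_closedBall, dist_zero_right, not_le] at hw
    refine gg_zero j hR _ ?_
    rw [Complex.normSq_eq_norm_sq]
    nlinarith
  have hgs : ∀ j : ℕ, ContDiff ℝ ∞ (fun z : ℂ => gg j G (Complex.normSq z)) := fun j =>
    (gg_smooth j hG).comp normSq_smooth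
  have hval : ∀ z : ℂ, √(Complex.normSq z) = ‖z‖ := fun z => rfl
  rcases Int.eq_nat_or_neg k with ⟨j, rfl | rfl⟩
  · have h1 : ContDiff ℝ ∞ (fun z : ℂ => z ^ j * gg j G (Complex.normSq z)) :=
      (contDiff_id.pow j).mul (hgs j)
    have h2 : HasCompactSupport (fun z : ℂ => z ^ j * gg j G (Complex.normSq z)) := (hgg j).mul_left
    refine ⟨h2.toSchwartzMap h1, fun z => ?_⟩
    show z ^ j * gg j G (Complex.normSq z) = _
    unfold gg
    rw [hval, zpow_natCast, div_pow]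
    ring
  · have h1 : ContDiff ℝ ∞ (fun z : ℂ => (starRingEnd ℂ) z ^ j * gg j G (Complex.normSq z)) :=
      (Complex.conjCLE.contDiff.pow j).mul (hgs j)
    have h2 : HasCompactSupport (fun z : ℂ => (starRingEnd ℂ) z ^ j * gg j G (Complex.normSq z)) :=
      (hgg j).mul_left
    refine ⟨h2.toSchwartzMap h1, fun z => ?_⟩
    show (starRingEnd ℂ) z ^ j * gg j G (Complex.normSq z) = _
    unfold gg
    rw [hval]
    rcases eq_or_ne z 0 with rfl | hz
    · obtain ⟨_, r, R, hr, h3, h4⟩ := hG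
      rw [map_zero, map_zero, h3 0 hr.le]
      simp
    · have hz0 : ((‖z‖ : ℝ) : ℂ) ≠ 0 := Complex.ofReal_ne_zero.2 (norm_ne_zero_iff.2 hz)
      have h5 : (starRingEnd ℂ) z = ((‖z‖ : ℝ) : ℂ) * (z / ((‖z‖ : ℝ) : ℂ))⁻¹ := by
        rw [inv_div]
        have h6 : z * (starRingEnd ℂ) z = ((‖z‖ : ℝ) : ℂ) ^ 2 := Complex.mul_conj' z
        field_simp
        linear_combination h6
      have he0 : z / ((‖z‖ : ℝ) : ℂ) ≠ 0 := div_ne_zero hz hz0
      rw [h5, zpow_neg, zpow_natCast]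
      generalize z / ((‖z‖ : ℝ) : ℂ) = e at he0
      rw [mul_pow, inv_pow]
      field_simp

lemma mode_rot {k : ℤ} {G : ℝ → ℂ} {g : 𝓢(ℂ, ℂ)}
    (hg : ∀ z, g z = (z / (‖z‖ : ℂ)) ^ k * G (Complex.normSq z)) (a z : ℂ) (ha : ‖a‖ = 1) :
    g (a * z) = a ^ k * g z := by
  rw [hg, hg, norm_mul, ha, one_mul, map_mul, Complex.normSq_eq_norm_sq a, ha, mul_div_assoc, mul_zpow]
  norm_num
  ring

/-- the profile of the transform -/
lemma profile (n m : ℕ) {G : ℝ → ℂ} {g : 𝓢(ℂ, ℂ)}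
    (hg : ∀ z, g z = (z / (‖z‖ : ℂ)) ^ ((n : ℤ) - m) * G (Complex.normSq z)) (z : ℂ) (hz : z ≠ 0) :
    (z / (‖z‖ : ℂ)) ^ (n + m) * Tn n g z = Tn n g ((√(Complex.normSq z) : ℝ) : ℂ) := by
  have hz0 : ((‖z‖ : ℝ) : ℂ) ≠ 0 := Complex.ofReal_ne_zero.2 (norm_ne_zero_iff.2 hz)
  have he : ‖z / (‖z‖ : ℂ)‖ = 1 := by
    rw [norm_div, Complex.norm_real, norm_norm, div_self (norm_ne_zero_iff.2 hz)]
  have h1 := T_rot n ((n : ℤ) - m) g (fun a z ha => mode_rot hg a z ha) (z / (‖z‖ : ℂ)) he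
    ((‖z‖ : ℝ) : ℂ)
  rw [div_mul_cancel₀ _ hz0] at h1
  have h2 : √(Complex.normSq z) = ‖z‖ := rfl
  rw [h2]
  generalize z / ((‖z‖ : ℝ) : ℂ) = e at he h1
  have he0 : e ≠ 0 := by
    intro h
    rw [h, norm_zero] at he
    norm_num at he
  rw [zpow_sub₀ he0, zpow_natCast, zpow_natCast] at h1
  have hen : e ^ n ≠ 0 := pow_ne_zero _ he0
  have hem : e ^ m ≠ 0 := pow_ne_zero _ he0
  apply mul_left_cancel₀ hen
  have h3 : e ^ n * (e ^ (n + m) * Tn n g z) = e ^ m * (e ^ (2 * n) * Tn n g z) := by ring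
  rw [h3, h1]
  field_simp

/-- the weak form -/
lemma weak (n m : ℕ) {F G : ℝ → ℂ} (hF : Good F) (hG : Good G) {g : 𝓢(ℂ, ℂ)}
    (hg : ∀ z, g z = (z / (‖z‖ : ℂ)) ^ ((n : ℤ) - m) * G (Complex.normSq z)) :
    ∫ x in Ioi (0 : ℝ), Tn n g ((√x : ℝ) : ℂ) * F x = ∫ y in Ioi (0 : ℝ), Sd n m G y * F y := by
  rw [← transp n m hF hG]
  obtain ⟨f, hf1, hf2⟩ := plane_exact n m hF
  have h1 := pair_symm n g f
  have h0 : ∀ᵐ z : ℂ, z ≠ 0 := by
    rw [ae_iff]
    simp
  have e1 : ∫ z : ℂ, Tn n g z * f z = ∫ z : ℂ, (fun x : ℝ => Tn n g ((√x : ℝ) : ℂ) * F x) (Complex.normSq z) := by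
    refine integral_congr_ae ?_
    filter_upwards [h0] with z hz
    rw [hf1, ← profile n m hg z hz]
    ring
  have e2 : ∫ z : ℂ, g z * Tn n f z =
      ∫ z : ℂ, (fun x : ℝ => G x * Sop (ww n m) (fun s => 1 + s) F x) (Complex.normSq z) := by
    refine integral_congr_ae ?_
    filter_upwards [h0] with z hz
    have hz0 : ((‖z‖ : ℝ) : ℂ) ≠ 0 := Complex.ofReal_ne_zero.2 (norm_ne_zero_iff.2 hz)
    have he0 : z / (‖z‖ : ℂ) ≠ 0 := div_ne_zero hz hz0
    have h2 := hf2 z hz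
    rw [hg z, zpow_sub₀ he0, zpow_natCast, zpow_natCast]
    have hen : (z / (‖z‖ : ℂ)) ^ n ≠ 0 := pow_ne_zero _ he0
    have hem : (z / (‖z‖ : ℂ)) ^ m ≠ 0 := pow_ne_zero _ he0
    generalize z / (‖z‖ : ℂ) = e at *
    calc e ^ n / e ^ m * G (Complex.normSq z) * Tn n f z
        = G (Complex.normSq z) * (e ^ n * Tn n f z) / e ^ m := by ring
      _ = _ := by
          rw [h2]
          field_simp
  have e3 := int_radial (fun x : ℝ => Tn n g ((√x : ℝ) : ℂ) * F x)
  have e4 := int_radial (fun x : ℝ => G x * Sop (ww n m) (fun s => 1 + s) F x)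
  rw [e1, e2, e3, e4] at h1
  have hpi : (Real.pi : ℂ) ≠ 0 := Complex.ofReal_ne_zero.2 Real.pi_pos.ne'
  exact mul_left_cancel₀ hpi h1

/-- smooth functions with compact support in the open half line -/
lemma good_of {φ : ℝ → ℝ} (h1 : ContDiff ℝ ∞ φ) (h2 : HasCompactSupport φ)
    (h3 : tsupport φ ⊆ Ioi 0) : Good (fun x => (φ x : ℂ)) := by
  have hs : ContDiff ℝ ∞ (fun x => (φ x : ℂ)) := Complex.ofRealCLM.contDiff.comp h1
  have hK : IsCompact (tsupport φ) := h2
  rcases (tsupport φ).eq_empty_or_nonempty with he | hne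
  · have h4 : ∀ x, φ x = 0 := by
      intro x
      by_contra hne
      have : x ∈ tsupport φ := subset_tsupport φ hne
      rw [he] at this
      exact this
    exact ⟨hs, 1, 2, one_pos, fun x _ => by simp [h4 x], fun x _ => by simp [h4 x]⟩
  · obtain ⟨r0, hr0, hr1⟩ := hK.exists_isLeast hne
    obtain ⟨R0, hR0, hR1⟩ := hK.exists_isGreatest hne
    have hr0p : 0 < r0 := h3 hr0
    refine ⟨hs, r0 / 2, R0 + 1, by linarith, fun x hx => ?_, fun x hx => ?_⟩
    · have : φ x = 0 := by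
        by_contra hne
        have := hr1 (subset_tsupport φ hne)
        linarith
      show (φ x : ℂ) = 0
      rw [this, Complex.ofReal_zero]
    · have : φ x = 0 := by
        by_contra hne
        have := hR1 (subset_tsupport φ hne)
        linarith
      show (φ x : ℂ) = 0
      rw [this, Complex.ofReal_zero]

lemma Sd_meas (n m : ℕ) {G : ℝ → ℂ} (hG : Continuous G) : StronglyMeasurable (Sd n m G) :=
  Sop_meas (wd_cont n m).measurable
    ((continuous_const.add continuous_abs).measurable.inv) hG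

/-- **identification** -/
theorem ident (n m : ℕ) (hwd : IntegrableOn (wd n m) (Ioi 0)) {G : ℝ → ℂ} (hG : Good G)
    {g : 𝓢(ℂ, ℂ)} (hg : ∀ z, g z = (z / (‖z‖ : ℂ)) ^ ((n : ℤ) - m) * G (Complex.normSq z)) :
    ∀ᵐ x : ℝ, x ∈ Ioi (0 : ℝ) → Tn n g ((√x : ℝ) : ℂ) = Sd n m G x := by
  obtain ⟨M, hM0, hM⟩ := hG.bdd
  have hVc : Continuous fun x : ℝ => Tn n g ((√x : ℝ) : ℂ) := by
    have h1 : Continuous (Tn n g) := by
      rw [Tn_eq]
      exact Pool.Agent.TH55.PowA.T_cont (adm_sy n) _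
    exact h1.comp (Complex.continuous_ofReal.comp Real.continuous_sqrt)
  have hSm := Sd_meas n m hG.1.continuous
  have hSb : ∀ x, ‖Sd n m G x‖ ≤ (1 + ∫ s in Ioi (0 : ℝ), |wd n m s|) * M :=
    fun x => Sop_le hwd hM x
  have hSl : LocallyIntegrable (Sd n m G) := by
    refine (locallyIntegrable_const ((1 + ∫ s in Ioi (0 : ℝ), |wd n m s|) * M)).mono
      hSm.aestronglyMeasurable (Eventually.of_forall fun x => ?_)
    exact (hSb x).trans (le_abs_self _)
  have hl : LocallyIntegrableOn (fun x => Tn n g ((√x : ℝ) : ℂ) - Sd n m G x) (Ioi (0 : ℝ)) :=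
    (hVc.locallyIntegrable.sub hSl).locallyIntegrableOn _
  have key := IsOpen.ae_eq_zero_of_integral_contDiff_smul_eq_zero (isOpen_Ioi (a := (0 : ℝ))) hl ?_
  · filter_upwards [key] with x hx hx0
    exact sub_eq_zero.1 (hx hx0)
  · intro φ hφ1 hφ2 hφ3
    have hF := good_of hφ1 hφ2 hφ3
    have h1 := weak n m hF hG hg
    have h2 : ∫ x : ℝ, φ x • (Tn n g ((√x : ℝ) : ℂ) - Sd n m G x) =
        ∫ x in Ioi (0 : ℝ), φ x • (Tn n g ((√x : ℝ) : ℂ) - Sd n m G x) := by
      symm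
      refine setIntegral_eq_integral_of_forall_compl_eq_zero (fun x hx => ?_)
      have : φ x = 0 := by
        by_contra hne
        exact hx (hφ3 (subset_tsupport φ hne))
      rw [this, zero_smul]
    rw [h2]
    have hFi : Integrable (fun x => (φ x : ℂ)) := hF.int
    have i1 : IntegrableOn (fun x => Tn n g ((√x : ℝ) : ℂ) * (φ x : ℂ)) (Ioi 0) := by
      have hc : HasCompactSupport (fun x => Tn n g ((√x : ℝ) : ℂ) * (φ x : ℂ)) :=
        (hφ2.comp_left (g := fun y : ℝ => (y : ℂ)) (by simp)).mul_left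
      exact ((hVc.mul hF.1.continuous).integrable_of_hasCompactSupport hc).integrableOn
    have i2 : IntegrableOn (fun x => Sd n m G x * (φ x : ℂ)) (Ioi 0) := by
      refine ((hFi.norm.const_mul ((1 + ∫ s in Ioi (0 : ℝ), |wd n m s|) * M)).mono'
        (hSm.aestronglyMeasurable.mul hFi.aestronglyMeasurable)
        (Eventually.of_forall fun x => ?_)).integrableOn
      show ‖Sd n m G x * (φ x : ℂ)‖ ≤ _
      rw [norm_mul]
      gcongr
      exact hSb x
    have h3 : ∫ x in Ioi (0 : ℝ), φ x • (Tn n g ((√x : ℝ) : ℂ) - Sd n m G x) =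
        ∫ x in Ioi (0 : ℝ), (Tn n g ((√x : ℝ) : ℂ) * (φ x : ℂ) - Sd n m G x * (φ x : ℂ)) := by
      refine integral_congr_ae (Eventually.of_forall fun x => ?_)
      simp only [Complex.real_smul]
      ring
    rw [h3, integral_sub i1 i2, h1, sub_self]

end Pool.Agent.X91.BW
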