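import Pool.Agent.X91.BW.Low4

/-! The `L^p` bound on the lower modes -/

set_option autoImplicit false

open MeasureTheory Set Filter Topology
open scoped FourierTransform SchwartzMap ContDiff ENNReal

namespace Pool.Agent.X91.BW

open Pool.Agent.Y282.RB (Tn)
open Pool.Agent.Y282.RB.K (Tn_eq adm_sy)

lemma norm_zmode {k : ℤ} {F : ℝ → ℂ} {f : ℂ → ℂ}
    (hf : ∀ z, f z = (z / (‖z‖ : ℂ)) ^ k * F (Complex.normSq z)) (z : ℂ) (hz : z ≠ 0) :
    ‖f z‖ = ‖F (Complex.normSq z)‖ := by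
  rw [hf, norm_mul, norm_zpow, norm_div, Complex.norm_real, norm_norm,
    div_self (norm_ne_zero_iff.2 hz), one_zpow, one_mul]

lemma norm_prof (n m : ℕ) {G : ℝ → ℂ} {g : 𝓢(ℂ, ℂ)}
    (hg : ∀ z, g z = (z / (‖z‖ : ℂ)) ^ ((n : ℤ) - m) * G (Complex.normSq z)) (z : ℂ) (hz : z ≠ 0) :
    ‖Tn n g z‖ = ‖(fun x : ℝ => Tn n g ((√x : ℝ) : ℂ)) (Complex.normSq z)‖ := by
  have h1 := congrArg norm (profile n m hg z hz)
  rw [norm_mul, norm_pow, norm_div, Complex.norm_real, norm_norm,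
    div_self (norm_ne_zero_iff.2 hz), one_pow, one_mul] at h1
  exact h1

lemma Tn_cont (n : ℕ) (g : 𝓢(ℂ, ℂ)) : Continuous (Tn n g) := by
  rw [Tn_eq]
  exact Pool.Agent.TH55.PowA.T_cont (adm_sy n) _

/-- the isometry -/
lemma dual_two (n m : ℕ) (hwd : IntegrableOn (wd n m) (Ioi 0)) (G : ℝ → ℂ) (hG : Good G) :
    IntegrableOn (fun x => ‖Sd n m G x‖ ^ 2) (Ioi 0) ∧
      ∫ x in Ioi (0 : ℝ), ‖Sd n m G x‖ ^ 2 ≤ ∫ x in Ioi (0 : ℝ), ‖G x‖ ^ 2 := by
  obtain ⟨g, hg⟩ := exists_mode ((n : ℤ) - m) hG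
  have hid := ident n m hwd hG hg
  have e1 := int_plane (f := Tn n g) (φ := fun x : ℝ => Tn n g ((√x : ℝ) : ℂ)) (norm_prof n m hg) 2
  have e2 := int_plane (norm_zmode hg) 2
  simp only [Real.rpow_two] at e1 e2
  have e3 : ∫ z : ℂ, ‖Tn n g z‖ ^ 2 = ∫ z : ℂ, ‖g z‖ ^ 2 := by
    have h1 : ∀ u : ℂ → ℂ, Continuous u → ∫ z : ℂ, ‖u z‖ ^ 2 = (∫⁻ z : ℂ, ‖u z‖ₑ ^ 2).toReal := by
      intro u hu
      have h0 : Continuous fun z : ℂ => ‖u z‖ ^ 2 := hu.norm.pow 2
      rw [integral_eq_lintegral_of_nonneg_ae (f := fun z : ℂ => ‖u z‖ ^ 2)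
        (Eventually.of_forall fun z => by positivity) h0.aestronglyMeasurable]
      congr 1
      refine lintegral_congr fun z => ?_
      rw [ENNReal.ofReal_pow (norm_nonneg _), ofReal_norm]
    have h2 := Pool.Agent.Y338.BP.T_two g n
    have h3 : ∀ z, Pool.Agent.TH55.PowA.T (fun ξ => Pool.Agent.TH55.PowA.bs ξ ^ n) g z = Tn n g z :=
      fun z => rfl
    simp only [h3] at h2
    rw [h1 _ (Tn_cont n g), h1 _ g.continuous, h2]
  rw [e1, e2] at e3
  have e4 := mul_left_cancel₀ Real.pi_pos.ne' e3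
  have e5 : ∫ x in Ioi (0 : ℝ), ‖Tn n g ((√x : ℝ) : ℂ)‖ ^ 2 = ∫ x in Ioi (0 : ℝ), ‖Sd n m G x‖ ^ 2 := by
    refine setIntegral_congr_ae measurableSet_Ioi ?_
    filter_upwards [hid] with x hx hx0
    rw [hx hx0]
  rw [e5] at e4
  refine ⟨?_, e4.le⟩
  by_contra hcon
  have h6 : ∫ x in Ioi (0 : ℝ), ‖Sd n m G x‖ ^ 2 = 0 := integral_undef hcon
  rw [h6] at e4
  have hGc := hG.1.continuous
  have hGi : Integrable (fun x => ‖G x‖ ^ 2) := by
    obtain ⟨M, hM0, hM⟩ := hG.bdd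
    refine (hG.int.norm.const_mul M).mono' (hGc.norm.pow 2).aestronglyMeasurable
      (Eventually.of_forall fun x => ?_)
    rw [Real.norm_of_nonneg (by positivity), sq]
    gcongr
    exact hM x
  obtain ⟨hGs, r, R, hr, hGr, hGR⟩ := hG
  have h7 : ∫ x, ‖G x‖ ^ 2 = 0 := by
    rw [e4]
    symm
    refine setIntegral_eq_integral_of_forall_compl_eq_zero (fun x hx => ?_)
    have : x ≤ 0 := not_lt.1 hx
    rw [hGr x (by linarith)]
    simp
  have h8 : ∀ x, G x = 0 := by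
    have h9 := (integral_eq_zero_iff_of_nonneg (f := fun x => ‖G x‖ ^ 2)
      (fun x => by positivity) hGi).1 h7
    have hc : Continuous fun x => ‖G x‖ ^ 2 := hGc.norm.pow 2
    have h11 := (hc.ae_eq_iff_eq volume (continuous_const (y := (0 : ℝ)))).1 h9
    intro x
    have := congrFun h11 x
    simpa using this
  apply hcon
  have h10 : ∀ x, Sd n m G x = 0 := by
    intro x
    unfold Sd Sop
    simp [h8]
  simp only [h10]
  simp

lemma dual_p (n m : ℕ) (hwd : IntegrableOn (wd n m) (Ioi 0)) {N : ℝ}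
    (hN : 1 + ∫ s in Ioi (0 : ℝ), |wd n m s| ≤ N) {p : ℝ} (hp : 2 ≤ p) {G : ℝ → ℂ} (hG : Good G) :
    ∫ x in Ioi (0 : ℝ), ‖Sd n m G x‖ ^ p ≤ N ^ (p - 2) * ∫ x in Ioi (0 : ℝ), ‖G x‖ ^ p := by
  have h4 : 0 ≤ ∫ s in Ioi (0 : ℝ), |wd n m s| := integral_nonneg fun s => abs_nonneg _
  have hV : 0 ≤ ∫ x in Ioi (0 : ℝ), ‖G x‖ ^ p := integral_nonneg fun x => by positivity
  by_cases hi : IntegrableOn (fun x => ‖Sd n m G x‖ ^ p) (Ioi 0)
  · have hlim := intervalIntegral_tendsto_integral_Ioi (0 : ℝ) hi tendsto_id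
    refine le_of_tendsto hlim ?_
    filter_upwards [eventually_ge_atTop (0 : ℝ)] with T hT
    simp only [id]
    rw [intervalIntegral.integral_of_le hT, integral_Ioc_eq_integral_Ioo]
    have h1 := rt hwd (wd_cont n m).measurable ((continuous_const.add continuous_abs).measurable.inv)
      (dual_two n m hwd) hp hG T
    refine h1.trans (mul_le_mul_of_nonneg_right ?_ hV)
    exact Real.rpow_le_rpow (by linarith) hN (by linarith)
  · rw [integral_undef hi]
    have : 0 ≤ N := by linarith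
    positivity

/-- the bound in the plane, lower modes -/
lemma plane_p_low (n m : ℕ) (hn : 1 ≤ n) (hwd : IntegrableOn (wd n m) (Ioi 0)) {N : ℝ}
    (hN : 1 + ∫ s in Ioi (0 : ℝ), |wd n m s| ≤ N) {p : ℝ} (hp : 2 ≤ p) {G : ℝ → ℂ} (hG : Good G)
    (g : 𝓢(ℂ, ℂ)) (hg : ∀ z, g z = (z / (‖z‖ : ℂ)) ^ ((n : ℤ) - m) * G (Complex.normSq z)) :
    eLpNorm (Tn n g) (ENNReal.ofReal p) volume ≤
      ENNReal.ofReal (N ^ (1 - 2 / p)) * eLpNorm g (ENNReal.ofReal p) volume := by
  have hp0 : 0 < p := by linarith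
  have h4 : 0 ≤ ∫ s in Ioi (0 : ℝ), |wd n m s| := integral_nonneg fun s => abs_nonneg _
  have hN0 : 0 < N := by linarith
  have hP0 : ENNReal.ofReal p ≠ 0 := by
    rw [ne_eq, ENNReal.ofReal_eq_zero, not_le]
    exact hp0
  have e0 : ∀ u : ℂ → ℂ, MemLp u (ENNReal.ofReal p) volume →
      eLpNorm u (ENNReal.ofReal p) volume = ENNReal.ofReal ((∫ z, ‖u z‖ ^ p) ^ (p⁻¹)) := by
    intro u hu
    rw [hu.eLpNorm_eq_integral_rpow_norm hP0 ENNReal.ofReal_ne_top, ENNReal.toReal_ofReal hp0.le]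
  have hgm : MemLp g (ENNReal.ofReal p) volume := g.memLp _ _
  have hTm : MemLp (Tn n g) (ENNReal.ofReal p) volume := by
    refine ⟨(Tn_cont n g).aestronglyMeasurable, ?_⟩
    rw [Tn_eq]
    refine (Pool.Agent.TH55.PowA.main p hp n hn g).trans_lt ?_
    exact ENNReal.mul_lt_top ENNReal.ofReal_lt_top hgm.2
  rw [e0 _ hTm, e0 _ hgm, ← ENNReal.ofReal_mul (by positivity)]
  refine ENNReal.ofReal_le_ofReal ?_
  have e1 := int_plane (f := Tn n g) (φ := fun x : ℝ => Tn n g ((√x : ℝ) : ℂ)) (norm_prof n m hg) p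
  have e2 := int_plane (norm_zmode hg) p
  have e3 : ∫ x in Ioi (0 : ℝ), ‖Tn n g ((√x : ℝ) : ℂ)‖ ^ p = ∫ x in Ioi (0 : ℝ), ‖Sd n m G x‖ ^ p := by
    refine setIntegral_congr_ae measurableSet_Ioi ?_
    filter_upwards [ident n m hwd hG hg] with x hx hx0
    rw [hx hx0]
  rw [e1, e2, e3]
  have h3 := dual_p n m hwd hN hp hG
  have hI : 0 ≤ ∫ x in Ioi (0 : ℝ), ‖G x‖ ^ p := integral_nonneg fun x => by positivity
  have hI2 : 0 ≤ ∫ x in Ioi (0 : ℝ), ‖Sd n m G x‖ ^ p := integral_nonneg fun x => by positivity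
  calc (Real.pi * ∫ x in Ioi (0 : ℝ), ‖Sd n m G x‖ ^ p) ^ (p⁻¹)
      ≤ (N ^ (p - 2) * (Real.pi * ∫ x in Ioi (0 : ℝ), ‖G x‖ ^ p)) ^ (p⁻¹) := by
        refine Real.rpow_le_rpow (by positivity) ?_ (by positivity)
        calc Real.pi * ∫ x in Ioi (0 : ℝ), ‖Sd n m G x‖ ^ p
            ≤ Real.pi * (N ^ (p - 2) * ∫ x in Ioi (0 : ℝ), ‖G x‖ ^ p) :=
              mul_le_mul_of_nonneg_left h3 Real.pi_pos.le
          _ = _ := by ring
    _ = N ^ (1 - 2 / p) * (Real.pi * ∫ x in Ioi (0 : ℝ), ‖G x‖ ^ p) ^ (p⁻¹) := by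
        rw [Real.mul_rpow (by positivity) (by positivity), ← Real.rpow_mul hN0.le]
        congr 2
        field_simp

/-! ### the constant -/

lemma wd_ne (n m : ℕ) (h : n ≠ m) : IntegrableOn (wd n m) (Ioi 0) ∧
    1 + ∫ s in Ioi (0 : ℝ), |wd n m s| ≤ Real.exp (2 * hs n) := by
  obtain ⟨h1, h2⟩ := tv_main n m h
  have hle : ∀ s, |wd n m s| ≤ |ww n m s| := by
    intro s
    unfold wd
    rw [abs_mul, abs_inv, abs_of_pos (by positivity : (0 : ℝ) < 1 + |s|)]
    apply mul_le_of_le_one_right (abs_nonneg _)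
    apply inv_le_one_of_one_le₀
    linarith [abs_nonneg s]
  have hi : IntegrableOn (wd n m) (Ioi 0) :=
    (h1.abs.mono' (wd_cont n m).aestronglyMeasurable (Eventually.of_forall fun s => hle s)).integrableOn
  refine ⟨hi, ?_⟩
  have h3 : ∫ s in Ioi (0 : ℝ), |wd n m s| ≤ ∫ s in Ioi (0 : ℝ), |ww n m s| :=
    integral_mono hi.abs h1.abs.integrableOn hle
  have h4 : Real.exp (2 * hs (min n m)) ≤ Real.exp (2 * hs n) :=
    Real.exp_le_exp.2 (mul_le_mul_of_nonneg_left (hs_mono (min_le_left _ _)) (by norm_num))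
  linarith

/-- the exceptional mode -/
lemma wd_eq (n : ℕ) (hn : 1 ≤ n) : IntegrableOn (wd n n) (Ioi 0) ∧
    1 + ∫ s in Ioi (0 : ℝ), |wd n n s| ≤ Real.exp (2 * hs n) := by
  have hn' : (1 : ℝ) ≤ n := by exact_mod_cast hn
  have hP : (0 : ℝ) < (n : ℝ) * n := by positivity
  -- integrability
  obtain ⟨C, hC0, hC⟩ := rp_bound n n
  have hb : ∀ s, |wd n n s| ≤ C * (1 + ‖s‖) ^ (-(2 : ℝ)) := by
    intro s
    have h1 : (0 : ℝ) < 1 + |s| := by positivity
    have hA0 : 0 ≤ AA n n s := by unfold AA; positivity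
    have hA : AA n n s * (1 + |s|) ^ n = 1 := by
      have h2 := AA_sq n n s
      have h3 : (AA n n s * (1 + |s|) ^ n) ^ 2 = 1 := by
        rw [mul_pow, ← pow_mul]
        have : n * 2 = n + n := by ring
        rw [this]
        exact h2
      have h4 : 0 ≤ AA n n s * (1 + |s|) ^ n := by positivity
      nlinarith
    rw [Real.norm_eq_abs, Real.rpow_neg h1.le, Real.rpow_two, ← div_eq_mul_inv, le_div_iff₀ (by positivity)]
    unfold wd ww
    rw [abs_mul, abs_mul, abs_of_nonneg hA0, abs_inv, abs_of_pos h1]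
    calc AA n n s * |(rp n n).eval s| * (1 + |s|)⁻¹ * (1 + |s|) ^ 2
        = AA n n s * (|(rp n n).eval s| * (1 + |s|)) := by field_simp
      _ ≤ AA n n s * (C * (1 + |s|) ^ n) := mul_le_mul_of_nonneg_left (hC s) hA0
      _ = C * (AA n n s * (1 + |s|) ^ n) := by ring
      _ = C := by rw [hA, mul_one]
  have hi : Integrable (wd n n) := by
    refine ((integrable_one_add_norm (r := 2) (by norm_num)).const_mul C).mono'
      (wd_cont n n).aestronglyMeasurable (Eventually.of_forall fun s => ?_)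
    exact hb s
  refine ⟨hi.integrableOn, ?_⟩
  -- the square integral
  have hsys := sys n n
  have hb0 : (((n : ℝ) - n) / 2) ^ 2 = 0 := by ring
  have hsq : ∀ R : ℝ, 0 ≤ R → ∫ s in (0 : ℝ)..R, ww n n s ^ 2 ≤ (n : ℝ) * n := by
    intro R hR
    have hlim : Tendsto (fun δ => ∫ s in δ..R, ww n n s ^ 2) (𝓝[>] 0) (𝓝 (∫ s in (0 : ℝ)..R, ww n n s ^ 2)) := by
      have hc : Continuous fun δ => ∫ s in δ..R, ww n n s ^ 2 := by
        have h1 : Continuous fun δ => ∫ s in R..δ, ww n n s ^ 2 :=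
          intervalIntegral.continuous_primitive
            (fun a b => ((ww_cont n n).pow 2).intervalIntegrable a b) R
        have h2 : (fun δ => ∫ s in δ..R, ww n n s ^ 2) = fun δ => -∫ s in R..δ, ww n n s ^ 2 := by
          funext δ
          exact intervalIntegral.integral_symm _ _
        rw [h2]
        exact h1.neg
      exact (hc.tendsto 0).mono_left nhdsWithin_le_nhds
    refine le_of_tendsto hlim ?_
    filter_upwards [self_mem_nhdsWithin] with δ hδ
    have hδ0 : 0 < δ := hδ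
    rcases le_or_gt R δ with h5 | h5
    · have : ∫ s in δ..R, ww n n s ^ 2 ≤ 0 := by
        rw [intervalIntegral.integral_symm]
        have : 0 ≤ ∫ s in R..δ, ww n n s ^ 2 :=
          intervalIntegral.integral_nonneg h5 (fun s _ => sq_nonneg _)
        linarith
      linarith
    · have h6 : ∫ s in δ..R, -((n : ℝ) * n) * ww n n s ^ 2 =
          EE ((n : ℝ) * n) ((((n : ℝ) - n) / 2) ^ 2) (Hf n n) (Kf n n) R -
          EE ((n : ℝ) * n) ((((n : ℝ) - n) / 2) ^ 2) (Hf n n) (Kf n n) δ := by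
        refine intervalIntegral.integral_eq_sub_of_hasDerivAt (fun x hx => ?_)
          (((ww_cont n n).pow 2).const_mul _ |>.intervalIntegrable _ _)
        rw [uIcc_of_le h5.le] at hx
        have hx0 : 0 < x := lt_of_lt_of_le hδ0 hx.1
        refine (dE hsys x hx0).congr_deriv ?_
        rw [Hf_eq]
        field_simp
      rw [intervalIntegral.integral_const_mul] at h6
      have h7 := E_le hsys hP.le (E_lim n n) δ hδ0
      have h8 : 0 ≤ EE ((n : ℝ) * n) ((((n : ℝ) - n) / 2) ^ 2) (Hf n n) (Kf n n) R := by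
        unfold EE
        rw [hb0]
        have hR0 : 0 < R := hδ0.trans h5
        have : 0 ≤ ((n : ℝ) * n / R - 0) * Hf n n R ^ 2 := by
          rw [sub_zero]; positivity
        have := sq_nonneg (Kf n n R)
        linarith
      have h9 : (n : ℝ) * n * ∫ s in δ..R, ww n n s ^ 2 ≤ (n : ℝ) * n * ((n : ℝ) * n) := by nlinarith
      exact le_of_mul_le_mul_left h9 hP
  -- the absolute integral
  have habs : ∫ s in Ioi (0 : ℝ), |wd n n s| ≤ n := by
    have hlim := intervalIntegral_tendsto_integral_Ioi (0 : ℝ) hi.abs.integrableOn tendsto_id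
    refine le_of_tendsto hlim ?_
    filter_upwards [eventually_ge_atTop (0 : ℝ)] with R hR
    simp only [id]
    have hc2 : Continuous fun s : ℝ => 1 / (1 + |s|) ^ 2 := by
      refine continuous_const.div ((continuous_const.add continuous_abs).pow 2) (fun s => ?_)
      positivity
    have i1 : IntervalIntegrable (fun s => 1 / (2 * (n : ℝ)) * ww n n s ^ 2) volume 0 R :=
      (((ww_cont n n).pow 2).const_mul _).intervalIntegrable _ _
    have i2 : IntervalIntegrable (fun s : ℝ => (n : ℝ) / 2 * (1 / (1 + |s|) ^ 2)) volume 0 R :=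
      (hc2.const_mul _).intervalIntegrable _ _
    have h1 : ∫ s in (0 : ℝ)..R, |wd n n s| ≤
        ∫ s in (0 : ℝ)..R, (1 / (2 * n) * ww n n s ^ 2 + n / 2 * (1 / (1 + |s|) ^ 2)) := by
      refine intervalIntegral.integral_mono_on hR ((wd_cont n n).abs.intervalIntegrable _ _)
        (i1.add i2) (fun s hs => ?_)
      have hpos : (0 : ℝ) < 1 + |s| := by positivity
      unfold wd
      rw [abs_mul, abs_inv, abs_of_pos hpos, ← sq_abs (ww n n s)]
      have e1 : 1 / (2 * n) * |ww n n s| ^ 2 + n / 2 * (1 / (1 + |s|) ^ 2) - |ww n n s| * (1 + |s|)⁻¹ =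
          1 / (2 * n) * (|ww n n s| - n * (1 + |s|)⁻¹) ^ 2 := by
        field_simp
        ring
      have e2 : 0 ≤ 1 / (2 * n) * (|ww n n s| - n * (1 + |s|)⁻¹) ^ 2 := by positivity
      linarith
    refine h1.trans ?_
    rw [intervalIntegral.integral_add i1 i2, intervalIntegral.integral_const_mul,
      intervalIntegral.integral_const_mul]
    have h2 := hsq R hR
    have h3 : ∫ s in (0 : ℝ)..R, 1 / (1 + |s|) ^ 2 ≤ 1 := by
      have hd : ∀ x ∈ uIcc (0 : ℝ) R, HasDerivAt (fun s : ℝ => -(1 + s)⁻¹) (1 / (1 + |x|) ^ 2) x := by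
        intro x hx
        rw [uIcc_of_le hR] at hx
        have hx1 : (0 : ℝ) < 1 + x := by linarith [hx.1]
        have := (((hasDerivAt_id x).const_add 1).inv hx1.ne').neg
        refine this.congr_deriv ?_
        rw [abs_of_nonneg hx.1]
        simp only [id]
        ring
      rw [intervalIntegral.integral_eq_sub_of_hasDerivAt hd (hc2.intervalIntegrable _ _)]
      have : 0 ≤ (1 + R)⁻¹ := by positivity
      norm_num
      linarith
    have h4 : 1 / (2 * (n : ℝ)) * ∫ s in (0 : ℝ)..R, ww n n s ^ 2 ≤ 1 / (2 * n) * ((n : ℝ) * n) := by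
      gcongr
    have h5 : (n : ℝ) / 2 * ∫ s in (0 : ℝ)..R, 1 / (1 + |s|) ^ 2 ≤ n / 2 * 1 := by gcongr
    have e3 : 1 / (2 * (n : ℝ)) * ((n : ℝ) * n) = n / 2 := by field_simp
    linarith
  obtain ⟨j, rfl⟩ : ∃ j, n = j + 1 := ⟨n - 1, by omega⟩
  have h5 := hs_low j
  push_cast at habs h5 ⊢
  have : (0 : ℝ) ≤ j := Nat.cast_nonneg j
  linarith

end Pool.Agent.X91.BW
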