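import Pool.Agent.X91.BW.Ker

/-! A single angular mode: from the plane to the half line -/

set_option autoImplicit false

open MeasureTheory Set Filter Topology
open scoped FourierTransform SchwartzMap ContDiff

namespace Pool.Agent.X91.BW

open Pool.Agent.Y282.RB (Tn)
open Pool.Agent.Y282.RB.A2 (db dd Tn_db db_iter dd_iter real_iter HH HH_smooth)

lemma normSq_smooth : ContDiff ℝ ∞ (Complex.normSq : ℂ → ℝ) := by
  have e : (Complex.normSq : ℂ → ℝ) = fun z => z.re * z.re + z.im * z.im := by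
    funext z
    exact Complex.normSq_apply z
  rw [e]
  exact (Complex.reCLM.contDiff.mul Complex.reCLM.contDiff).add
    (Complex.imCLM.contDiff.mul Complex.imCLM.contDiff)

/-- `F(x) / (√x) ^ k` -/
noncomputable def gg (k : ℕ) (F : ℝ → ℂ) (x : ℝ) : ℂ := F x * (((√x : ℝ) : ℂ) ^ k)⁻¹

lemma gg_smooth (k : ℕ) {F : ℝ → ℂ} (hF : Good F) : ContDiff ℝ (⊤ : ℕ∞) (gg k F) := by
  obtain ⟨hs, r, R, hr, h1, h2⟩ := hF
  rw [contDiff_iff_contDiffAt]
  intro x
  rcases lt_or_ge x r with hx | hx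
  · refine (contDiffAt_const (c := (0 : ℂ))).congr_of_eventuallyEq ?_
    filter_upwards [Iio_mem_nhds hx] with y hy
    unfold gg
    rw [h1 y (le_of_lt hy), zero_mul]
  · have hx0 : 0 < x := by linarith
    refine hs.contDiffAt.mul (ContDiffAt.inv ?_ ?_)
    · have e1 : ContDiffAt ℝ ∞ (fun x : ℝ => ((√x : ℝ) : ℂ)) x :=
        Complex.ofRealCLM.contDiff.contDiffAt.comp x (Real.contDiffAt_sqrt hx0.ne')
      exact e1.pow k
    · exact pow_ne_zero _ (Complex.ofReal_ne_zero.2 (Real.sqrt_pos.2 hx0).ne')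

lemma gg_zero (k : ℕ) {F : ℝ → ℂ} {R : ℝ} (h : ∀ x, R ≤ x → F x = 0) (x : ℝ) (hx : R ≤ x) :
    gg k F x = 0 := by
  unfold gg
  rw [h x hx, zero_mul]

/-- the kernel formula for `Sop` -/
lemma Sop_formula (n m : ℕ) (F : ℝ → ℂ) (x : ℝ) (hx : 0 < x) :
    Sop (ww n m) (fun s => 1 + s) F x = ((√x : ℝ) : ℂ) ^ (n + m) * (gg (n + m) F x +
      ∫ s in Ioi (0 : ℝ), (((rp n m).eval s : ℝ) : ℂ) * gg (n + m) F (x * (1 + s))) := by
  have hσ : ((√x : ℝ) : ℂ) ≠ 0 := Complex.ofReal_ne_zero.2 (Real.sqrt_pos.2 hx).ne'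
  unfold Sop
  rw [mul_add, ← integral_const_mul]
  congr 1
  · unfold gg
    field_simp
  · refine setIntegral_congr_fun measurableSet_Ioi (fun s hs => ?_)
    have hs0 : 0 < s := hs
    have h1 : (0 : ℝ) < 1 + s := by linarith
    have hτ : ((√(1 + s) : ℝ) : ℂ) ≠ 0 := Complex.ofReal_ne_zero.2 (Real.sqrt_pos.2 h1).ne'
    have h2 : AA n m s = (√(1 + s) ^ (n + m))⁻¹ := by
      unfold AA
      rw [abs_of_pos hs0, Real.sqrt_eq_rpow, ← Real.rpow_natCast, ← Real.rpow_mul h1.le,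
        ← Real.rpow_neg h1.le]
      congr 1
      push_cast
      ring
    simp only
    unfold ww gg
    rw [h2, Real.sqrt_mul hx.le]
    push_cast
    rw [mul_pow]
    field_simp

lemma id_smooth {f : ℝ → ℂ} (hf : ContDiff ℝ (⊤ : ℕ∞) f) (m : ℕ) :
    ContDiff ℝ (⊤ : ℕ∞) (iteratedDeriv m f) := by
  induction m with
  | zero => simpa using hf
  | succ m ih =>
    rw [iteratedDeriv_succ]
    exact (contDiff_infty_iff_deriv.1 ih).2

theorem plane_mode (n m : ℕ) {F : ℝ → ℂ} (hF : Good F) : ∃ f : 𝓢(ℂ, ℂ),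
    (∀ z, f z = (z / (‖z‖ : ℂ)) ^ (n + m) * F (Complex.normSq z)) ∧
    (∃ v : 𝓢(ℂ, ℂ), ∀ z, Tn n f z = v z) ∧
    (∀ z, z ≠ 0 → ‖Tn n f z‖ = ‖Sop (ww n m) (fun s => 1 + s) F (Complex.normSq z)‖) := by
  have hF' := hF
  obtain ⟨hs, r, R, hr, h1, h2⟩ := hF
  have hgs := gg_smooth (n + m) hF'
  obtain ⟨R', hR'0, hR'⟩ : ∃ R' : ℝ, 0 < R' ∧ ∀ x, R' ≤ x → F x = 0 :=
    ⟨max R 1, lt_of_lt_of_le one_pos (le_max_right _ _), fun x hx => h2 x ((le_max_left _ _).trans hx)⟩
  obtain ⟨h, hh1, hh2, hh3⟩ := Pool.Agent.Y282.RB.A1.key n R' (gg (n + m) F) hgs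
    (fun x hx => gg_zero _ hR' x hx)
  have hv : ∀ j x, R' + 1 ≤ x → iteratedDeriv j h x = 0 := fun j x hx =>
    Pool.Agent.Y282.RB.A.iter_zero hh2 j x hx
  have hus : ContDiff ℝ ∞ (fun z : ℂ => z ^ m * h (Complex.normSq z)) :=
    (contDiff_id.pow m).mul (hh1.comp normSq_smooth)
  have huc : HasCompactSupport (fun z : ℂ => z ^ m * h (Complex.normSq z)) := by
    refine HasCompactSupport.intro (isCompact_closedBall (0 : ℂ) (R' + 1)) fun w hw => ?_
    rw [Metric.mem_closedBall, dist_zero_right, not_le] at hw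
    have h1 : R' ≤ Complex.normSq w := by
      rw [Complex.normSq_eq_norm_sq]
      nlinarith
    rw [hh2 _ h1, mul_zero]
  set u : 𝓢(ℂ, ℂ) := huc.toSchwartzMap hus with hudef
  have hu : ∀ z, u z = z ^ m * h (Complex.normSq z) := fun z => rfl
  refine ⟨db^[n] u, fun z => ?_, ⟨dd^[n] u, fun z => Tn_db n u z⟩, fun z hz => ?_⟩
  · rw [db_iter hh1 hu n z, hh3, add_comm m n]
    unfold gg
    have e1 : √(Complex.normSq z) = ‖z‖ := rfl
    rw [e1, div_pow]
    ring
  · have hz0 : 0 < ‖z‖ := norm_pos_iff.2 hz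
    set x := Complex.normSq z with hx
    have hx0 : 0 < x := Complex.normSq_pos.2 hz
    have hxn : x = ‖z‖ ^ 2 := Complex.normSq_eq_norm_sq z
    have hsx : √x = ‖z‖ := rfl
    rw [Tn_db]
    have key : ‖dd^[n] u z‖ * ‖z‖ ^ m = ‖z‖ ^ n *
        ‖iteratedDeriv n (fun t : ℝ => (t : ℂ) ^ m * h t) x‖ := by
      rcases le_or_gt n m with hnm | hnm
      · rw [dd_iter hh1 hu n hnm z, real_iter hh1 n hnm x, norm_mul, norm_mul, norm_pow, norm_pow,
          Complex.norm_real, Real.norm_of_nonneg hx0.le, hxn]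
        rw [← hxn, ← hx]
        have e1 : ‖z‖ ^ m = ‖z‖ ^ (m - n) * ‖z‖ ^ n := by
          rw [← pow_add]; congr 1; omega
        rw [e1, hxn]
        ring
      · have e1 : n = (n - m) + m := by omega
        have hφs : ContDiff ℝ (⊤ : ℕ∞) (iteratedDeriv m (fun t : ℝ => (t : ℂ) ^ m * h t)) :=
          id_smooth ((Complex.ofRealCLM.contDiff.pow m).mul hh1) m
        have hum : ∀ z, dd^[m] u z = iteratedDeriv m (fun t : ℝ => (t : ℂ) ^ m * h t) (Complex.normSq z) := by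
          intro z
          rw [dd_iter hh1 hu m le_rfl z, real_iter hh1 m le_rfl, Nat.sub_self, pow_zero, pow_zero]
        have h5 := dd_conj_iter hφs hum (n - m) z
        rw [← Function.iterate_add_apply, ← e1] at h5
        have h6 : iteratedDeriv (n - m) (iteratedDeriv m (fun t : ℝ => (t : ℂ) ^ m * h t)) =
            iteratedDeriv n (fun t : ℝ => (t : ℂ) ^ m * h t) := by
          have e2 : iteratedDeriv n (fun t : ℝ => (t : ℂ) ^ m * h t) =
              iteratedDeriv ((n - m) + m) (fun t : ℝ => (t : ℂ) ^ m * h t) := by rw [← e1]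
          rw [e2, iteratedDeriv_eq_iterate, iteratedDeriv_eq_iterate, iteratedDeriv_eq_iterate,
            Function.iterate_add_apply]
        rw [h6] at h5
        rw [h5, norm_mul, norm_pow, RCLike.norm_conj]
        calc ‖z‖ ^ (n - m) * ‖iteratedDeriv n (fun t : ℝ => (t : ℂ) ^ m * h t) (Complex.normSq z)‖ * ‖z‖ ^ m
            = (‖z‖ ^ (n - m) * ‖z‖ ^ m) * ‖iteratedDeriv n (fun t : ℝ => (t : ℂ) ^ m * h t) (Complex.normSq z)‖ := by
              ring
          _ = _ := by rw [← pow_add, ← e1]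
    rw [ker_formula hh1 (by linarith : 0 < R' + 1) hv n m x hx0, hh3, norm_mul, norm_pow,
      Complex.norm_real, Real.norm_of_nonneg hx0.le] at key
    rw [Sop_formula n m F x hx0, norm_mul, norm_pow, Complex.norm_real,
      Real.norm_of_nonneg (Real.sqrt_nonneg _), hsx]
    have h7 : 0 < ‖z‖ ^ m := by positivity
    apply mul_right_cancel₀ h7.ne'
    rw [key, hxn]
    ring

end Pool.Agent.X91.BW
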