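import Pool.Agent.X91.BW.Pol

/-! Numerical bounds and the concrete total variation bound -/

set_option autoImplicit false

open MeasureTheory Set Filter Topology Polynomial

namespace Pool.Agent.X91.BW

/-- `∑_{j < n} 1 / (2 j + 1)` -/
noncomputable def hs (n : ℕ) : ℝ := ∑ j ∈ Finset.range n, 1 / (2 * (j : ℝ) + 1)

lemma hs_mono {m n : ℕ} (h : m ≤ n) : hs m ≤ hs n :=
  Finset.sum_le_sum_of_subset_of_nonneg (Finset.range_mono h) fun i _ _ => by positivity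

lemma hs_nonneg (n : ℕ) : 0 ≤ hs n := Finset.sum_nonneg fun i _ => by positivity

lemma hs_low (m : ℕ) : 34 / 5 * (((m : ℝ) + 1) + 1 / 12) ≤ Real.exp (2 * hs (m + 1)) := by
  induction m with
  | zero =>
    have h1 : hs (0 + 1) = 1 := by simp [hs]
    rw [h1]
    have h2 := Real.exp_one_gt_d9
    have h3 : Real.exp (2 * 1) = Real.exp 1 * Real.exp 1 := by rw [← Real.exp_add]; norm_num
    rw [h3]
    norm_num
    nlinarith
  | succ m ih =>
    have h1 : hs (m + 1 + 1) = hs (m + 1) + 1 / (2 * ((m : ℝ) + 1) + 1) := by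
      unfold hs
      rw [Finset.sum_range_succ _ (m + 1)]
      push_cast
      ring
    rw [h1, mul_add 2 (hs (m + 1)), Real.exp_add]
    obtain ⟨y, hy⟩ : ∃ y : ℝ, y = 2 * ((m : ℝ) + 1) + 1 := ⟨_, rfl⟩
    have hm0 : (0 : ℝ) ≤ m := Nat.cast_nonneg m
    have hy3 : 3 ≤ y := by linarith
    have hy0 : 0 < y := by linarith
    have h2 := Real.sum_le_exp_of_nonneg (x := 2 * (1 / (2 * ((m : ℝ) + 1) + 1))) (by positivity) 4
    rw [← hy] at h2 ⊢
    simp only [Finset.sum_range_succ, Finset.sum_range_zero, pow_zero, pow_one, Nat.factorial] at h2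
    norm_num at h2
    have hm : (m : ℝ) + 1 = (y - 1) / 2 := by linarith
    have h3 : 34 / 5 * ((y - 1) / 2 + 1 / 12) ≤ Real.exp (2 * hs (m + 1)) := by rw [← hm]; exact ih
    push_cast
    have h4 : 34 / 5 * (((m : ℝ) + 1 + 1) + 1 / 12) ≤ 34 / 5 * ((y - 1) / 2 + 1 / 12) *
        (1 + 2 * y⁻¹ + (2 * y⁻¹) ^ 2 / 2 + (2 * y⁻¹) ^ 3 / 6) := by
      have e : (m : ℝ) + 1 + 1 = (y + 1) / 2 := by linarith
      rw [e]
      have e2 : 34 / 5 * ((y - 1) / 2 + 1 / 12) *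
        (1 + 2 * y⁻¹ + (2 * y⁻¹) ^ 2 / 2 + (2 * y⁻¹) ^ 3 / 6) - 34 / 5 * ((y + 1) / 2 + 1 / 12) =
        34 / 10 * (1 / 3 * y ^ 2 - 1 / 3 * y - 10 / 9) / y ^ 3 := by
        field_simp
        ring
      have e3 : 0 ≤ 34 / 10 * (1 / 3 * y ^ 2 - 1 / 3 * y - 10 / 9) / y ^ 3 := by
        apply div_nonneg _ (by positivity)
        nlinarith
      linarith
    refine h4.trans ?_
    have h5 : 0 ≤ 34 / 5 * ((y - 1) / 2 + 1 / 12) := by
      have : 0 ≤ y - 1 := by linarith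
      positivity
    refine mul_le_mul h3 ?_ (by positivity) (Real.exp_pos _).le
    simpa using h2

lemma exp_le_ratio (z : ℝ) (h0 : 0 ≤ z) (h1 : z < 1) : Real.exp (2 * z) ≤ (1 + z) / (1 - z) := by
  have h2 : 0 < 1 - z := by linarith
  have h3 : 0 < 1 + z := by linarith
  rw [← Real.le_log_iff_exp_le (by positivity), Real.log_div h3.ne' h2.ne']
  have h4 := Real.hasSum_log_sub_log_of_abs_lt_one (x := z) (by rw [abs_of_nonneg h0]; exact h1)
  have h5 := sum_le_hasSum {0} (fun i _ => by positivity) h4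
  simpa using h5

lemma AA_cont (n m : ℕ) : Continuous (AA n m) := by
  unfold AA
  refine Continuous.rpow_const (by fun_prop) (fun s => Or.inl ?_)
  positivity

lemma ww_cont (n m : ℕ) : Continuous (ww n m) := (AA_cont n m).mul (rp n m).continuous

lemma Hf_eq (n m : ℕ) (s : ℝ) : Hf n m s = s * ww n m s := by
  unfold Hf ww
  rw [eval_mul, eval_X]
  ring

lemma Hf_cont (n m : ℕ) : Continuous (Hf n m) := (AA_cont n m).mul (X * rp n m).continuous

lemma Kf_cont (n m : ℕ) : Continuous (Kf n m) := by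
  unfold Kf
  refine (AA_cont n m).mul (Continuous.sub ?_ ?_)
  · exact (continuous_const.add continuous_id).mul (derivative (X * rp n m)).continuous
  · exact continuous_const.mul (X * rp n m).continuous

lemma AA_zero (n m : ℕ) : AA n m 0 = 1 := by simp [AA]

lemma rp_zero_eval (n m : ℕ) : (rp n m).eval 0 = -((n : ℝ) * m) := by
  rw [← coeff_zero_eq_eval_zero, rp_coeff, rc_zero]

lemma ww_zero (n m : ℕ) : ww n m 0 = -((n : ℝ) * m) := by
  unfold ww
  rw [AA_zero, rp_zero_eval, one_mul]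

lemma Kf_zero (n m : ℕ) : Kf n m 0 = -((n : ℝ) * m) := by
  unfold Kf
  rw [AA_zero, derivative_mul, derivative_X]
  simp [rp_zero_eval]

lemma E_lim (n m : ℕ) : Tendsto (EE ((n : ℝ) * m) ((((n : ℝ) - m) / 2) ^ 2) (Hf n m) (Kf n m))
    (𝓝[>] 0) (𝓝 (((n : ℝ) * m) ^ 2)) := by
  have h1 : Continuous fun s => Kf n m s ^ 2 + ((n : ℝ) * m * s - (((n : ℝ) - m) / 2) ^ 2 * s ^ 2) *
      ww n m s ^ 2 := by
    have := Kf_cont n m
    have := ww_cont n m
    fun_prop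
  have h2 := h1.tendsto 0
  rw [Kf_zero] at h2
  norm_num at h2
  refine (h2.mono_left nhdsWithin_le_nhds).congr' ?_
  filter_upwards [self_mem_nhdsWithin] with s hs
  have hs' : s ≠ 0 := (ne_of_gt hs)
  unfold EE
  rw [Hf_eq]
  field_simp

lemma V_lim (n m : ℕ) : Tendsto (VV ((n : ℝ) * m) ((((n : ℝ) - m) / 2) ^ 2) (Hf n m) (Kf n m))
    (𝓝[>] 0) (𝓝 0) := by
  have h1 : Continuous fun s => √s * (Kf n m s ^ 2 + ((n : ℝ) * m * s - (((n : ℝ) - m) / 2) ^ 2 * s ^ 2) *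
      ww n m s ^ 2) - (1 + s) / 2 * √s * (ww n m s * Kf n m s) +
      (1 + s) * (s - 1) / 8 * √s * ww n m s ^ 2 := by
    have := Kf_cont n m
    have := ww_cont n m
    fun_prop
  have h2 := h1.tendsto 0
  simp only [Real.sqrt_zero, mul_zero, zero_mul, sub_zero, add_zero] at h2
  refine (h2.mono_left nhdsWithin_le_nhds).congr' ?_
  filter_upwards [self_mem_nhdsWithin] with s hs
  have hs0 : 0 < s := hs
  have hσ : 0 < √s := Real.sqrt_pos.2 hs0
  have e2 : √s * √s = s := Real.mul_self_sqrt hs0.le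
  unfold VV
  rw [Hf_eq]
  generalize ww n m s = w
  generalize Kf n m s = k
  generalize √s = σ at *
  subst e2
  field_simp

/-- bound for the polynomial -/
lemma rp_bound (n m : ℕ) : ∃ C : ℝ, 0 ≤ C ∧ ∀ s : ℝ, |(rp n m).eval s| * (1 + |s|) ≤ C * (1 + |s|) ^ m := by
  refine ⟨∑ i ∈ Finset.range m, |rc n m i|, Finset.sum_nonneg fun i _ => abs_nonneg _, fun s => ?_⟩
  rw [rp_eq, Finset.sum_mul]
  calc |∑ i ∈ Finset.range m, rc n m i * s ^ i| * (1 + |s|)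
      ≤ (∑ i ∈ Finset.range m, |rc n m i * s ^ i|) * (1 + |s|) := by
        gcongr
        exact Finset.abs_sum_le_sum_abs _ _
    _ = ∑ i ∈ Finset.range m, |rc n m i * s ^ i| * (1 + |s|) := Finset.sum_mul _ _ _
    _ ≤ ∑ i ∈ Finset.range m, |rc n m i| * (1 + |s|) ^ m := by
        refine Finset.sum_le_sum fun i hi => ?_
        have hi' : i + 1 ≤ m := Finset.mem_range.1 hi
        rw [abs_mul, abs_pow, mul_assoc]
        gcongr
        calc |s| ^ i * (1 + |s|) ≤ (1 + |s|) ^ i * (1 + |s|) := by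
              gcongr
              linarith
          _ = (1 + |s|) ^ (i + 1) := (pow_succ _ _).symm
          _ ≤ _ := pow_le_pow_right₀ (by linarith [abs_nonneg s]) hi'

lemma AA_sq (n m : ℕ) (s : ℝ) : AA n m s ^ 2 * (1 + |s|) ^ (n + m) = 1 := by
  have h : (0 : ℝ) < 1 + |s| := by positivity
  unfold AA
  rw [← Real.rpow_natCast, ← Real.rpow_mul h.le, ← Real.rpow_natCast (1 + |s|) (n + m),
    ← Real.rpow_add h]
  have : -(((n : ℝ) + m) / 2) * ((2 : ℕ) : ℝ) + ((n + m : ℕ) : ℝ) = 0 := by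
    push_cast; ring
  rw [this, Real.rpow_zero]

lemma ww_bound (n m : ℕ) (h : m < n) : ∃ C : ℝ, 0 ≤ C ∧ ∀ s : ℝ,
    ww n m s ^ 2 * (1 + |s|) ^ 3 ≤ C := by
  obtain ⟨C, hC0, hC⟩ := rp_bound n m
  refine ⟨C ^ 2, by positivity, fun s => ?_⟩
  have h1 : (1 : ℝ) ≤ 1 + |s| := by linarith [abs_nonneg s]
  have h2 := hC s
  have h3 : (|(rp n m).eval s| * (1 + |s|)) ^ 2 ≤ (C * (1 + |s|) ^ m) ^ 2 :=
    pow_le_pow_left₀ (by positivity) h2 2
  have h4 : ((1 : ℝ) + |s|) ^ (2 * m + 1) ≤ (1 + |s|) ^ (n + m) := pow_le_pow_right₀ h1 (by omega)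
  have h5 := AA_sq n m s
  have h6 : 0 ≤ AA n m s ^ 2 := sq_nonneg _
  unfold ww
  calc (AA n m s * (rp n m).eval s) ^ 2 * (1 + |s|) ^ 3
      = AA n m s ^ 2 * (|(rp n m).eval s| * (1 + |s|)) ^ 2 * (1 + |s|) := by
        rw [mul_pow, mul_pow, sq_abs]; ring
    _ ≤ AA n m s ^ 2 * (C * (1 + |s|) ^ m) ^ 2 * (1 + |s|) := by gcongr
    _ = C ^ 2 * (AA n m s ^ 2 * (1 + |s|) ^ (2 * m + 1)) := by ring
    _ ≤ C ^ 2 * (AA n m s ^ 2 * (1 + |s|) ^ (n + m)) := by gcongr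
    _ = C ^ 2 := by rw [h5, mul_one]

lemma ww_int (n m : ℕ) (h : m < n) : Integrable (ww n m) := by
  obtain ⟨C, hC0, hC⟩ := ww_bound n m h
  have h1 : Integrable fun s : ℝ => √C * (1 + ‖s‖) ^ (-(3 / 2 : ℝ)) :=
    (integrable_one_add_norm (by norm_num)).const_mul _
  refine h1.mono' (ww_cont n m).aestronglyMeasurable (Eventually.of_forall fun s => ?_)
  rw [Real.norm_eq_abs, Real.norm_eq_abs]
  have h2 : (0 : ℝ) < 1 + |s| := by positivity
  have h3 : (1 + |s|) ^ (-(3 / 2 : ℝ)) = √(((1 + |s|) ^ 3)⁻¹) := by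
    rw [Real.sqrt_eq_rpow, ← Real.rpow_natCast, ← Real.rpow_neg h2.le, ← Real.rpow_mul h2.le]
    norm_num
  rw [h3, ← Real.sqrt_mul hC0]
  apply Real.abs_le_sqrt
  rw [← div_eq_mul_inv, le_div_iff₀ (by positivity)]
  exact hC s

lemma Hf_decay (n m : ℕ) (h : m < n) : ∃ C : ℝ, 0 ≤ C ∧ ∀ s : ℝ, 1 ≤ s → Hf n m s ^ 2 ≤ C / s := by
  obtain ⟨C, hC0, hC⟩ := ww_bound n m h
  refine ⟨C, hC0, fun s hs => ?_⟩
  have hs0 : 0 < s := by linarith
  rw [le_div_iff₀ hs0, Hf_eq]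
  have h1 := hC s
  rw [abs_of_pos hs0] at h1
  have h2 : s ^ 3 ≤ (1 + s) ^ 3 := pow_le_pow_left₀ hs0.le (by linarith) 3
  calc (s * ww n m s) ^ 2 * s = ww n m s ^ 2 * s ^ 3 := by ring
    _ ≤ ww n m s ^ 2 * (1 + s) ^ 3 := by gcongr
    _ ≤ C := h1

end Pool.Agent.X91.BW
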