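import Mathlib

/-! Energy estimates for `(1 + s) ((1 + s) H')' = (b - P / s) H` -/

set_option autoImplicit false

open MeasureTheory Set Filter Topology

namespace Pool.Agent.X91.BW

/-- the energy -/
noncomputable def EE (P b : ℝ) (H K : ℝ → ℝ) (s : ℝ) : ℝ := K s ^ 2 + (P / s - b) * H s ^ 2

/-- the modified energy -/
noncomputable def VV (P b : ℝ) (H K : ℝ → ℝ) (s : ℝ) : ℝ :=
  √s * (K s ^ 2 + (P / s - b) * H s ^ 2) - (1 + s) / (2 * √s) * (H s * K s) +
    (1 + s) * (s - 1) / (8 * (s * √s)) * H s ^ 2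

/-- the equation -/
structure Sys (P b : ℝ) (H K : ℝ → ℝ) : Prop where
  hH : ∀ s, 0 < s → HasDerivAt H (K s / (1 + s)) s
  hK : ∀ s, 0 < s → HasDerivAt K ((b - P / s) * H s / (1 + s)) s

lemma dE {P b : ℝ} {H K : ℝ → ℝ} (h : Sys P b H K) (s : ℝ) (hs : 0 < s) :
    HasDerivAt (EE P b H K) (-(P / s ^ 2) * H s ^ 2) s := by
  have h1 := h.hH s hs
  have h2 := h.hK s hs
  have h3 : HasDerivAt (fun s : ℝ => P / s - b) (-(P / s ^ 2)) s := by
    have := (((hasDerivAt_id s).inv hs.ne').const_mul P).sub_const b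
    refine this.congr_deriv ?_ |>.congr_of_eventuallyEq ?_
    · simp; field_simp
    · filter_upwards with t
      simp [div_eq_mul_inv]
  have h4 := (h2.pow 2).add (h3.mul (h1.pow 2))
  have h5 : HasDerivAt (EE P b H K) _ s := h4
  refine h5.congr_deriv ?_
  have : 1 + s ≠ 0 := by positivity
  simp
  field_simp
  ring

lemma dV {P b : ℝ} {H K : ℝ → ℝ} (h : Sys P b H K) (s : ℝ) (hs : 0 < s) :
    HasDerivAt (VV P b H K)
      (3 / 16 * H s ^ 2 / (s ^ 2 * √s) - (b - 1 / 16) * H s ^ 2 / √s) s := by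
  have h1 := h.hH s hs
  have h2 := h.hK s hs
  have hσ : 0 < √s := Real.sqrt_pos.2 hs
  have hss : √s ^ 2 = s := Real.sq_sqrt hs.le
  have d1 : HasDerivAt (fun s : ℝ => √s) (1 / (2 * √s)) s := Real.hasDerivAt_sqrt hs.ne'
  have d2 := d1.mul (dE h s hs)
  have d3 : HasDerivAt (fun s : ℝ => 1 + s) 1 s := (hasDerivAt_id s).const_add 1
  have d4 : HasDerivAt (fun s : ℝ => s - 1) 1 s := (hasDerivAt_id s).sub_const 1
  have d5 := (d3.div (d1.const_mul 2) (by positivity)).mul (h1.mul h2)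
  have d6 := ((d3.mul d4).div (((hasDerivAt_id s).mul d1).const_mul 8) (by
    simp only [Pi.mul_apply, id]
    positivity)).mul (h1.pow 2)
  have d7 := (d2.sub d5).add d6
  have h5 : HasDerivAt (VV P b H K) _ s := d7
  refine h5.congr_deriv ?_
  obtain ⟨σ, hσd⟩ : ∃ σ, σ = √s := ⟨_, rfl⟩
  have e : s = σ ^ 2 := by rw [hσd, hss]
  simp only [EE, id, Pi.mul_apply, Pi.pow_apply, Pi.div_apply]
  rw [← hσd] at hσ ⊢
  generalize H s = u
  generalize K s = v
  clear d1 d2 d3 d4 d5 d6 d7 h5 h1 h2 hσd hss h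
  subst e
  have hs2 : (1 : ℝ) + σ ^ 2 ≠ 0 := by positivity
  have hs3 : σ ≠ 0 := hσ.ne'
  field_simp
  ring

end Pool.Agent.X91.BW
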