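import Mathlib

/-! Riesz-Thorin interpolation between `L²` and `L^∞` for superpositions of dilations -/

set_option autoImplicit false

open MeasureTheory Set Filter Topology Complex
open scoped ContDiff

namespace Pool.Agent.X91.BW

/-- integrals of exponentials are entire -/
lemma exp_int {Ω : Type*} [MeasurableSpace Ω] {ν : Measure Ω} {c : Ω → ℂ} (hc : Integrable c ν)
    {α : Ω → ℝ} (hα : Measurable α) {A : ℝ} (hA0 : 0 ≤ A) (hA : ∀ o, |α o| ≤ A) :
    (∀ z : ℂ, Integrable (fun o => c o * cexp (z * α o)) ν) ∧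
    Differentiable ℂ (fun z : ℂ => ∫ o, c o * cexp (z * α o) ∂ν) ∧
    ∀ z : ℂ, ‖∫ o, c o * cexp (z * α o) ∂ν‖ ≤ (∫ o, ‖c o‖ ∂ν) * Real.exp (|z.re| * A) := by
  have hexp : ∀ (z : ℂ) (o : Ω), ‖cexp (z * α o)‖ ≤ Real.exp (|z.re| * A) := by
    intro z o
    rw [Complex.norm_exp]
    apply Real.exp_le_exp.2
    have : (z * (α o : ℂ)).re = z.re * α o := by simp
    rw [this]
    calc z.re * α o ≤ |z.re * α o| := le_abs_self _
      _ = |z.re| * |α o| := abs_mul _ _
      _ ≤ |z.re| * A := by gcongr; exact hA o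
  have hm : ∀ z : ℂ, Measurable fun o => cexp (z * α o) := fun z => by fun_prop
  have hi : ∀ z : ℂ, Integrable (fun o => c o * cexp (z * α o)) ν := by
    intro z
    refine (hc.norm.mul_const (Real.exp (|z.re| * A))).mono'
      (hc.aestronglyMeasurable.mul (hm z).aestronglyMeasurable) (Eventually.of_forall fun o => ?_)
    rw [norm_mul]
    gcongr
    exact hexp z o
  refine ⟨hi, fun z₀ => ?_, fun z => ?_⟩
  · refine (hasDerivAt_integral_of_dominated_loc_of_deriv_le (s := Metric.ball z₀ 1)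
      (F := fun z o => c o * cexp (z * α o)) (F' := fun z o => c o * (cexp (z * α o) * α o))
      (bound := fun o => ‖c o‖ * (Real.exp ((|z₀.re| + 1) * A) * A))
      (Metric.ball_mem_nhds _ one_pos) (Eventually.of_forall fun z => (hi z).aestronglyMeasurable)
      (hi z₀) ?_ (Eventually.of_forall fun o z hz => ?_) (hc.norm.mul_const _)
      (Eventually.of_forall fun o z _ => ?_)).2.differentiableAt
    · refine hc.aestronglyMeasurable.mul ?_
      exact ((hm z₀).mul (Complex.measurable_ofReal.comp hα)).aestronglyMeasurable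
    · rw [norm_mul, norm_mul]
      have h1 : |z.re| ≤ |z₀.re| + 1 := by
        have h2 : |(z - z₀).re| ≤ ‖z - z₀‖ := abs_re_le_norm _
        rw [Metric.mem_ball, dist_eq_norm] at hz
        have h3 : |z.re| ≤ |z₀.re| + |(z - z₀).re| := by
          have : z.re = z₀.re + (z - z₀).re := by simp
          rw [this]
          exact abs_add_le _ _
        linarith
      have h4 : ‖cexp (z * α o)‖ ≤ Real.exp ((|z₀.re| + 1) * A) :=
        (hexp z o).trans (Real.exp_le_exp.2 (mul_le_mul_of_nonneg_right h1 hA0))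
      have h5 : ‖(α o : ℂ)‖ ≤ A := by
        rw [Complex.norm_real]
        exact hA o
      gcongr
    · have h1 : HasDerivAt (fun z : ℂ => z * (α o : ℂ)) (α o : ℂ) z := by
        simpa using (hasDerivAt_id z).mul_const (α o : ℂ)
      exact h1.cexp.const_mul (c o)
  · calc ‖∫ o, c o * cexp (z * α o) ∂ν‖ ≤ ∫ o, ‖c o * cexp (z * α o)‖ ∂ν :=
          norm_integral_le_integral_norm _
      _ ≤ ∫ o, ‖c o‖ * Real.exp (|z.re| * A) ∂ν := by
          refine integral_mono (hi z).norm (hc.norm.mul_const _) (fun o => ?_)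
          simp only [norm_mul]
          gcongr
          exact hexp z o
      _ = _ := integral_mul_const _ _

/-- the operator -/
noncomputable def Sop (w τ : ℝ → ℝ) (F : ℝ → ℂ) (x : ℝ) : ℂ :=
  F x + ∫ s in Ioi (0 : ℝ), (w s : ℂ) * F (x * τ s)

/-- smooth functions with compact support in the half line -/
def Good (F : ℝ → ℂ) : Prop :=
  ContDiff ℝ ∞ F ∧ ∃ r R : ℝ, 0 < r ∧ (∀ x, x ≤ r → F x = 0) ∧ (∀ x, R ≤ x → F x = 0)

lemma Good.bdd {F : ℝ → ℂ} (h : Good F) : ∃ M : ℝ, 0 ≤ M ∧ ∀ x, ‖F x‖ ≤ M := by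
  obtain ⟨hF, r, R, hr, h1, h2⟩ := h
  have hc : HasCompactSupport F := by
    refine HasCompactSupport.intro (isCompact_Icc (a := r) (b := R)) fun x hx => ?_
    rw [mem_Icc, not_and_or, not_le, not_le] at hx
    rcases hx with h3 | h3
    · exact h1 x h3.le
    · exact h2 x h3.le
  obtain ⟨M, hM⟩ := hF.continuous.bounded_above_of_compact_support hc
  exact ⟨M, (norm_nonneg _).trans (hM 0), hM⟩

lemma Good.mod {F : ℝ → ℂ} (h : Good F) {ε : ℝ} (hε : 0 < ε) (l : ℂ) :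
    Good (fun y => F y * cexp (l * (Real.log (‖F y‖ ^ 2 + ε ^ 2) : ℂ))) := by
  obtain ⟨hF, r, R, hr, h1, h2⟩ := h
  refine ⟨?_, r, R, hr, fun x hx => by simp [h1 x hx], fun x hx => by simp [h2 x hx]⟩
  have h3 : ContDiff ℝ ∞ fun y => ‖F y‖ ^ 2 + ε ^ 2 := (hF.norm_sq ℝ).add contDiff_const
  have h4 : ContDiff ℝ ∞ fun y => Real.log (‖F y‖ ^ 2 + ε ^ 2) :=
    h3.log fun y => by positivity
  refine hF.mul ?_
  exact (contDiff_const.mul (Complex.ofRealCLM.contDiff.comp h4)).cexp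

lemma Sop_meas {w τ : ℝ → ℝ} (hw : Measurable w) (hτ : Measurable τ) {F : ℝ → ℂ}
    (hF : Continuous F) : StronglyMeasurable (Sop w τ F) := by
  have h1 : StronglyMeasurable (Function.uncurry fun x s => (w s : ℂ) * F (x * τ s)) := by
    apply Measurable.stronglyMeasurable
    have h2 : Measurable fun a : ℝ × ℝ => F (a.1 * τ a.2) := hF.measurable.comp (by fun_prop)
    exact (Complex.measurable_ofReal.comp (hw.comp measurable_snd)).mul h2
  exact hF.stronglyMeasurable.add (h1.integral_prod_right)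

lemma Sop_le {w τ : ℝ → ℝ} (hw : IntegrableOn w (Ioi 0)) {F : ℝ → ℂ} {M : ℝ}
    (hM : ∀ x, ‖F x‖ ≤ M) (x : ℝ) :
    ‖Sop w τ F x‖ ≤ (1 + ∫ s in Ioi (0 : ℝ), |w s|) * M := by
  have h1 : ‖∫ s in Ioi (0 : ℝ), (w s : ℂ) * F (x * τ s)‖ ≤ ∫ s in Ioi (0 : ℝ), |w s| * M := by
    refine norm_integral_le_of_norm_le (hw.abs.mul_const M) (Eventually.of_forall fun s => ?_)
    rw [norm_mul, Complex.norm_real, Real.norm_eq_abs]
    gcongr
    exact hM _
  rw [integral_mul_const] at h1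
  calc ‖Sop w τ F x‖ ≤ ‖F x‖ + ‖∫ s in Ioi (0 : ℝ), (w s : ℂ) * F (x * τ s)‖ := norm_add_le _ _
    _ ≤ M + (∫ s in Ioi (0 : ℝ), |w s|) * M := add_le_add (hM x) h1
    _ = _ := by ring

lemma norm_exp_log {t : ℝ} (ht : 0 < t) (l : ℂ) : ‖cexp (l * (Real.log t : ℂ))‖ = t ^ l.re := by
  rw [Complex.norm_exp, Real.rpow_def_of_pos ht]
  congr 1
  simp [mul_comm]

lemma abs_log_le {a b t : ℝ} (ha : 0 < a) (h1 : a ≤ t) (h2 : t ≤ b) :
    |Real.log t| ≤ |Real.log a| + |Real.log b| := by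
  have h3 := Real.log_le_log ha h1
  have h4 := Real.log_le_log (ha.trans_le h1) h2
  rw [abs_le]
  constructor
  · linarith [neg_abs_le (Real.log a), abs_nonneg (Real.log b)]
  · linarith [le_abs_self (Real.log b), abs_nonneg (Real.log a)]

/-- the pairing estimate -/
lemma pairing {w τ : ℝ → ℝ} (hw : IntegrableOn w (Ioi 0)) (hwm : Measurable w) (hτ : Measurable τ)
    (h2 : ∀ F, Good F → IntegrableOn (fun x => ‖Sop w τ F x‖ ^ 2) (Ioi 0) ∧
      ∫ x in Ioi (0 : ℝ), ‖Sop w τ F x‖ ^ 2 ≤ ∫ x in Ioi (0 : ℝ), ‖F x‖ ^ 2)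
    {p q : ℝ} (hp : 2 < p) (hpq : p.HolderConjugate q) {F : ℝ → ℂ} (hF : Good F) {G : ℝ → ℂ}
    (hG : Measurable G) {M' : ℝ} (hM' : ∀ x, ‖G x‖ ≤ M')
    {T : ℝ} (hT : 0 < T) {R : ℝ} (hR0 : 0 < R) (hR : ∀ x, R ≤ x → F x = 0) {ε : ℝ} (hε : 0 < ε) :
    ‖∫ x in Ioo 0 T, Sop w τ F x * G x‖ ≤
      (√(∫ x in (0 : ℝ)..R, (‖F x‖ ^ 2 + ε ^ 2) ^ (p / 2)) * √(∫ x in Ioo 0 T, ‖G x‖ ^ q)) ^ (2 / p) *
      ((1 + ∫ s in Ioi (0 : ℝ), |w s|) * ((∫ x in Ioo 0 T, ‖G x‖ ^ q) + ε ^ q * T)) ^ (1 - 2 / p) := by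
  have hp0 : 0 < p := by linarith
  have hq0 : 0 < q := hpq.symm.pos
  have hq1 : 1 < q := hpq.symm.lt
  have hinv : 1 / p + 1 / q = 1 := by
    have := hpq.inv_add_inv_eq_one
    simpa [one_div] using this
  have hq2 : q < 2 := by
    by_contra hcon
    push Not at hcon
    have h3 : 1 / q ≤ 1 / 2 := one_div_le_one_div_of_le (by norm_num) hcon
    have h4 : 1 / p < 1 / 2 := one_div_lt_one_div_of_lt (by norm_num) hp
    linarith
  obtain ⟨M, hM0, hM⟩ := hF.bdd
  have hM'0 : 0 ≤ M' := (norm_nonneg _).trans (hM' 0)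
  have hFc : Continuous F := hF.1.continuous
  have hε2 : 0 < ε ^ 2 := by positivity
  set LF : ℝ → ℝ := fun y => Real.log (‖F y‖ ^ 2 + ε ^ 2) with hLF
  set LG : ℝ → ℝ := fun y => Real.log (‖G y‖ ^ 2 + ε ^ 2) with hLG
  have hLFm : Measurable LF := Real.measurable_log.comp ((hFc.measurable.norm.pow_const 2).add_const _)
  have hLGm : Measurable LG := Real.measurable_log.comp ((hG.norm.pow_const 2).add_const _)
  obtain ⟨B1, hB10, hB1⟩ : ∃ B, 0 ≤ B ∧ ∀ y, |LF y| ≤ B :=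
    ⟨|Real.log (ε ^ 2)| + |Real.log (M ^ 2 + ε ^ 2)|, by positivity, fun y => abs_log_le hε2
      (by have := sq_nonneg ‖F y‖; linarith) (by
        have := pow_le_pow_left₀ (norm_nonneg _) (hM y) 2
        linarith)⟩
  obtain ⟨B2, hB20, hB2⟩ : ∃ B, 0 ≤ B ∧ ∀ y, |LG y| ≤ B :=
    ⟨|Real.log (ε ^ 2)| + |Real.log (M' ^ 2 + ε ^ 2)|, by positivity, fun y => abs_log_le hε2
      (by have := sq_nonneg ‖G y‖; linarith) (by
        have := pow_le_pow_left₀ (norm_nonneg _) (hM' y) 2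
        linarith)⟩
  set ν1 : Measure ℝ := volume.restrict (Ioo 0 T) with hν1
  set ν2 : Measure ℝ := volume.restrict (Ioi (0 : ℝ)) with hν2
  set lam : ℂ → ℂ := fun z => ((p / 2 - 1) / 2 : ℂ) - (p / 4 : ℂ) * z with hlam
  set mu : ℂ → ℂ := fun z => ((q / 2 - 1) / 2 : ℂ) + (q / 4 : ℂ) * z with hmu
  set Fz : ℂ → ℝ → ℂ := fun z y => F y * cexp (lam z * (LF y : ℂ)) with hFz
  set Gz : ℂ → ℝ → ℂ := fun z y => G y * cexp (mu z * (LG y : ℂ)) with hGz
  set t : ℝ → ℝ → ℂ := fun y x => F y * G x *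
    cexp (((p / 2 - 1) / 2 * LF y + (q / 2 - 1) / 2 * LG x : ℝ) : ℂ) with ht
  set al : ℝ → ℝ → ℝ := fun y x => -(p / 4) * LF y + q / 4 * LG x with hal
  have hfg : ∀ z y x, Fz z y * Gz z x = t y x * cexp (z * (al y x : ℂ)) := by
    intro z y x
    simp only [hFz, hGz, ht, hal, hlam, hmu]
    have e : cexp ((((p / 2 - 1) / 2 : ℂ) - (p / 4 : ℂ) * z) * (LF y : ℂ)) *
        cexp ((((q / 2 - 1) / 2 : ℂ) + (q / 4 : ℂ) * z) * (LG x : ℂ)) =
        cexp (((p / 2 - 1) / 2 * LF y + (q / 2 - 1) / 2 * LG x : ℝ) : ℂ) *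
        cexp (z * ((-(p / 4) * LF y + q / 4 * LG x : ℝ) : ℂ)) := by
      rw [← Complex.exp_add, ← Complex.exp_add]
      congr 1
      push_cast
      ring
    calc F y * cexp ((((p / 2 - 1) / 2 : ℂ) - (p / 4 : ℂ) * z) * (LF y : ℂ)) *
          (G x * cexp ((((q / 2 - 1) / 2 : ℂ) + (q / 4 : ℂ) * z) * (LG x : ℂ)))
        = F y * G x * (cexp ((((p / 2 - 1) / 2 : ℂ) - (p / 4 : ℂ) * z) * (LF y : ℂ)) *
          cexp ((((q / 2 - 1) / 2 : ℂ) + (q / 4 : ℂ) * z) * (LG x : ℂ))) := by ring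
      _ = _ := by rw [e]; ring
  have halb : ∀ y x, |al y x| ≤ p / 4 * B1 + q / 4 * B2 := by
    intro y x
    simp only [hal]
    calc |-(p / 4) * LF y + q / 4 * LG x| ≤ |-(p / 4) * LF y| + |q / 4 * LG x| := abs_add_le _ _
      _ = p / 4 * |LF y| + q / 4 * |LG x| := by
          rw [abs_mul, abs_mul, abs_neg, abs_of_pos (by positivity : 0 < p / 4),
            abs_of_pos (by positivity : 0 < q / 4)]
      _ ≤ _ := by gcongr; exact hB1 y; exact hB2 x
  set BB : ℝ := |(p / 2 - 1) / 2| * B1 + |(q / 2 - 1) / 2| * B2 with hBB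
  have htb : ∀ y x, ‖t y x‖ ≤ M * M' * Real.exp BB := by
    intro y x
    simp only [ht]
    rw [norm_mul, norm_mul, Complex.norm_exp, Complex.ofReal_re]
    gcongr
    · exact hM y
    · exact hM' x
    · calc (p / 2 - 1) / 2 * LF y + (q / 2 - 1) / 2 * LG x
          ≤ |(p / 2 - 1) / 2 * LF y + (q / 2 - 1) / 2 * LG x| := le_abs_self _
        _ ≤ |(p / 2 - 1) / 2 * LF y| + |(q / 2 - 1) / 2 * LG x| := abs_add_le _ _
        _ = |(p / 2 - 1) / 2| * |LF y| + |(q / 2 - 1) / 2| * |LG x| := by rw [abs_mul, abs_mul]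
        _ ≤ BB := by
          rw [hBB]
          gcongr
          · exact hB1 y
          · exact hB2 x
  have htm : ∀ {Ω : Type} [MeasurableSpace Ω] (f g : Ω → ℝ), Measurable f → Measurable g →
      Measurable fun o => t (f o) (g o) := by
    intro Ω _ f g hf hg
    simp only [ht]
    refine ((hFc.measurable.comp hf).mul (hG.comp hg)).mul (Complex.measurable_exp.comp
      (Complex.measurable_ofReal.comp ?_))
    exact ((hLFm.comp hf).const_mul _).add ((hLGm.comp hg).const_mul _)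
  have halm : ∀ {Ω : Type} [MeasurableSpace Ω] (f g : Ω → ℝ), Measurable f → Measurable g →
      Measurable fun o => al (f o) (g o) := by
    intro Ω _ f g hf hg
    simp only [hal]
    exact ((hLFm.comp hf).const_mul _).add ((hLGm.comp hg).const_mul _)
  -- the two integrals
  have hc1 : Integrable (fun x => t x x) ν1 := by
    refine (integrable_const (M * M' * Real.exp BB)).mono'
      (htm id id measurable_id measurable_id).aestronglyMeasurable (Eventually.of_forall fun x => htb x x)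
  have hc2 : Integrable (fun a : ℝ × ℝ => (w a.2 : ℂ) * t (a.1 * τ a.2) a.1) (ν1.prod ν2) := by
    have hi : Integrable (fun a : ℝ × ℝ => (M * M' * Real.exp BB) * |w a.2|) (ν1.prod ν2) :=
      (integrable_const (M * M' * Real.exp BB)).mul_prod hw.abs
    refine hi.mono' ?_ (Eventually.of_forall fun a => ?_)
    · refine Measurable.aestronglyMeasurable ?_
      exact (Complex.measurable_ofReal.comp (hwm.comp measurable_snd)).mul
        (htm (fun a : ℝ × ℝ => a.1 * τ a.2) (fun a => a.1) (by fun_prop) measurable_fst)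
    · rw [norm_mul, Complex.norm_real, Real.norm_eq_abs, mul_comm]
      gcongr
      exact htb _ _
  have hA0 : 0 ≤ p / 4 * B1 + q / 4 * B2 := by positivity
  obtain ⟨i1, d1, b1⟩ := exp_int hc1 (halm id id measurable_id measurable_id) hA0 (fun x => halb x x)
  obtain ⟨i2, d2, b2⟩ := exp_int hc2 (halm (fun a : ℝ × ℝ => a.1 * τ a.2) (fun a => a.1)
    (by fun_prop) measurable_fst) hA0 (fun a => halb _ _)
  simp only [id] at i1 d1 b1
  set Φ : ℂ → ℂ := fun z => ∫ x in Ioo 0 T, Sop w τ (Fz z) x * Gz z x with hΦ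
  have hΦe : ∀ z, Φ z = (∫ x, t x x * cexp (z * al x x) ∂ν1) +
      ∫ a : ℝ × ℝ, (w a.2 : ℂ) * t (a.1 * τ a.2) a.1 * cexp (z * al (a.1 * τ a.2) a.1) ∂(ν1.prod ν2) := by
    intro z
    rw [integral_prod _ (i2 z), ← integral_add (i1 z) (i2 z).integral_prod_left]
    simp only [hΦ]
    refine integral_congr_ae (Eventually.of_forall fun x => ?_)
    simp only [Sop]
    rw [add_mul, hfg z x x]
    congr 1
    rw [← integral_mul_const]
    refine integral_congr_ae (Eventually.of_forall fun s => ?_)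
    have h3 := hfg z (x * τ s) x
    calc (w s : ℂ) * Fz z (x * τ s) * Gz z x = (w s : ℂ) * (Fz z (x * τ s) * Gz z x) := by ring
      _ = _ := by rw [h3]; ring
  have hΦd : Differentiable ℂ Φ := by
    have : Φ = fun z => (∫ x, t x x * cexp (z * al x x) ∂ν1) +
      ∫ a : ℝ × ℝ, (w a.2 : ℂ) * t (a.1 * τ a.2) a.1 * cexp (z * al (a.1 * τ a.2) a.1) ∂(ν1.prod ν2) :=
      funext hΦe
    rw [this]
    exact d1.add d2
  have hbdd : BddAbove ((norm ∘ Φ) '' Complex.HadamardThreeLines.verticalClosedStrip 0 1) := by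
    refine ⟨(∫ x, ‖t x x‖ ∂ν1) * Real.exp (1 * (p / 4 * B1 + q / 4 * B2)) +
      (∫ a : ℝ × ℝ, ‖(w a.2 : ℂ) * t (a.1 * τ a.2) a.1‖ ∂(ν1.prod ν2)) *
        Real.exp (1 * (p / 4 * B1 + q / 4 * B2)), ?_⟩
    rintro _ ⟨z, hz, rfl⟩
    have hz' : |z.re| ≤ 1 := by
      have : z.re ∈ Icc (0 : ℝ) 1 := hz
      rw [abs_le]
      exact ⟨by linarith [this.1], this.2⟩
    simp only [Function.comp_apply]
    rw [hΦe z]
    refine (norm_add_le _ _).trans (add_le_add ((b1 z).trans ?_) ((b2 z).trans ?_))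
    · gcongr
    · gcongr
  have hnF : ∀ z y, ‖Fz z y‖ = ‖F y‖ * (‖F y‖ ^ 2 + ε ^ 2) ^ (lam z).re := by
    intro z y
    simp only [hFz, norm_mul]
    rw [norm_exp_log (by positivity)]
  have hnG : ∀ z y, ‖Gz z y‖ = ‖G y‖ * (‖G y‖ ^ 2 + ε ^ 2) ^ (mu z).re := by
    intro z y
    simp only [hGz, norm_mul]
    rw [norm_exp_log (by positivity)]
  have hlre : ∀ z : ℂ, (lam z).re = (p / 2 - 1) / 2 - p / 4 * z.re := by
    intro z
    have : lam z = (((p / 2 - 1) / 2 : ℝ) : ℂ) - ((p / 4 : ℝ) : ℂ) * z := by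
      simp only [hlam]; push_cast; ring
    rw [this, Complex.sub_re, Complex.re_ofReal_mul, Complex.ofReal_re]
  have hmre : ∀ z : ℂ, (mu z).re = (q / 2 - 1) / 2 + q / 4 * z.re := by
    intro z
    have : mu z = (((q / 2 - 1) / 2 : ℝ) : ℂ) + ((q / 4 : ℝ) : ℂ) * z := by
      simp only [hmu]; push_cast; ring
    rw [this, Complex.add_re, Complex.re_ofReal_mul, Complex.ofReal_re]
  have hGoodz : ∀ z, Good (Fz z) := fun z => hF.mod hε (lam z)
  have hGzm : ∀ z, Measurable (Gz z) := fun z =>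
    hG.mul (Complex.measurable_exp.comp ((Complex.measurable_ofReal.comp hLGm).const_mul _))
  have hSm : ∀ z, Measurable (Sop w τ (Fz z)) := fun z =>
    (Sop_meas hwm hτ (hGoodz z).1.continuous).measurable
  have hGq : IntegrableOn (fun x => ‖G x‖ ^ q) (Ioo 0 T) := by
    refine (integrable_const (M' ^ q)).mono' (hG.norm.pow_const q).aestronglyMeasurable
      (Eventually.of_forall fun x => ?_)
    rw [Real.norm_of_nonneg (by positivity)]
    exact Real.rpow_le_rpow (norm_nonneg _) (hM' x) hq0.le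
  -- the left line
  have ha : ∀ z ∈ re ⁻¹' {(0 : ℝ)}, ‖Φ z‖ ≤
      √(∫ x in (0 : ℝ)..R, (‖F x‖ ^ 2 + ε ^ 2) ^ (p / 2)) * √(∫ x in Ioo 0 T, ‖G x‖ ^ q) := by
    intro z hz
    have hz0 : z.re = 0 := hz
    obtain ⟨hi, hle⟩ := h2 (Fz z) (hGoodz z)
    have hGz2 : ∀ x, ‖Gz z x‖ ^ 2 ≤ ‖G x‖ ^ q := by
      intro x
      rw [hnG, hmre, hz0, mul_zero, add_zero, mul_pow, ← Real.rpow_natCast ((‖G x‖ ^ 2 + ε ^ 2) ^ _) 2,
        ← Real.rpow_mul (by positivity)]
      rcases (norm_nonneg (G x)).eq_or_lt with h0 | h0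
      · rw [← h0]
        simp [hq0.ne']
      · have e : (q / 2 - 1) / 2 * ((2 : ℕ) : ℝ) = q / 2 - 1 := by push_cast; ring
        rw [e]
        have h3 : (‖G x‖ ^ 2 + ε ^ 2) ^ (q / 2 - 1) ≤ (‖G x‖ ^ 2) ^ (q / 2 - 1) :=
          Real.rpow_le_rpow_of_nonpos (by positivity) (by linarith) (by linarith)
        calc ‖G x‖ ^ 2 * (‖G x‖ ^ 2 + ε ^ 2) ^ (q / 2 - 1)
            ≤ ‖G x‖ ^ 2 * (‖G x‖ ^ 2) ^ (q / 2 - 1) := by gcongr
          _ = (‖G x‖ ^ 2) ^ (q / 2) := by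
              rw [Real.rpow_sub_one (by positivity)]
              field_simp
          _ = ‖G x‖ ^ q := by
              rw [← Real.rpow_natCast, ← Real.rpow_mul h0.le]
              congr 1
              push_cast; ring
    have hFz2 : ∀ x, ‖Fz z x‖ ^ 2 ≤ (‖F x‖ ^ 2 + ε ^ 2) ^ (p / 2) := by
      intro x
      rw [hnF, hlre, hz0, mul_zero, sub_zero, mul_pow, ← Real.rpow_natCast ((‖F x‖ ^ 2 + ε ^ 2) ^ _) 2,
        ← Real.rpow_mul (by positivity)]
      have e : (p / 2 - 1) / 2 * ((2 : ℕ) : ℝ) = p / 2 - 1 := by push_cast; ring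
      rw [e]
      calc ‖F x‖ ^ 2 * (‖F x‖ ^ 2 + ε ^ 2) ^ (p / 2 - 1)
          ≤ (‖F x‖ ^ 2 + ε ^ 2) * (‖F x‖ ^ 2 + ε ^ 2) ^ (p / 2 - 1) := by
            gcongr
            linarith
        _ = (‖F x‖ ^ 2 + ε ^ 2) ^ (p / 2) := by
            rw [Real.rpow_sub_one (by positivity)]
            field_simp
    have hGi : Integrable (fun x => ‖Gz z x‖ ^ 2) ν1 := by
      refine hGq.mono' ((hGzm z).norm.pow_const 2).aestronglyMeasurable
        (Eventually.of_forall fun x => ?_)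
      rw [Real.norm_of_nonneg (by positivity)]
      exact hGz2 x
    have hSi : Integrable (fun x => ‖Sop w τ (Fz z) x‖ ^ 2) ν1 :=
      hi.mono_set Ioo_subset_Ioi_self
    have hcs : ∫ x, ‖Sop w τ (Fz z) x‖ * ‖Gz z x‖ ∂ν1 ≤
        (∫ x, ‖Sop w τ (Fz z) x‖ ^ (2 : ℝ) ∂ν1) ^ (1 / (2 : ℝ)) *
          (∫ x, ‖Gz z x‖ ^ (2 : ℝ) ∂ν1) ^ (1 / (2 : ℝ)) := by
      refine integral_mul_le_Lp_mul_Lq_of_nonneg Real.HolderConjugate.two_two
        (Eventually.of_forall fun x => norm_nonneg _) (Eventually.of_forall fun x => norm_nonneg _) ?_ ?_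
      · rw [ENNReal.ofReal_ofNat]
        exact (memLp_two_iff_integrable_sq (hSm z).norm.aestronglyMeasurable).2 hSi
      · rw [ENNReal.ofReal_ofNat]
        exact (memLp_two_iff_integrable_sq (hGzm z).norm.aestronglyMeasurable).2 hGi
    simp only [Real.rpow_two] at hcs
    rw [← Real.sqrt_eq_rpow, ← Real.sqrt_eq_rpow] at hcs
    calc ‖Φ z‖ ≤ ∫ x, ‖Sop w τ (Fz z) x * Gz z x‖ ∂ν1 := norm_integral_le_integral_norm _
      _ = ∫ x, ‖Sop w τ (Fz z) x‖ * ‖Gz z x‖ ∂ν1 := by simp only [norm_mul]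
      _ ≤ _ := hcs
      _ ≤ _ := by
        refine mul_le_mul (Real.sqrt_le_sqrt ?_) (Real.sqrt_le_sqrt ?_) (Real.sqrt_nonneg _)
          (Real.sqrt_nonneg _)
        · calc ∫ x, ‖Sop w τ (Fz z) x‖ ^ 2 ∂ν1 ≤ ∫ x in Ioi (0 : ℝ), ‖Sop w τ (Fz z) x‖ ^ 2 :=
                setIntegral_mono_set hi (Eventually.of_forall fun x => by positivity)
                  Ioo_subset_Ioi_self.eventuallyLE
            _ ≤ ∫ x in Ioi (0 : ℝ), ‖Fz z x‖ ^ 2 := hle
            _ = ∫ x in Ioc 0 R, ‖Fz z x‖ ^ 2 := by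
                refine setIntegral_eq_of_subset_of_forall_sdiff_eq_zero measurableSet_Ioi
                  Ioc_subset_Ioi_self (fun x hx => ?_)
                have : R ≤ x := by
                  by_contra hcon
                  push Not at hcon
                  exact hx.2 ⟨hx.1, hcon.le⟩
                simp [hFz, hR x this]
            _ ≤ ∫ x in (0 : ℝ)..R, (‖F x‖ ^ 2 + ε ^ 2) ^ (p / 2) := by
                rw [intervalIntegral.integral_of_le hR0.le]
                have hc3 : Continuous fun x => (‖F x‖ ^ 2 + ε ^ 2) ^ (p / 2) :=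
                  ((hFc.norm.pow 2).add continuous_const).rpow_const (fun x => Or.inr (by positivity))
                refine setIntegral_mono ?_ ?_ (fun x => hFz2 x)
                · exact (((hGoodz z).1.continuous.norm.pow 2).integrableOn_Icc).mono_set Ioc_subset_Icc_self
                · exact (hc3.integrableOn_Icc).mono_set Ioc_subset_Icc_self
        · exact integral_mono hGi hGq (fun x => hGz2 x)
  -- the right line
  have hb : ∀ z ∈ re ⁻¹' {(1 : ℝ)}, ‖Φ z‖ ≤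
      (1 + ∫ s in Ioi (0 : ℝ), |w s|) * ((∫ x in Ioo 0 T, ‖G x‖ ^ q) + ε ^ q * T) := by
    intro z hz
    have hz1 : z.re = 1 := hz
    have hF1 : ∀ x, ‖Fz z x‖ ≤ 1 := by
      intro x
      rw [hnF, hlre, hz1]
      have e : (p / 2 - 1) / 2 - p / 4 * 1 = -(1 / 2) := by ring
      rw [e, Real.rpow_neg (by positivity), ← Real.sqrt_eq_rpow, ← div_eq_mul_inv,
        div_le_one (Real.sqrt_pos.2 (by positivity))]
      apply Real.le_sqrt_of_sq_le
      linarith
    have hG1 : ∀ x, ‖Gz z x‖ ≤ ‖G x‖ ^ q + ε ^ q := by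
      intro x
      rw [hnG, hmre, hz1]
      have e : (q / 2 - 1) / 2 + q / 4 * 1 = q / 2 - 1 / 2 := by ring
      rw [e]
      have h3 : ‖G x‖ ≤ (‖G x‖ ^ 2 + ε ^ 2) ^ (1 / 2 : ℝ) := by
        rw [← Real.sqrt_eq_rpow]
        apply Real.le_sqrt_of_sq_le
        linarith
      calc ‖G x‖ * (‖G x‖ ^ 2 + ε ^ 2) ^ (q / 2 - 1 / 2)
          ≤ (‖G x‖ ^ 2 + ε ^ 2) ^ (1 / 2 : ℝ) * (‖G x‖ ^ 2 + ε ^ 2) ^ (q / 2 - 1 / 2) := by gcongr
        _ = (‖G x‖ ^ 2 + ε ^ 2) ^ (q / 2) := by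
            rw [← Real.rpow_add (by positivity)]
            congr 1; ring
        _ ≤ (‖G x‖ ^ 2) ^ (q / 2) + (ε ^ 2) ^ (q / 2) :=
            Real.rpow_add_le_add_rpow (by positivity) (by positivity) (by linarith) (by linarith)
        _ = ‖G x‖ ^ q + ε ^ q := by
            rw [← Real.rpow_natCast, ← Real.rpow_natCast, ← Real.rpow_mul (norm_nonneg _),
              ← Real.rpow_mul hε.le]
            congr 2 <;> (push_cast; ring)
    have hS1 : ∀ x, ‖Sop w τ (Fz z) x‖ ≤ 1 + ∫ s in Ioi (0 : ℝ), |w s| := by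
      intro x
      have := Sop_le (τ := τ) hw hF1 x
      linarith
    have hN0 : 0 ≤ 1 + ∫ s in Ioi (0 : ℝ), |w s| := by
      have : 0 ≤ ∫ s in Ioi (0 : ℝ), |w s| := integral_nonneg fun s => abs_nonneg _
      linarith
    have hi3 : Integrable (fun x => (1 + ∫ s in Ioi (0 : ℝ), |w s|) * (‖G x‖ ^ q + ε ^ q)) ν1 :=
      (hGq.add (integrable_const _)).const_mul _
    calc ‖Φ z‖ ≤ ∫ x, (1 + ∫ s in Ioi (0 : ℝ), |w s|) * (‖G x‖ ^ q + ε ^ q) ∂ν1 := by
          refine norm_integral_le_of_norm_le hi3 (Eventually.of_forall fun x => ?_)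
          rw [norm_mul]
          exact mul_le_mul (hS1 x) (hG1 x) (norm_nonneg _) hN0
      _ = _ := by
          rw [integral_const_mul, integral_add hGq (integrable_const _)]
          congr 2
          rw [integral_const, smul_eq_mul, mul_comm]
          congr 1
          simp [Measure.real, hT.le]
  -- conclusion
  have hmem : ((1 - 2 / p : ℝ) : ℂ) ∈ Complex.HadamardThreeLines.verticalClosedStrip 0 1 := by
    show ((1 - 2 / p : ℝ) : ℂ).re ∈ Icc (0 : ℝ) 1
    rw [Complex.ofReal_re]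
    have h3 : 2 / p < 1 := by rw [div_lt_one hp0]; exact hp
    have h4 : 0 < 2 / p := by positivity
    exact ⟨by linarith, by linarith⟩
  have hfin := Complex.HadamardThreeLines.norm_le_interp_of_mem_verticalClosedStrip'
    (zero_lt_one) hmem hΦd.diffContOnCl hbdd ha hb
  rw [Complex.ofReal_re] at hfin
  have e1 : 1 - (1 - 2 / p - 0) / (1 - 0) = 2 / p := by ring
  have e2 : (1 - 2 / p - 0) / (1 - 0) = 1 - 2 / p := by ring
  rw [e1, e2] at hfin
  have hlam0 : lam ((1 - 2 / p : ℝ) : ℂ) = 0 := by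
    simp only [hlam]
    have : (p : ℂ) ≠ 0 := by exact_mod_cast hp0.ne'
    push_cast
    field_simp
    ring
  have hmu0 : mu ((1 - 2 / p : ℝ) : ℂ) = 0 := by
    have e3 : (q / 2 - 1) / 2 + q / 4 * (1 - 2 / p) = 0 := by
      have h5 : 1 / p = 1 - 1 / q := by linarith
      have h6 : 2 / p = 2 * (1 - 1 / q) := by rw [← h5]; ring
      rw [h6]
      field_simp
      ring
    simp only [hmu]
    have : ((q / 2 - 1) / 2 : ℂ) + (q / 4 : ℂ) * ((1 - 2 / p : ℝ) : ℂ) =
        (((q / 2 - 1) / 2 + q / 4 * (1 - 2 / p) : ℝ) : ℂ) := by push_cast; ring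
    rw [this, e3, Complex.ofReal_zero]
  have hFzz : Fz ((1 - 2 / p : ℝ) : ℂ) = F := by
    funext y
    simp only [hFz]
    rw [hlam0]
    simp
  have hGzz : Gz ((1 - 2 / p : ℝ) : ℂ) = G := by
    funext y
    simp only [hGz]
    rw [hmu0]
    simp
  simp only [hΦ] at hfin
  rw [hFzz, hGzz] at hfin
  exact hfin

end Pool.Agent.X91.BW
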