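import Pool.Agent.X91.BW.Pol
import Pool.Agent.X91.BW.Rt
import Pool.Agent.Y282.RB.A
import Pool.Agent.Y282.RB.A1
import Pool.Agent.Y282.RB.A2
import Pool.Agent.Y282.RB.A3

/-! The powers of the Beurling transform on a single angular mode -/

set_option autoImplicit false

open MeasureTheory Set Filter Topology
open scoped FourierTransform SchwartzMap LineDeriv ContDiff

namespace Pool.Agent.X91.BW

open Pool.Agent.Y282.RB (Tn)
open Pool.Agent.Y282.RB.A2 (db dd dd_apply fd_normSq Tn_db db_iter dd_iter real_iter HH HH_smooth)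

/-- the derivative with respect to `z` of `conj z ^ i F(|z|²)` -/
theorem dd_conj {i : ℕ} {F : ℝ → ℂ} (hF : Differentiable ℝ F) {f : 𝓢(ℂ, ℂ)}
    (hf : ∀ z, f z = (starRingEnd ℂ) z ^ i * F (Complex.normSq z)) (z : ℂ) :
    dd f z = (starRingEnd ℂ) z ^ (i + 1) * deriv F (Complex.normSq z) := by
  have h1 : (f : ℂ → ℂ) = fun z : ℂ => (starRingEnd ℂ) z ^ i * F (Complex.normSq z) := funext hf
  have hc : HasFDerivAt (fun z : ℂ => (starRingEnd ℂ) z) (Complex.conjCLE : ℂ →L[ℝ] ℂ) z :=
    Complex.conjCLE.hasFDerivAt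
  have hp : HasFDerivAt (fun z : ℂ => (starRingEnd ℂ) z ^ i)
      (((ContinuousLinearMap.toSpanSingleton ℂ (i * (starRingEnd ℂ) z ^ (i - 1) : ℂ)).restrictScalars ℝ).comp
        (Complex.conjCLE : ℂ →L[ℝ] ℂ)) z :=
    HasFDerivAt.comp z ((hasDerivAt_pow i ((starRingEnd ℂ) z)).hasFDerivAt.restrictScalars ℝ) hc
  have h2 : HasFDerivAt (fun z : ℂ => F (Complex.normSq z))
      ((ContinuousLinearMap.toSpanSingleton ℝ (deriv F (Complex.normSq z))).comp
        ((2 * z.re) • Complex.reCLM + (2 * z.im) • Complex.imCLM)) z :=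
    HasFDerivAt.comp z (hF _).hasDerivAt.hasFDerivAt (fd_normSq z)
  have h3 : HasFDerivAt (fun z : ℂ => (starRingEnd ℂ) z ^ i * F (Complex.normSq z)) _ z := hp.mul h2
  rw [dd_apply, h1, h3.fderiv]
  have h4 : (starRingEnd ℂ) z = (z.re : ℂ) - z.im * Complex.I := by
    apply Complex.ext <;> simp
  simp only [ContinuousLinearMap.add_apply, ContinuousLinearMap.smul_apply,
    ContinuousLinearMap.comp_apply, ContinuousLinearMap.toSpanSingleton_apply,
    ContinuousLinearMap.coe_restrictScalars', Complex.reCLM_apply, Complex.imCLM_apply,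
    Complex.one_re, Complex.one_im, Complex.I_re, Complex.I_im, smul_eq_mul, Complex.real_smul,
    ContinuousLinearEquiv.coe_coe, Complex.conjCLE_apply, map_one, Complex.conj_I]
  push_cast
  rw [pow_succ]
  generalize (starRingEnd ℂ) z ^ (i - 1) = c1
  generalize hcc : (starRingEnd ℂ) z ^ i = c2
  rw [h4]
  linear_combination (i * c1 * F (Complex.normSq z) / 2) * Complex.I_sq

theorem dd_conj_iter {F : ℝ → ℂ} (hF : ContDiff ℝ (⊤ : ℕ∞) F) {f : 𝓢(ℂ, ℂ)}
    (hf : ∀ z, f z = F (Complex.normSq z)) (j : ℕ) (z : ℂ) :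
    dd^[j] f z = (starRingEnd ℂ) z ^ j * iteratedDeriv j F (Complex.normSq z) := by
  induction j generalizing z with
  | zero => simpa using hf z
  | succ j ih =>
    rw [Function.iterate_succ_apply', dd_conj (i := j) (F := iteratedDeriv j F) ?_ ih,
      iteratedDeriv_succ]
    exact hF.differentiable_iteratedDeriv j (by exact_mod_cast ENat.natCast_lt_top j)

end Pool.Agent.X91.BW
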