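import Pool.Agent.X91.BW.Tv2

/-! The kernel polynomials -/

set_option autoImplicit false

open MeasureTheory Set Filter Topology Polynomial

namespace Pool.Agent.X91.BW

/-- coefficients of the kernel polynomial -/
noncomputable def rc (n m i : ℕ) : ℝ :=
  (-1) ^ (i + 1) * (n.descFactorial (i + 1) : ℝ) * (m.descFactorial (i + 1) : ℝ) /
    (((i + 1).factorial : ℝ) * (i.factorial : ℝ))

lemma df_succ (n k : ℕ) : (n.descFactorial (k + 1) : ℝ) = ((n : ℝ) - k) * (n.descFactorial k : ℝ) := by
  rw [Nat.descFactorial_succ]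
  rcases le_or_gt k n with h | h
  · push_cast [Nat.cast_sub h]
    ring
  · rw [Nat.descFactorial_eq_zero_iff_lt.2 h]
    simp

lemma rc_zero (n m : ℕ) : rc n m 0 = -((n : ℝ) * m) := by
  simp [rc]

lemma rc_succ (n m i : ℕ) : rc n m (i + 1) * ((i + 2 : ℝ) * (i + 1)) =
    -(((n : ℝ) - (i + 1)) * ((m : ℝ) - (i + 1))) * rc n m i := by
  unfold rc
  rw [df_succ n (i + 1), df_succ m (i + 1), Nat.factorial_succ (i + 1), Nat.factorial_succ i]
  have h1 : (i.factorial : ℝ) ≠ 0 := by positivity
  push_cast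
  field_simp
  ring

lemma rc_comm (n m i : ℕ) : rc n m i = rc m n i := by
  unfold rc
  ring

lemma rc_eq_zero (n m i : ℕ) (h : m ≤ i) : rc n m i = 0 := by
  unfold rc
  rw [Nat.descFactorial_eq_zero_iff_lt.2 (by omega : m < i + 1)]
  simp

/-- the kernel polynomial -/
noncomputable def rp (n m : ℕ) : ℝ[X] := ∑ i ∈ Finset.range (n + m), C (rc n m i) * X ^ i

lemma rp_comm (n m : ℕ) : rp n m = rp m n := by
  unfold rp
  rw [add_comm n m]
  exact Finset.sum_congr rfl fun i _ => by rw [rc_comm]

lemma rp_coeff (n m i : ℕ) : (rp n m).coeff i = rc n m i := by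
  unfold rp
  rw [finsetSum_coeff]
  simp only [coeff_C_mul, coeff_X_pow]
  rcases lt_or_ge i (n + m) with h | h
  · rw [Finset.sum_eq_single i]
    · simp
    · intro j _ hj
      simp [Ne.symm hj]
    · intro h2
      exact absurd (Finset.mem_range.2 h) h2
  · rw [Finset.sum_eq_zero, rc_eq_zero n m i (by omega)]
    intro j hj
    have : i ≠ j := by
      have := Finset.mem_range.1 hj
      omega
    simp [this]

lemma rp_eq (n m : ℕ) (s : ℝ) : (rp n m).eval s = ∑ i ∈ Finset.range m, rc n m i * s ^ i := by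
  unfold rp
  rw [eval_finsetSum, add_comm n m, Finset.sum_range_add]
  simp only [eval_mul, eval_C, eval_pow, eval_X]
  rw [Finset.sum_eq_zero (s := Finset.range n), add_zero]
  intro i _
  rw [rc_eq_zero n m (m + i) (by omega), zero_mul]

/-- the equation for the polynomial `X * rp` -/
lemma pol_ode (n m : ℕ) : (1 + X) * derivative (derivative (X * rp n m)) +
    C (1 - ((n : ℝ) + m)) * derivative (X * rp n m) + C ((n : ℝ) * m) * rp n m = 0 := by
  have hc : ∀ i, (X * rp n m).coeff (i + 1) = rc n m i := fun i => by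
    rw [coeff_X_mul, rp_coeff]
  ext i
  rw [coeff_zero, coeff_add, coeff_add, add_mul, one_mul, coeff_add, coeff_C_mul, coeff_C_mul,
    rp_coeff]
  cases i with
  | zero =>
    rw [coeff_X_mul_zero]
    simp only [coeff_derivative, hc]
    have h1 := rc_succ n m 0
    push_cast at h1 ⊢
    linarith
  | succ i =>
    rw [coeff_X_mul]
    simp only [coeff_derivative, hc]
    have h1 := rc_succ n m (i + 1)
    push_cast at h1 ⊢
    linarith

/-- `H`, `K` and the kernel -/
noncomputable def AA (n m : ℕ) (s : ℝ) : ℝ := (1 + |s|) ^ (-(((n : ℝ) + m) / 2))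

noncomputable def ww (n m : ℕ) (s : ℝ) : ℝ := AA n m s * (rp n m).eval s

noncomputable def Hf (n m : ℕ) (s : ℝ) : ℝ := AA n m s * (X * rp n m).eval s

noncomputable def Kf (n m : ℕ) (s : ℝ) : ℝ :=
  AA n m s * ((1 + s) * (derivative (X * rp n m)).eval s - ((n : ℝ) + m) / 2 * (X * rp n m).eval s)

lemma AA_deriv (n m : ℕ) (s : ℝ) (hs0 : 0 < s) :
    HasDerivAt (AA n m) (-(((n : ℝ) + m) / 2) * AA n m s / (1 + s)) s := by
  have hs : 0 < 1 + s := by linarith
  have h1 := ((hasDerivAt_id s).const_add 1).rpow_const (p := -(((n : ℝ) + m) / 2)) (Or.inl hs.ne')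
  have h2 : HasDerivAt (AA n m) _ s := h1.congr_of_eventuallyEq (by
    filter_upwards [lt_mem_nhds hs0] with t ht
    unfold AA
    rw [abs_of_pos ht]
    rfl)
  refine h2.congr_deriv ?_
  unfold AA
  simp only [id, abs_of_pos hs0]
  rw [Real.rpow_sub_one hs.ne']
  ring

lemma sys (n m : ℕ) : Sys ((n : ℝ) * m) ((((n : ℝ) - m) / 2) ^ 2) (Hf n m) (Kf n m) := by
  constructor
  · intro s hs
    have h1 : (0 : ℝ) < 1 + s := by linarith
    have h2 := (AA_deriv n m s hs).mul ((X * rp n m).hasDerivAt s)
    have h3 : HasDerivAt (Hf n m) _ s := h2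
    refine h3.congr_deriv ?_
    unfold Kf
    field_simp
    ring
  · intro s hs
    have h1 : (0 : ℝ) < 1 + s := by linarith
    have h2 := (AA_deriv n m s hs).mul ((((hasDerivAt_id s).const_add 1).mul
      ((derivative (X * rp n m)).hasDerivAt s)).sub (((X * rp n m).hasDerivAt s).const_mul (((n : ℝ) + m) / 2)))
    have h3 : HasDerivAt (Kf n m) _ s := h2
    refine h3.congr_deriv ?_
    have h4 := congrArg (fun q => Polynomial.eval s q) (pol_ode n m)
    simp only [eval_add, eval_mul, eval_one, eval_X, eval_C, eval_zero] at h4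
    unfold Hf
    simp only [Pi.sub_apply, Pi.mul_apply, id, eval_mul, eval_X]
    generalize (derivative (derivative (X * rp n m))).eval s = p2 at *
    generalize (derivative (X * rp n m)).eval s = p1 at *
    generalize (rp n m).eval s = p0 at *
    generalize AA n m s = A
    field_simp
    linear_combination (4 * A * (1 + s)) * h4

end Pool.Agent.X91.BW
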