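import Pool.Agent.X91.BW.Ode

/-! Total variation bound from the energy estimates -/

set_option autoImplicit false

open MeasureTheory Set Filter Topology

namespace Pool.Agent.X91.BW

variable {P b : ℝ} {H K : ℝ → ℝ}

lemma E_anti (h : Sys P b H K) (hP : 0 ≤ P) : AntitoneOn (EE P b H K) (Ioi 0) := by
  refine antitoneOn_of_deriv_nonpos (convex_Ioi 0)
    (fun s hs => (dE h s hs).continuousAt.continuousWithinAt)
    (fun s hs => ?_) (fun s hs => ?_)
  · rw [interior_Ioi] at hs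
    exact (dE h s hs).differentiableAt.differentiableWithinAt
  · rw [interior_Ioi] at hs
    rw [(dE h s hs).deriv]
    have : 0 ≤ P / s ^ 2 * H s ^ 2 := by positivity
    linarith

lemma E_le (h : Sys P b H K) (hP : 0 ≤ P)
    (hE0 : Tendsto (EE P b H K) (𝓝[>] 0) (𝓝 (P ^ 2))) (s : ℝ) (hs : 0 < s) :
    EE P b H K s ≤ P ^ 2 := by
  refine ge_of_tendsto hE0 ?_
  filter_upwards [Ioo_mem_nhdsGT hs] with t ht
  exact E_anti h hP (show t ∈ Ioi (0 : ℝ) from ht.1) hs ht.2.le

lemma H_le (h : Sys P b H K) (hP : 0 < P) (hbP : b ≤ P ^ 2)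
    (hE0 : Tendsto (EE P b H K) (𝓝[>] 0) (𝓝 (P ^ 2)))
    (hc : ContinuousOn H (Ici 0)) (h0 : H 0 = 0) (s : ℝ) (hs : 0 ≤ s) (hs1 : s ≤ 1 / P) :
    |H s| ≤ P * s := by
  have hK : ∀ t, 0 < t → t ≤ 1 / P → |K t| ≤ P := by
    intro t ht ht1
    have h1 := E_le h hP.le hE0 t ht
    have h2 : P ^ 2 ≤ P / t := by
      rw [le_div_iff₀ ht]
      rw [le_div_iff₀ hP] at ht1
      nlinarith
    have h3 : 0 ≤ (P / t - b) * H t ^ 2 := mul_nonneg (by linarith) (sq_nonneg _)
    unfold EE at h1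
    have h4 : K t ^ 2 ≤ P ^ 2 := by linarith
    exact abs_le_of_sq_le_sq h4 hP.le
  have hd : ∀ t, 0 < t → t ≤ 1 / P → |K t / (1 + t)| ≤ P := by
    intro t ht ht1
    rw [abs_div, abs_of_pos (by linarith : (0 : ℝ) < 1 + t), div_le_iff₀ (by linarith)]
    nlinarith [hK t ht ht1]
  have key : ∀ e : ℝ, |e| ≤ 1 → MonotoneOn (fun t => P * t - e * H t) (Icc 0 (1 / P)) := by
    intro e he
    refine monotoneOn_of_deriv_nonneg (convex_Icc _ _) ?_ ?_ ?_
    · exact (continuousOn_const.mul continuousOn_id).sub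
        (continuousOn_const.mul (hc.mono Icc_subset_Ici_self))
    · intro t ht
      rw [interior_Icc] at ht
      exact (((hasDerivAt_id t).const_mul P).sub ((h.hH t ht.1).const_mul e)).differentiableAt.differentiableWithinAt
    · intro t ht
      rw [interior_Icc] at ht
      have := ((hasDerivAt_id t).const_mul P).sub ((h.hH t ht.1).const_mul e)
      rw [show (fun t => P * t - e * H t) = ((fun y => P * id y) - fun y => e * H y) from rfl, this.deriv]
      have h1 := hd t ht.1 ht.2.le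
      have h2 : |e * (K t / (1 + t))| ≤ P := by
        rw [abs_mul]
        nlinarith [abs_nonneg (K t / (1 + t)), abs_nonneg e]
      have h3 := (abs_le.1 h2).2
      linarith
  have m0 : (0 : ℝ) ∈ Icc 0 (1 / P) := ⟨le_rfl, by positivity⟩
  have k1 := key 1 (by norm_num) m0 ⟨hs, hs1⟩ hs
  have k2 := key (-1) (by norm_num) m0 ⟨hs, hs1⟩ hs
  simp only [h0, mul_zero, sub_zero] at k1 k2
  rw [abs_le]
  constructor <;> linarith

/-- the combined energy -/
noncomputable def WW (P b : ℝ) (H K : ℝ → ℝ) (s : ℝ) : ℝ :=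
  VV P b H K s + 3 / 16 / √P * EE P b H K s

lemma dW (h : Sys P b H K) (hP : 0 < P) (s : ℝ) (hs : 0 < s) :
    HasDerivAt (WW P b H K)
      (3 / 16 * (H s ^ 2 / s ^ 2) * (1 / √s - √P) - (b - 1 / 16) * H s ^ 2 / √s) s := by
  have h1 := (dV h s hs).add ((dE h s hs).const_mul (3 / 16 / √P))
  have h2 : HasDerivAt (WW P b H K) _ s := h1
  refine h2.congr_deriv ?_
  have e1 : P = √P * √P := (Real.mul_self_sqrt hP.le).symm
  have hp : 0 < √P := Real.sqrt_pos.2 hP
  have hσ : 0 < √s := Real.sqrt_pos.2 hs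
  generalize √s = σ at *
  have : 3 / 16 / √P * (-(P / s ^ 2) * H s ^ 2) = -(3 / 16) * √P * (H s ^ 2 / s ^ 2) := by
    nth_rewrite 2 [e1]
    field_simp
  rw [this]
  field_simp
  ring

lemma W_one (h : Sys P b H K) (hP : 0 < P) (hbP : b ≤ P ^ 2) (hb : 1 / 16 ≤ b)
    (hE0 : Tendsto (EE P b H K) (𝓝[>] 0) (𝓝 (P ^ 2)))
    (hV0 : Tendsto (VV P b H K) (𝓝[>] 0) (𝓝 0))
    (hc : ContinuousOn H (Ici 0)) (h0 : H 0 = 0) :
    WW P b H K (1 / P) ≤ 3 / 8 * (P * √P) := by
  have hp : 0 < √P := Real.sqrt_pos.2 hP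
  have e1 : √P * √P = P := Real.mul_self_sqrt hP.le
  set J : ℝ → ℝ := fun s => 3 / 16 * P ^ 2 * (2 * √s - √P * s) with hJ
  have hJd : ∀ s, 0 < s → HasDerivAt J (3 / 16 * P ^ 2 * (1 / √s - √P)) s := by
    intro s hs
    have d1 : HasDerivAt (fun s : ℝ => √s) (1 / (2 * √s)) s := Real.hasDerivAt_sqrt hs.ne'
    have := ((d1.const_mul 2).sub ((hasDerivAt_id s).const_mul (√P))).const_mul (3 / 16 * P ^ 2)
    refine this.congr_deriv ?_
    have hσ : 0 < √s := Real.sqrt_pos.2 hs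
    field_simp
  have hanti : AntitoneOn (fun s => WW P b H K s - J s) (Ioc 0 (1 / P)) := by
    refine antitoneOn_of_deriv_nonpos (convex_Ioc _ _)
      (fun s hs => ((dW h hP s hs.1).sub (hJd s hs.1)).continuousAt.continuousWithinAt)
      (fun s hs => ?_) (fun s hs => ?_)
    · rw [interior_Ioc] at hs
      exact ((dW h hP s hs.1).sub (hJd s hs.1)).differentiableAt.differentiableWithinAt
    · rw [interior_Ioc] at hs
      have hd := (dW h hP s hs.1).sub (hJd s hs.1)
      have e : (fun s => WW P b H K s - J s) = WW P b H K - J := rfl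
      rw [e, hd.deriv]
      have hσ : 0 < √s := Real.sqrt_pos.2 hs.1
      have h1 := H_le h hP hbP hE0 hc h0 s hs.1.le hs.2.le
      have h2 : H s ^ 2 / s ^ 2 ≤ P ^ 2 := by
        rw [div_le_iff₀ (by have := hs.1; positivity), ← sq_abs (H s), ← mul_pow]
        exact pow_le_pow_left₀ (abs_nonneg _) h1 2
      have h3 : √P ≤ 1 / √s := by
        rw [le_div_iff₀ hσ, ← Real.sqrt_mul hP.le, Real.sqrt_le_one]
        have := hs.2.le
        rw [le_div_iff₀ hP] at this
        linarith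
      have h4 : 0 ≤ (b - 1 / 16) * H s ^ 2 / √s :=
        div_nonneg (mul_nonneg (by linarith) (sq_nonneg _)) hσ.le
      have h5 : 3 / 16 * (H s ^ 2 / s ^ 2) * (1 / √s - √P) ≤ 3 / 16 * P ^ 2 * (1 / √s - √P) := by
        apply mul_le_mul_of_nonneg_right _ (by linarith)
        linarith
      linarith
  have hlim : Tendsto (fun s => WW P b H K s - J s) (𝓝[>] 0) (𝓝 (0 + 3 / 16 / √P * P ^ 2 - 0)) := by
    refine (hV0.add (hE0.const_mul _)).sub ?_
    have : Continuous J := by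
      rw [hJ]; fun_prop
    have h2 := this.tendsto 0
    have h3 : J 0 = 0 := by simp [hJ]
    rw [h3] at h2
    exact h2.mono_left nhdsWithin_le_nhds
  have hle : WW P b H K (1 / P) - J (1 / P) ≤ 0 + 3 / 16 / √P * P ^ 2 - 0 := by
    refine ge_of_tendsto hlim ?_
    have hP1 : (0 : ℝ) < 1 / P := by positivity
    filter_upwards [Ioo_mem_nhdsGT hP1] with t ht
    exact hanti ⟨ht.1, ht.2.le⟩ ⟨hP1, le_rfl⟩ ht.2.le
  have hJ1 : J (1 / P) = 3 / 16 * (P * √P) := by
    simp only [hJ]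
    rw [Real.sqrt_div zero_le_one, Real.sqrt_one]
    generalize √P = σ at *
    subst e1
    field_simp
    ring
  have e3 : 3 / 16 / √P * P ^ 2 = 3 / 16 * (P * √P) := by
    generalize √P = σ at *
    subst e1
    field_simp
  rw [hJ1, e3] at hle
  linarith

lemma W_anti (h : Sys P b H K) (hP : 0 < P) (hb : 1 / 16 ≤ b) :
    AntitoneOn (WW P b H K) (Ici (1 / P)) := by
  have hP1 : (0 : ℝ) < 1 / P := by positivity
  refine antitoneOn_of_deriv_nonpos (convex_Ici _)
    (fun s hs => (dW h hP s (lt_of_lt_of_le hP1 hs)).continuousAt.continuousWithinAt)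
    (fun s hs => ?_) (fun s hs => ?_)
  · rw [interior_Ici] at hs
    exact (dW h hP s (hP1.trans hs)).differentiableAt.differentiableWithinAt
  · rw [interior_Ici] at hs
    have hs0 : 0 < s := hP1.trans hs
    rw [(dW h hP s hs0).deriv]
    have hσ : 0 < √s := Real.sqrt_pos.2 hs0
    have h3 : 1 / √s ≤ √P := by
      rw [div_le_iff₀ hσ, ← Real.sqrt_mul hP.le, Real.one_le_sqrt]
      have : 1 / P ≤ s := (le_of_lt hs)
      rw [div_le_iff₀ hP] at this
      linarith
    have h4 : 0 ≤ (b - 1 / 16) * H s ^ 2 / √s :=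
      div_nonneg (mul_nonneg (by linarith) (sq_nonneg _)) hσ.le
    have h5 : 3 / 16 * (H s ^ 2 / s ^ 2) * (1 / √s - √P) ≤ 0 :=
      mul_nonpos_of_nonneg_of_nonpos (by positivity) (by linarith)
    linarith

lemma W_le (h : Sys P b H K) (hP : 0 < P) (hbP : b ≤ P ^ 2) (hb : 1 / 16 ≤ b)
    (hE0 : Tendsto (EE P b H K) (𝓝[>] 0) (𝓝 (P ^ 2)))
    (hV0 : Tendsto (VV P b H K) (𝓝[>] 0) (𝓝 0))
    (hc : ContinuousOn H (Ici 0)) (h0 : H 0 = 0) (s : ℝ) (hs : 1 / P ≤ s) :
    WW P b H K s ≤ 3 / 8 * (P * √P) :=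
  (W_anti h hP hb (mem_Ici.2 le_rfl) hs hs).trans (W_one h hP hbP hb hE0 hV0 hc h0)

/-- pointwise bound in the middle region -/
lemma H_mid (h : Sys P b H K) (hP : 6 ≤ P) (hb : 1 / 4 ≤ b) (hbP : 16 * b - 1 ≤ P ^ 2)
    (hE0 : Tendsto (EE P b H K) (𝓝[>] 0) (𝓝 (P ^ 2)))
    (hV0 : Tendsto (VV P b H K) (𝓝[>] 0) (𝓝 0))
    (hc : ContinuousOn H (Ici 0)) (h0 : H 0 = 0) (s : ℝ) (hs : 1 / P ≤ s)
    (hs2 : s ≤ P / (16 * b - 1)) :
    H s ^ 2 ≤ 25 / 48 * (√P * √s) := by
  have hP0 : 0 < P := by linarith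
  have hP1 : (0 : ℝ) < 1 / P := by positivity
  have hs0 : 0 < s := lt_of_lt_of_le hP1 hs
  have hσ : 0 < √s := Real.sqrt_pos.2 hs0
  have hp : 0 < √P := Real.sqrt_pos.2 hP0
  have e1 : √P * √P = P := Real.mul_self_sqrt hP0.le
  have e2 : √s * √s = s := Real.mul_self_sqrt hs0.le
  have hW := W_le h hP0 (by nlinarith) (by linarith) hE0 hV0 hc h0 s hs
  have hbs : (16 * b - 1) * s ≤ P := by
    rw [le_div_iff₀ (by linarith)] at hs2
    linarith
  have hPs : 1 ≤ P * s := by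
    rw [div_le_iff₀ hP0] at hs
    linarith
  have hE : 0 ≤ EE P b H K s := by
    unfold EE
    have : b ≤ P / s := by
      rw [le_div_iff₀ hs0]
      nlinarith
    have : 0 ≤ (P / s - b) * H s ^ 2 := mul_nonneg (by linarith) (sq_nonneg _)
    positivity
  have hV : VV P b H K s ≤ 3 / 8 * (P * √P) := by
    unfold WW at hW
    have : 0 ≤ 3 / 16 / √P * EE P b H K s := by positivity
    linarith
  have hlow : 18 / 25 * P * H s ^ 2 / √s ≤ VV P b H K s := by
    unfold VV
    have e3 : √s * (K s ^ 2 + (P / s - b) * H s ^ 2) - (1 + s) / (2 * √s) * (H s * K s) +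
        (1 + s) * (s - 1) / (8 * (s * √s)) * H s ^ 2 - 18 / 25 * P * H s ^ 2 / √s =
        √s * (K s - (1 + s) / (4 * s) * H s) ^ 2 +
        ((P - 1 / 8) * s - (b - 1 / 16) * s ^ 2 - 3 / 16 - 18 / 25 * P * s) / (s * √s) * H s ^ 2 := by
      generalize √s = σ at *
      subst e2
      field_simp
      ring
    have h4 : 0 ≤ (P - 1 / 8) * s - (b - 1 / 16) * s ^ 2 - 3 / 16 - 18 / 25 * P * s := by
      nlinarith [mul_le_mul_of_nonneg_left hbs hs0.le]
    have h5 : 0 ≤ √s * (K s - (1 + s) / (4 * s) * H s) ^ 2 +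
        ((P - 1 / 8) * s - (b - 1 / 16) * s ^ 2 - 3 / 16 - 18 / 25 * P * s) / (s * √s) * H s ^ 2 := by
      have : 0 ≤ ((P - 1 / 8) * s - (b - 1 / 16) * s ^ 2 - 3 / 16 - 18 / 25 * P * s) / (s * √s) :=
        div_nonneg h4 (by positivity)
      positivity
    linarith
  have h6 : 18 / 25 * P * H s ^ 2 / √s ≤ 3 / 8 * (P * √P) := hlow.trans hV
  rw [div_le_iff₀ hσ] at h6
  have h7 : P * (H s ^ 2) ≤ P * (25 / 48 * (√P * √s)) := by nlinarith
  exact le_of_mul_le_mul_left h7 hP0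

/-- the integral over the far region -/
lemma far (h : Sys P b H K) (hP : 6 ≤ P) (hb : 1 / 4 ≤ b) (hbP : 16 * b - 1 ≤ P ^ 2)
    (hE0 : Tendsto (EE P b H K) (𝓝[>] 0) (𝓝 (P ^ 2)))
    (hV0 : Tendsto (VV P b H K) (𝓝[>] 0) (𝓝 0))
    (hc : ContinuousOn H (Ici 0)) (h0 : H 0 = 0) (S R : ℝ) (hS : 1 / P ≤ S) (hR : S ≤ R)
    (t : ℝ) (ht : 0 < t) :
    ∫ s in S..R, |H s| / s ≤
      t / 2 * ((3 / 8 * (P * √P) - WW P b H K R) / (b - 1 / 16)) + 1 / t * (1 / √S) := by
  have hP0 : 0 < P := by linarith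
  have hP1 : (0 : ℝ) < 1 / P := by positivity
  have hS0 : 0 < S := lt_of_lt_of_le hP1 hS
  have hB : 0 < b - 1 / 16 := by linarith
  have hHc : ContinuousOn H (Icc S R) := hc.mono (fun x hx => le_trans hS0.le hx.1)
  have hsc : ContinuousOn (fun s : ℝ => √s) (Icc S R) := Real.continuous_sqrt.continuousOn
  have hne : ∀ x ∈ Icc S R, √x ≠ 0 := fun x hx => (Real.sqrt_pos.2 (lt_of_lt_of_le hS0 hx.1)).ne'
  have hne' : ∀ x ∈ Icc S R, x ≠ 0 := fun x hx => (lt_of_lt_of_le hS0 hx.1).ne'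
  -- the derivative of W
  have i1 : IntervalIntegrable (fun s => (b - 1 / 16) * H s ^ 2 / √s) volume S R := by
    apply ContinuousOn.intervalIntegrable
    rw [uIcc_of_le hR]
    exact (continuousOn_const.mul (hHc.pow 2)).div hsc hne
  have hdc : ContinuousOn (fun s => 3 / 16 * (H s ^ 2 / s ^ 2) * (1 / √s - √P) -
      (b - 1 / 16) * H s ^ 2 / √s) (Icc S R) := by
    refine ContinuousOn.sub (ContinuousOn.mul (continuousOn_const.mul ((hHc.pow 2).div
      (continuousOn_id.pow 2) (fun x hx => pow_ne_zero 2 (hne' x hx)))) ?_)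
      ((continuousOn_const.mul (hHc.pow 2)).div hsc hne)
    exact (continuousOn_const.div hsc hne).sub continuousOn_const
  have i2 : IntervalIntegrable (fun s => 3 / 16 * (H s ^ 2 / s ^ 2) * (1 / √s - √P) -
      (b - 1 / 16) * H s ^ 2 / √s) volume S R := by
    apply ContinuousOn.intervalIntegrable
    rwa [uIcc_of_le hR]
  have hW : ∫ s in S..R, (3 / 16 * (H s ^ 2 / s ^ 2) * (1 / √s - √P) -
      (b - 1 / 16) * H s ^ 2 / √s) = WW P b H K R - WW P b H K S := by
    refine intervalIntegral.integral_eq_sub_of_hasDerivAt (fun x hx => ?_) i2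
    rw [uIcc_of_le hR] at hx
    exact dW h hP0 x (lt_of_lt_of_le hS0 hx.1)
  have hle : ∫ s in S..R, (b - 1 / 16) * H s ^ 2 / √s ≤ 3 / 8 * (P * √P) - WW P b H K R := by
    have h1 : ∫ s in S..R, (b - 1 / 16) * H s ^ 2 / √s ≤
        ∫ s in S..R, -(3 / 16 * (H s ^ 2 / s ^ 2) * (1 / √s - √P) -
          (b - 1 / 16) * H s ^ 2 / √s) := by
      refine intervalIntegral.integral_mono_on hR i1 i2.neg (fun s hs => ?_)
      have hs0 : 0 < s := lt_of_lt_of_le hS0 hs.1
      have hσ : 0 < √s := Real.sqrt_pos.2 hs0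
      have h3 : 1 / √s ≤ √P := by
        rw [div_le_iff₀ hσ, ← Real.sqrt_mul hP0.le, Real.one_le_sqrt]
        have : 1 / P ≤ s := hS.trans hs.1
        rw [div_le_iff₀ hP0] at this
        linarith
      have h5 : 3 / 16 * (H s ^ 2 / s ^ 2) * (1 / √s - √P) ≤ 0 :=
        mul_nonpos_of_nonneg_of_nonpos (by positivity) (by linarith)
      linarith
    rw [intervalIntegral.integral_neg, hW] at h1
    have h2 := W_le h hP0 (by nlinarith) (by linarith) hE0 hV0 hc h0 S hS
    linarith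
  -- the comparison
  have i3 : IntervalIntegrable (fun s : ℝ => 1 / (s * √s)) volume S R := by
    apply ContinuousOn.intervalIntegrable
    rw [uIcc_of_le hR]
    exact continuousOn_const.div (continuousOn_id.mul hsc) (fun x hx => mul_ne_zero (hne' x hx) (hne x hx))
  have hI3 : ∫ s in S..R, 1 / (s * √s) = 2 / √S - 2 / √R := by
    have hd : ∀ x ∈ uIcc S R, HasDerivAt (fun s : ℝ => -2 / √s) (1 / (x * √x)) x := by
      intro x hx
      rw [uIcc_of_le hR] at hx
      have hx0 : 0 < x := lt_of_lt_of_le hS0 hx.1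
      have hσ : 0 < √x := Real.sqrt_pos.2 hx0
      have e2 : √x * √x = x := Real.mul_self_sqrt hx0.le
      have d1 : HasDerivAt (fun s : ℝ => √s) (1 / (2 * √x)) x := Real.hasDerivAt_sqrt hx0.ne'
      have := (hasDerivAt_const x (-2 : ℝ)).div d1 hσ.ne'
      refine this.congr_deriv ?_
      generalize √x = σ at *
      subst e2
      field_simp
      ring
    rw [intervalIntegral.integral_eq_sub_of_hasDerivAt hd i3]
    ring
  have i4 : IntervalIntegrable (fun s => |H s| / s) volume S R := by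
    apply ContinuousOn.intervalIntegrable
    rw [uIcc_of_le hR]
    exact hHc.abs.div continuousOn_id hne'
  have hcmp : ∫ s in S..R, |H s| / s ≤
      ∫ s in S..R, (t / 2 / (b - 1 / 16) * ((b - 1 / 16) * H s ^ 2 / √s) + 1 / (2 * t) * (1 / (s * √s))) := by
    refine intervalIntegral.integral_mono_on hR i4 ((i1.const_mul _).add (i3.const_mul _)) (fun s hs => ?_)
    have hs0 : 0 < s := lt_of_lt_of_le hS0 hs.1
    have hσ : 0 < √s := Real.sqrt_pos.2 hs0
    have e2 : √s * √s = s := Real.mul_self_sqrt hs0.le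
    have e4 : t / 2 / (b - 1 / 16) * ((b - 1 / 16) * H s ^ 2 / √s) = t / 2 * |H s| ^ 2 / √s := by
      rw [sq_abs]
      have hB' := hB.ne'
      generalize b - 1 / 16 = B at hB'
      field_simp
    rw [e4]
    have e5 : t / 2 * |H s| ^ 2 / √s + 1 / (2 * t) * (1 / (s * √s)) - |H s| / s =
        (t * √s * |H s| - 1) ^ 2 / (2 * t * (s * √s)) := by
      generalize √s = σ at *
      subst e2
      field_simp
      ring
    have : 0 ≤ (t * √s * |H s| - 1) ^ 2 / (2 * t * (s * √s)) := by positivity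
    linarith
  rw [intervalIntegral.integral_add (i1.const_mul _) (i3.const_mul _),
    intervalIntegral.integral_const_mul, intervalIntegral.integral_const_mul, hI3] at hcmp
  refine hcmp.trans ?_
  have h8 : t / 2 / (b - 1 / 16) * ∫ s in S..R, (b - 1 / 16) * H s ^ 2 / √s ≤
      t / 2 / (b - 1 / 16) * (3 / 8 * (P * √P) - WW P b H K R) :=
    mul_le_mul_of_nonneg_left hle (by positivity)
  have h9 : 1 / (2 * t) * (2 / √S - 2 / √R) ≤ 1 / t * (1 / √S) := by
    have : 0 ≤ 2 / √R := by positivity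
    have h10 : 1 / (2 * t) * (2 / √S - 2 / √R) ≤ 1 / (2 * t) * (2 / √S) :=
      mul_le_mul_of_nonneg_left (by linarith) (by positivity)
    refine h10.trans (le_of_eq ?_)
    field_simp
  have e6 : t / 2 / (b - 1 / 16) * (3 / 8 * (P * √P) - WW P b H K R) =
      t / 2 * ((3 / 8 * (P * √P) - WW P b H K R) / (b - 1 / 16)) := by ring
  linarith

end Pool.Agent.X91.BW
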