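import Pool.Agent.X91.BW.Tv

/-! Total variation bound: assembly -/

set_option autoImplicit false

open MeasureTheory Set Filter Topology

namespace Pool.Agent.X91.BW

variable {P b : ℝ} {H K : ℝ → ℝ}

lemma quarter (S : ℝ) (T : ℝ) (hS : 0 < S) (hT : S ≤ T) :
    IntervalIntegrable (fun s : ℝ => √(√s) / s) volume S T ∧
    ∫ s in S..T, √(√s) / s ≤ 4 * √(√T) := by
  have hne : ∀ x ∈ Icc S T, x ≠ 0 := fun x hx => (lt_of_lt_of_le hS hx.1).ne'
  have hc : ContinuousOn (fun s : ℝ => √(√s) / s) (Icc S T) :=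
    (Real.continuous_sqrt.comp Real.continuous_sqrt).continuousOn.div continuousOn_id hne
  have hi : IntervalIntegrable (fun s : ℝ => √(√s) / s) volume S T := by
    apply ContinuousOn.intervalIntegrable
    rwa [uIcc_of_le hT]
  refine ⟨hi, ?_⟩
  have hd : ∀ x ∈ uIcc S T, HasDerivAt (fun s : ℝ => 4 * √(√s)) (√(√x) / x) x := by
    intro x hx
    rw [uIcc_of_le hT] at hx
    have hx0 : 0 < x := lt_of_lt_of_le hS hx.1
    have hσ : 0 < √x := Real.sqrt_pos.2 hx0
    have hτ : 0 < √(√x) := Real.sqrt_pos.2 hσ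
    have e2 : √x * √x = x := Real.mul_self_sqrt hx0.le
    have e3 : √(√x) * √(√x) = √x := Real.mul_self_sqrt hσ.le
    have d1 : HasDerivAt (fun s : ℝ => √s) (1 / (2 * √x)) x := Real.hasDerivAt_sqrt hx0.ne'
    have d2 := (d1.sqrt hσ.ne').const_mul 4
    refine d2.congr_deriv ?_
    generalize √(√x) = τ at *
    generalize √x = σ at *
    subst e3
    subst e2
    field_simp
    ring
  rw [intervalIntegral.integral_eq_sub_of_hasDerivAt hd hi]
  have : 0 ≤ √(√S) := Real.sqrt_nonneg _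
  linarith

/-- the bound on `(0, S)` where `S = P / (16 b - 1)` -/
lemma near (h : Sys P b H K) (hP : 6 ≤ P) (hb : 1 / 4 ≤ b) (hbP : 16 * b - 1 ≤ P ^ 2)
    (hE0 : Tendsto (EE P b H K) (𝓝[>] 0) (𝓝 (P ^ 2)))
    (hV0 : Tendsto (VV P b H K) (𝓝[>] 0) (𝓝 0))
    (w : ℝ → ℝ) (hw : Continuous w) (hHw : ∀ s, H s = s * w s) (hw0 : |w 0| ≤ P)
    (hc : ContinuousOn H (Ici 0)) :
    ∫ s in (0 : ℝ)..(P / (16 * b - 1)), |w s| ≤
      1 + √(25 / 48 * √P) * (4 * √(√(P / (16 * b - 1)))) := by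
  have hP0 : 0 < P := by linarith
  have hP1 : (0 : ℝ) < 1 / P := by positivity
  have h0 : H 0 = 0 := by rw [hHw]; ring
  have hS : 1 / P ≤ P / (16 * b - 1) := by
    rw [div_le_div_iff₀ hP0 (by linarith)]
    nlinarith
  have hi : ∀ x y : ℝ, IntervalIntegrable (fun s => |w s|) volume x y := fun x y =>
    hw.abs.intervalIntegrable x y
  rw [← intervalIntegral.integral_add_adjacent_intervals (hi 0 (1 / P)) (hi (1 / P) _)]
  refine add_le_add ?_ ?_
  · have h1 : ∫ s in (0 : ℝ)..(1 / P), |w s| ≤ ∫ _s in (0 : ℝ)..(1 / P), P := by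
      refine intervalIntegral.integral_mono_on hP1.le (hi _ _) (by simp) (fun s hs => ?_)
      rcases eq_or_lt_of_le hs.1 with h2 | h2
      · rw [← h2]; exact hw0
      · have h3 := H_le h hP0 (by nlinarith) hE0 hc h0 s hs.1 hs.2
        rw [hHw, abs_mul, abs_of_pos h2, mul_comm] at h3
        exact le_of_mul_le_mul_right h3 h2
    refine h1.trans ?_
    rw [intervalIntegral.integral_const, smul_eq_mul]
    field_simp
    linarith
  · obtain ⟨q1, q2⟩ := quarter (1 / P) (P / (16 * b - 1)) hP1 hS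
    have h1 : ∫ s in (1 / P)..(P / (16 * b - 1)), |w s| ≤
        ∫ s in (1 / P)..(P / (16 * b - 1)), √(25 / 48 * √P) * (√(√s) / s) := by
      refine intervalIntegral.integral_mono_on hS (hi _ _) (q1.const_mul _) (fun s hs => ?_)
      have hs0 : 0 < s := lt_of_lt_of_le hP1 hs.1
      have h2 := H_mid h hP hb hbP hE0 hV0 hc h0 s hs.1 hs.2
      have h3 : |H s| ≤ √(25 / 48 * √P) * √(√s) := by
        rw [← Real.sqrt_mul (by positivity)]
        apply Real.abs_le_sqrt
        linarith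
      rw [hHw, abs_mul, abs_of_pos hs0] at h3
      rw [← mul_div_assoc, le_div_iff₀ hs0]
      linarith
    refine h1.trans ?_
    rw [intervalIntegral.integral_const_mul]
    exact mul_le_mul_of_nonneg_left q2 (Real.sqrt_nonneg _)

/-- the limit of the combined energy -/
lemma W_lim (hP : 6 ≤ P) (hb : 1 / 4 ≤ b) {C : ℝ} (hC0 : 0 ≤ C)
    (hC : ∀ s, 1 ≤ s → H s ^ 2 ≤ C / s) (s : ℝ) (hs : 1 ≤ s) :
    -(4 * b * C / √s) ≤ WW P b H K s := by
  have hP0 : 0 < P := by linarith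
  have hs0 : 0 < s := by linarith
  have hσ : 0 < √s := Real.sqrt_pos.2 hs0
  have hσ1 : 1 ≤ √s := Real.one_le_sqrt.2 hs
  have hp : 1 ≤ √P := Real.one_le_sqrt.2 (by linarith)
  have e2 : √s * √s = s := Real.mul_self_sqrt hs0.le
  have hH := hC s hs
  have e3 : VV P b H K s + (b * √s) * H s ^ 2 =
        √s * (K s - (1 + s) / (4 * s) * H s) ^ 2 +
        ((P - 1 / 8) * s + 1 / 16 * s ^ 2 - 3 / 16) / (s * √s) * H s ^ 2 := by
    unfold VV
    generalize √s = σ at *
    subst e2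
    field_simp
    ring
  have h4 : 0 ≤ (P - 1 / 8) * s + 1 / 16 * s ^ 2 - 3 / 16 := by nlinarith
  have h5 : 0 ≤ VV P b H K s + (b * √s) * H s ^ 2 := by
    rw [e3]
    have : 0 ≤ ((P - 1 / 8) * s + 1 / 16 * s ^ 2 - 3 / 16) / (s * √s) :=
      div_nonneg h4 (by positivity)
    positivity
  have h6 : -(b * H s ^ 2) ≤ EE P b H K s := by
    unfold EE
    have : 0 ≤ P / s * H s ^ 2 := by positivity
    nlinarith [sq_nonneg (K s)]
  have h7 : -(b * H s ^ 2) ≤ 3 / 16 / √P * EE P b H K s := by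
    have h8 : 3 / 16 / √P ≤ 1 := by
      rw [div_le_one (by linarith)]
      linarith
    have h9 : 0 ≤ 3 / 16 / √P := by positivity
    have h10 : 0 ≤ b * H s ^ 2 := mul_nonneg (by linarith) (sq_nonneg _)
    nlinarith
  have h11 : b * √s * H s ^ 2 ≤ b * C / √s := by
    rw [le_div_iff₀ hσ]
    have : H s ^ 2 * s ≤ C := by rwa [le_div_iff₀ hs0] at hH
    calc b * √s * H s ^ 2 * √s = b * (H s ^ 2 * (√s * √s)) := by ring
      _ = b * (H s ^ 2 * s) := by rw [e2]
      _ ≤ b * C := mul_le_mul_of_nonneg_left this (by linarith)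
  have h12 : b * H s ^ 2 ≤ b * C / √s := by
    refine le_trans ?_ h11
    have : 0 ≤ H s ^ 2 := sq_nonneg _
    have hb0 : 0 ≤ b := by linarith
    nlinarith [mul_nonneg hb0 this]
  have h13 : 0 ≤ b * C / √s := div_nonneg (mul_nonneg (by linarith) hC0) hσ.le
  unfold WW
  have e9 : 4 * b * C / √s = 4 * (b * C / √s) := by ring
  rw [e9]
  linarith

/-- **total variation bound** -/
theorem tv (h : Sys P b H K) (hP : 6 ≤ P) (hb : 1 / 4 ≤ b) (hbP : 16 * b - 1 ≤ P ^ 2)
    (hE0 : Tendsto (EE P b H K) (𝓝[>] 0) (𝓝 (P ^ 2)))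
    (hV0 : Tendsto (VV P b H K) (𝓝[>] 0) (𝓝 0))
    (w : ℝ → ℝ) (hw : Continuous w) (hHw : ∀ s, H s = s * w s) (hw0 : |w 0| ≤ P)
    (hc : ContinuousOn H (Ici 0)) {C : ℝ} (hC0 : 0 ≤ C)
    (hC : ∀ s, 1 ≤ s → H s ^ 2 ≤ C / s) (Q : ℝ) (hQ : 0 ≤ Q) (hQ2 : P ^ 2 ≤ (b - 1 / 16) * Q ^ 4)
    (hint : IntegrableOn w (Ioi 0)) :
    ∫ s in Ioi (0 : ℝ), |w s| ≤ 1 + 318 / 100 * Q := by
  have hP0 : 0 < P := by linarith
  have hP1 : (0 : ℝ) < 1 / P := by positivity
  have hB : 0 < b - 1 / 16 := by linarith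
  have hB16 : 0 < 16 * b - 1 := by linarith
  have hQ0 : 0 < Q := by
    rcases hQ.eq_or_lt with h1 | h1
    · rw [← h1] at hQ2
      simp at hQ2
      nlinarith
    · exact h1
  have h0 : H 0 = 0 := by rw [hHw]; ring
  set S : ℝ := P / (16 * b - 1) with hSd
  have hS0 : 0 < S := by positivity
  have hS : 1 / P ≤ S := by
    rw [hSd, div_le_div_iff₀ hP0 (by linarith)]
    nlinarith
  have hnear := near h hP hb hbP hE0 hV0 w hw hHw hw0 hc
  rw [← hSd] at hnear
  have hQ3 : P * P / (b - 1 / 16) ≤ Q ^ 4 := by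
    rw [div_le_iff₀ hB]
    nlinarith
  -- the middle constant
  have hmid : √(25 / 48 * √P) * (4 * √(√S)) ≤ 1444 / 1000 * Q := by
    have e1 : √(25 / 48 * √P) * √(√S) = √(25 / 48 * √(P * S)) := by
      rw [← Real.sqrt_mul (by positivity), mul_assoc, Real.sqrt_mul hP0.le]
    have e2 : √(P * S) ≤ Q ^ 2 / 4 := by
      apply Real.sqrt_le_iff.2 ⟨by positivity, ?_⟩
      have : P * S = P * P / (b - 1 / 16) / 16 := by
        rw [hSd]
        have : 16 * b - 1 = 16 * (b - 1 / 16) := by ring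
        rw [this]
        field_simp
      rw [this]
      nlinarith
    have e3 : √(25 / 48 * √(P * S)) ≤ 361 / 1000 * Q := by
      apply Real.sqrt_le_iff.2 ⟨by positivity, ?_⟩
      nlinarith
    calc √(25 / 48 * √P) * (4 * √(√S)) = 4 * (√(25 / 48 * √P) * √(√S)) := by ring
      _ = 4 * √(25 / 48 * √(P * S)) := by rw [e1]
      _ ≤ _ := by linarith
  -- the far constant
  obtain ⟨t, ht0, hft⟩ : ∃ t : ℝ, 0 < t ∧
      t / 2 * (3 / 8 * (P * √P) / (b - 1 / 16)) + 1 / t * (1 / √S) ≤ 1733 / 1000 * Q := by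
    have hσ : 0 < √S := Real.sqrt_pos.2 hS0
    have hp : 0 < √P := Real.sqrt_pos.2 hP0
    refine ⟨2 / (√3 * Q * √S), by positivity, ?_⟩
    have e0 : √P * √S ≤ Q ^ 2 / 4 := by
      rw [← Real.sqrt_mul hP0.le]
      apply Real.sqrt_le_iff.2 ⟨by positivity, ?_⟩
      have : P * S = P * P / (b - 1 / 16) / 16 := by
        rw [hSd]
        have : 16 * b - 1 = 16 * (b - 1 / 16) := by ring
        rw [this]
        field_simp
      rw [this]
      nlinarith
    have e1 : P / (b - 1 / 16) = 16 * S := by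
      rw [hSd]
      have : 16 * b - 1 = 16 * (b - 1 / 16) := by ring
      rw [this]
      field_simp
    have e2 : 3 / 8 * (P * √P) / (b - 1 / 16) = 6 * √P * S := by
      calc 3 / 8 * (P * √P) / (b - 1 / 16) = 3 / 8 * √P * (P / (b - 1 / 16)) := by ring
        _ = _ := by rw [e1]; ring
    rw [e2]
    have e3 : √S * √S = S := Real.mul_self_sqrt hS0.le
    have e4 : √3 * √3 = 3 := Real.mul_self_sqrt (by norm_num)
    have e5 : 2 / (√3 * Q * √S) / 2 * (6 * √P * S) + 1 / (2 / (√3 * Q * √S)) * (1 / √S) =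
        2 * √3 * (√P * √S) / Q + √3 * Q / 2 := by
      generalize √3 = c3 at *
      generalize √S = σ at *
      rw [← e3]
      have hc3 : c3 ≠ 0 := by
        intro h
        rw [h] at e4
        norm_num at e4
      have hσ' := hσ.ne'
      have hQ' := hQ0.ne'
      field_simp
      have : (6 : ℝ) = 2 * (c3 * c3) := by rw [e4]; norm_num
      nlinarith [this]
    rw [e5]
    have e6 : 2 * √3 * (√P * √S) / Q ≤ √3 * Q / 2 := by
      rw [div_le_iff₀ hQ0]
      have : 0 ≤ √3 := Real.sqrt_nonneg 3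
      nlinarith
    have e7 : √3 ≤ 1733 / 1000 := by
      apply Real.sqrt_le_iff.2 ⟨by norm_num, by norm_num⟩
    nlinarith
  have hlim1 : Tendsto (fun R : ℝ => ∫ s in (0 : ℝ)..R, |w s|) atTop (𝓝 (∫ s in Ioi (0 : ℝ), |w s|)) :=
    intervalIntegral_tendsto_integral_Ioi 0 hint.abs tendsto_id
  have hlim2 : Tendsto (fun R : ℝ => 1 + 1444 / 1000 * Q + (1733 / 1000 * Q +
      t / 2 / (b - 1 / 16) * (4 * b * C / √R))) atTop (𝓝 (1 + 1444 / 1000 * Q + (1733 / 1000 * Q +
      t / 2 / (b - 1 / 16) * 0))) := by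
    refine tendsto_const_nhds.add (tendsto_const_nhds.add (Tendsto.const_mul _ ?_))
    exact tendsto_const_nhds.div_atTop Real.tendsto_sqrt_atTop
  have hle : ∀ᶠ R : ℝ in atTop, ∫ s in (0 : ℝ)..R, |w s| ≤ 1 + 1444 / 1000 * Q + (1733 / 1000 * Q +
      t / 2 / (b - 1 / 16) * (4 * b * C / √R)) := by
    filter_upwards [eventually_ge_atTop S, eventually_ge_atTop (1 : ℝ)] with R hR hR1
    have hi : ∀ x y : ℝ, IntervalIntegrable (fun s => |w s|) volume x y := fun x y =>
      hw.abs.intervalIntegrable x y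
    rw [← intervalIntegral.integral_add_adjacent_intervals (hi 0 S) (hi S R)]
    refine add_le_add (hnear.trans (by linarith)) ?_
    have h1 := far h hP hb hbP hE0 hV0 hc h0 S R hS hR t ht0
    have h2 : ∫ s in S..R, |w s| = ∫ s in S..R, |H s| / s := by
      refine intervalIntegral.integral_congr (fun s hs => ?_)
      rw [uIcc_of_le hR] at hs
      have hs0 : 0 < s := lt_of_lt_of_le hS0 hs.1
      show |w s| = |H s| / s
      rw [hHw, abs_mul, abs_of_pos hs0]
      field_simp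
    rw [h2]
    refine h1.trans ?_
    have h3 := W_lim (K := K) hP hb hC0 hC R hR1
    have h4 : t / 2 * ((3 / 8 * (P * √P) - WW P b H K R) / (b - 1 / 16)) ≤
        t / 2 * (3 / 8 * (P * √P) / (b - 1 / 16)) + t / 2 / (b - 1 / 16) * (4 * b * C / √R) := by
      have e : t / 2 * ((3 / 8 * (P * √P) - WW P b H K R) / (b - 1 / 16)) =
        t / 2 * (3 / 8 * (P * √P) / (b - 1 / 16)) + t / 2 / (b - 1 / 16) * (-WW P b H K R) := by
        ring
      rw [e]
      have : 0 ≤ t / 2 / (b - 1 / 16) := by positivity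
      have := mul_le_mul_of_nonneg_left (show -WW P b H K R ≤ 4 * b * C / √R by linarith) this
      linarith
    linarith
  have := le_of_tendsto_of_tendsto hlim1 hlim2 hle
  linarith

end Pool.Agent.X91.BW
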