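import Pool.Agent.X91.BW.Half
import Pool.Agent.Y282.RB.K

/-! From compactly supported functions to Schwartz functions -/

set_option autoImplicit false

open MeasureTheory Set Filter Topology
open scoped FourierTransform SchwartzMap ContDiff ENNReal

namespace Pool.Agent.X91.BW

open Pool.Agent.Y282.RB (Tn)
open Pool.Agent.Y282.RB.K (Tn_add Tn_eq adm_sy exists_cut tendsto_trunc)

/-- truncations -/
lemma trunc (k : ℕ) (f : 𝓢(ℂ, ℂ)) (hf : ∀ a z : ℂ, ‖a‖ = 1 → f (a * z) = a ^ k * f z)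
    (ε : ℝ) (h0 : 0 < ε) (h1 : ε < 1) :
    ∃ (F : ℝ → ℂ) (h : 𝓢(ℂ, ℂ)), Good F ∧
      (∀ z, h z = (z / (‖z‖ : ℂ)) ^ k * F (Complex.normSq z)) ∧
      (∀ z, ‖h z‖ ≤ ‖f z‖) ∧ (∀ z, ‖(f - h) z‖ ≤ ‖f z‖) ∧
      ∀ z, ε ≤ Complex.normSq z → Complex.normSq z ≤ 1 / ε → (f - h) z = 0 := by
  obtain ⟨χ, R, hχ1, hχ2, hχ3, hχ4, hχ5, hχ6⟩ := exists_cut ε h0 h1
  obtain ⟨F, hFd⟩ : ∃ F : ℝ → ℂ, F = fun x => (χ x : ℂ) * f ((√x : ℝ) : ℂ) := ⟨_, rfl⟩
  have hFs : ContDiff ℝ ∞ F := by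
    rw [contDiff_iff_contDiffAt]
    intro x
    rcases lt_or_ge x (ε / 2) with hx | hx
    · refine (contDiffAt_const (c := (0 : ℂ))).congr_of_eventuallyEq ?_
      filter_upwards [Iio_mem_nhds hx] with y hy
      rw [hFd]
      simp only
      rw [hχ5 y (le_of_lt hy)]
      simp
    · have hx0 : 0 < x := by linarith
      rw [hFd]
      refine ContDiffAt.mul ?_ ?_
      · exact (Complex.ofRealCLM.contDiff.comp hχ1).contDiffAt
      · have e1 : ContDiffAt ℝ ∞ (fun x : ℝ => ((√x : ℝ) : ℂ)) x :=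
          Complex.ofRealCLM.contDiff.contDiffAt.comp x (Real.contDiffAt_sqrt hx0.ne')
        exact ((f.smooth ⊤).contDiffAt).comp x e1
  have hGood : Good F := by
    refine ⟨hFs, ε / 2, R, by linarith, fun x hx => ?_, fun x hx => ?_⟩
    · rw [hFd]
      simp only
      rw [hχ5 x hx]
      simp
    · rw [hFd]
      simp only
      rw [hχ6 x hx]
      simp
  have hrad : ∀ z : ℂ, (z / (‖z‖ : ℂ)) ^ k * F (Complex.normSq z) = (χ (Complex.normSq z) : ℂ) * f z := by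
    intro z
    rw [hFd]
    simp only
    by_cases hz : z = 0
    · subst hz
      rw [map_zero, hχ5 0 (by linarith)]
      simp
    · have hn : (‖z‖ : ℂ) ≠ 0 := Complex.ofReal_ne_zero.2 (norm_ne_zero_iff.2 hz)
      have h2 : √(Complex.normSq z) = ‖z‖ := rfl
      have ha : ‖z / (‖z‖ : ℂ)‖ = 1 := by
        rw [norm_div, Complex.norm_real, norm_norm]
        exact div_self (norm_ne_zero_iff.2 hz)
      have h3 := hf (z / (‖z‖ : ℂ)) (‖z‖ : ℂ) ha
      rw [div_mul_cancel₀ _ hn] at h3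
      rw [h2, h3]
      ring
  have hns : ContDiff ℝ ∞ (fun z : ℂ => (χ (Complex.normSq z) : ℂ)) :=
    Complex.ofRealCLM.contDiff.comp (hχ1.comp normSq_smooth)
  have hrs : ContDiff ℝ ∞ (fun z : ℂ => (χ (Complex.normSq z) : ℂ) * f z) := hns.mul (f.smooth ⊤)
  have hrc : HasCompactSupport (fun z : ℂ => (χ (Complex.normSq z) : ℂ) * f z) := by
    refine HasCompactSupport.intro (isCompact_closedBall (0 : ℂ) (max R 1)) fun z hz => ?_
    rw [Metric.mem_closedBall, dist_zero_right, not_le] at hz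
    rw [hχ6 _ ?_]
    · simp
    · rw [Complex.normSq_eq_norm_sq]
      have h2 : R < ‖z‖ := lt_of_le_of_lt (le_max_left _ _) hz
      have h3 : 1 < ‖z‖ := lt_of_le_of_lt (le_max_right _ _) hz
      nlinarith
  refine ⟨F, hrc.toSchwartzMap hrs, hGood, fun z => (hrad z).symm, fun z => ?_, fun z => ?_,
    fun z hz1 hz2 => ?_⟩
  · show ‖(χ (Complex.normSq z) : ℂ) * f z‖ ≤ ‖f z‖
    rw [norm_mul, Complex.norm_real, Real.norm_of_nonneg (hχ3 _).1]
    exact mul_le_of_le_one_left (norm_nonneg _) (hχ3 _).2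
  · show ‖f z - (χ (Complex.normSq z) : ℂ) * f z‖ ≤ ‖f z‖
    have e : f z - (χ (Complex.normSq z) : ℂ) * f z = ((1 - χ (Complex.normSq z) : ℝ) : ℂ) * f z := by
      push_cast
      ring
    rw [e, norm_mul, Complex.norm_real, Real.norm_of_nonneg (by linarith [(hχ3 (Complex.normSq z)).2])]
    exact mul_le_of_le_one_left (norm_nonneg _) (by linarith [(hχ3 (Complex.normSq z)).1])
  · show f z - (χ (Complex.normSq z) : ℂ) * f z = 0
    rw [hχ4 _ hz1 hz2]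
    simp

/-- extension of a bound from the truncations -/
lemma ext_bound (n k : ℕ) (hn : 1 ≤ n) {p : ℝ} (hp : 2 ≤ p) (C : ℝ)
    (hH : ∀ (F : ℝ → ℂ) (g : 𝓢(ℂ, ℂ)), Good F →
      (∀ z, g z = (z / (‖z‖ : ℂ)) ^ k * F (Complex.normSq z)) →
      eLpNorm (Tn n g) (ENNReal.ofReal p) volume ≤ ENNReal.ofReal C * eLpNorm g (ENNReal.ofReal p) volume)
    (f : 𝓢(ℂ, ℂ)) (hf : ∀ a z : ℂ, ‖a‖ = 1 → f (a * z) = a ^ k * f z) :
    eLpNorm (Tn n f) (ENNReal.ofReal p) volume ≤ ENNReal.ofReal C * eLpNorm f (ENNReal.ofReal p) volume := by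
  have hk : ∀ k : ℕ, (0 : ℝ) < 1 / ((k : ℝ) + 2) ∧ 1 / ((k : ℝ) + 2) < 1 := by
    intro k
    have : (0 : ℝ) ≤ k := Nat.cast_nonneg k
    refine ⟨by positivity, ?_⟩
    rw [div_lt_one (by linarith)]
    linarith
  choose F h hg1 hh hle1 hle2 hz using fun j : ℕ =>
    trunc k f hf (1 / ((j : ℝ) + 2)) (hk j).1 (hk j).2
  set K : ℝ≥0∞ := ENNReal.ofReal (((n : ℝ) + 1) / 2 * (((n : ℝ) + 1) / ((n : ℝ) - 1)) ^ (((n : ℝ) - 1) / 2)
    * (p - 1)) with hK
  have hKt : K ≠ ⊤ := ENNReal.ofReal_ne_top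
  have hP1 : (1 : ℝ≥0∞) ≤ ENNReal.ofReal p := by
    rw [← ENNReal.ofReal_one]
    exact ENNReal.ofReal_le_ofReal (by linarith)
  have hbound : ∀ j, eLpNorm (Tn n f) (ENNReal.ofReal p) (volume : Measure ℂ) ≤
      K * eLpNorm (f - h j : 𝓢(ℂ, ℂ)) (ENNReal.ofReal p) (volume : Measure ℂ) +
        ENNReal.ofReal C * eLpNorm (⇑f) (ENNReal.ofReal p) (volume : Measure ℂ) := by
    intro j
    have e1 : Tn n f = fun z => Tn n (f - h j : 𝓢(ℂ, ℂ)) z + Tn n (h j) z := by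
      rw [← Tn_add]
      congr 2
      rw [sub_add_cancel]
    have m1 : AEStronglyMeasurable (Tn n (f - h j : 𝓢(ℂ, ℂ))) (volume : Measure ℂ) := by
      rw [Tn_eq]
      exact (Pool.Agent.TH55.PowA.T_cont (adm_sy n) _).aestronglyMeasurable
    have m2 : AEStronglyMeasurable (Tn n (h j)) (volume : Measure ℂ) := by
      rw [Tn_eq]
      exact (Pool.Agent.TH55.PowA.T_cont (adm_sy n) _).aestronglyMeasurable
    rw [e1]
    refine (eLpNorm_add_le m1 m2 hP1).trans (add_le_add ?_ ?_)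
    · rw [Tn_eq]
      exact Pool.Agent.TH55.PowA.main p hp n hn (f - h j)
    · refine (hH (F j) (h j) (hg1 j) (hh j)).trans ?_
      gcongr
      exact eLpNorm_mono (hle1 j)
  have hlim : Tendsto (fun j => K * eLpNorm (f - h j : 𝓢(ℂ, ℂ)) (ENNReal.ofReal p)
      (volume : Measure ℂ) + ENNReal.ofReal C * eLpNorm (⇑f) (ENNReal.ofReal p)
        (volume : Measure ℂ)) atTop (𝓝 (K * 0 + ENNReal.ofReal C * eLpNorm (⇑f) (ENNReal.ofReal p)
          (volume : Measure ℂ))) := by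
    refine Tendsto.add ?_ tendsto_const_nhds
    refine ENNReal.Tendsto.const_mul ?_ (Or.inr hKt)
    refine tendsto_trunc f (fun j => f - h j) p hp (fun j z => hle2 j z) fun j z hz1 hz2 => ?_
    refine hz j z hz1 ?_
    rw [one_div_one_div]
    exact hz2
  rw [mul_zero, zero_add] at hlim
  exact ge_of_tendsto' hlim hbound

/-- **all modes `n + m`, `m ≠ n`** -/
theorem upper (n m : ℕ) (hn : 1 ≤ n) (h : n ≠ m) {p : ℝ} (hp : 2 ≤ p) (f : 𝓢(ℂ, ℂ))
    (hf : ∀ a z : ℂ, ‖a‖ = 1 → f (a * z) = a ^ (n + m) * f z) :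
    eLpNorm (Tn n f) (ENNReal.ofReal p) volume ≤
      ENNReal.ofReal (Real.exp (2 * hs n) ^ (1 - 2 / p)) * eLpNorm f (ENNReal.ofReal p) volume :=
  ext_bound n (n + m) hn hp _ (fun _ g hF hg => plane_p n m h hp hF g hg) f hf

end Pool.Agent.X91.BW
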